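import Pool.Agent.Y44.FG.StepIII

set_option autoImplicit false
set_option linter.unusedSectionVars false

/-! The limit group (helper44; adaptation of TH82.FG.Limit and TH82.FG.Fin). -/

namespace Pool.Agent.Y44.FG

open Pool.Agent.TH68 Pool.Agent.Helper97.Hyp Pool.Agent.TH82.FG

theorem goodT_normal {R : Subgroup FF} (h : GoodT R) : R.Normal := by
  obtain ⟨Q, _, ψ, P, W, δ, h, rfl⟩ := h
  exact ψ.normal_ker

theorem goodT_free {R : Subgroup FF} (h : GoodT R) {x : GG} (hx : io x ∈ R) : x = 1 := by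
  obtain ⟨Q, _, ψ, P, W, δ, h, rfl⟩ := h
  have h1 := h.fi x
  rw [MonoidHom.mem_ker.1 hx, W.one'] at h1
  exact FreeGroup.norm_eq_zero.1 h1.symm

/-- centralizers of the elements of finite order -/
theorem goodT_cen {R : Subgroup FF} (h : GoodT R) {t g : FF} {k : ℕ} (hk : 0 < k)
    (htk : t ^ k ∈ R) (ht : t ∉ R) (hg : g * t * g⁻¹ * t⁻¹ ∈ R) : ∃ j : ℤ, g⁻¹ * t ^ j ∈ R := by
  obtain ⟨Q, _, ψ, P, W, δ, h, rfl⟩ := h
  have ht' : ψ t ≠ 1 := fun h1 => ht (MonoidHom.mem_ker.2 h1)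
  have hf : IsOfFinOrder (ψ t) := by
    rw [isOfFinOrder_iff_pow_eq_one]
    exact ⟨k, hk, by rw [← map_pow]; exact MonoidHom.mem_ker.1 htk⟩
  have hp : (orderOf (ψ t)).Prime := by
    rcases h.og.ord _ hf with h1 | h1
    · exact absurd h1 ht'
    · exact h1
  rw [MonoidHom.mem_ker, map_mul, map_mul, map_mul, map_inv, map_inv] at hg
  have h1 : Commute (ψ g) (ψ t) := mul_inv_eq_iff_eq_mul.1 (mul_inv_eq_one.1 hg)
  obtain ⟨j, hj⟩ := h.og.cent hp h1.symm
  have hj' : ψ t ^ j = ψ g := hj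
  refine ⟨j, ?_⟩
  rw [MonoidHom.mem_ker, map_mul, map_inv, map_zpow, hj', inv_mul_cancel]

theorem goodT_com {R : Subgroup FF} (h : GoodT R) (x : GG) : al x ∈ R ↔ be x ∈ R := by
  obtain ⟨Q, _, ψ, P, W, δ, h, rfl⟩ := h
  rw [MonoidHom.mem_ker, MonoidHom.mem_ker]
  constructor
  · intro h1
    have h2 := h.pp _ h1
    rw [ph_al] at h2
    exact h.pb x h2
  · intro h1
    have h2 := h.pp _ h1
    rw [ph_be] at h2
    exact h.pa x h2

/-- the tasks -/
abbrev Task : Type := FF ⊕ (GG × GG × GG) ⊕ GG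

/-- what is achieved in one step -/
def StpT (τ : Task) (R R' : Subgroup FF) : Prop :=
  (∀ g, τ = Sum.inl g → ∃ x y : GG, al x * be y * g⁻¹ ∈ R') ∧
  (∀ x y s, τ = Sum.inr (Sum.inl (x, y, s)) → al (x * y * x⁻¹ * y⁻¹) ∉ R →
    ∃ v ∈ Subgroup.closure ({x, y} : Set GG), al (v * s⁻¹) ∈ R' ∧ be (v * s⁻¹) ∈ R') ∧
  (∀ x, τ = Sum.inr (Sum.inr x) → ∃ k : ℕ, 0 < k ∧ al (x ^ k) ∈ R' ∧ be (x ^ k) ∈ R')

theorem exists_nextT (h1 : StepI') (h2 : StepII') (h3 : StepIII') (τ : Task)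
    (R : Subgroup FF) (hR : GoodT R) :
    ∃ R' : Subgroup FF, GoodT R' ∧ R ≤ R' ∧ StpT τ R R' := by
  rcases τ with g | ⟨x, y, s⟩ | x
  · obtain ⟨R', a, b, x, y, d⟩ := h1 R hR g
    refine ⟨R', a, b, ?_, ?_, ?_⟩
    · intro g' hg'
      rw [← Sum.inl.inj hg']
      exact ⟨x, y, d⟩
    · intro _ _ _ h
      exact absurd h (by simp)
    · intro _ h
      exact absurd h (by simp)
  · by_cases hc : al (x * y * x⁻¹ * y⁻¹) ∈ R
    · refine ⟨R, hR, le_rfl, ?_, ?_, ?_⟩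
      · intro _ h
        exact absurd h (by simp)
      · intro x' y' s' h h'
        have h3 := Sum.inl.inj (Sum.inr.inj h)
        rw [Prod.mk.injEq, Prod.mk.injEq] at h3
        obtain ⟨rfl, rfl, rfl⟩ := h3
        exact absurd hc h'
      · intro _ h
        exact absurd h (by simp)
    · obtain ⟨R', a, b, v, hv, d⟩ := h2 R hR x y s hc
      refine ⟨R', a, b, ?_, ?_, ?_⟩
      · intro _ h
        exact absurd h (by simp)
      · intro x' y' s' h _
        have h3 := Sum.inl.inj (Sum.inr.inj h)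
        rw [Prod.mk.injEq, Prod.mk.injEq] at h3
        obtain ⟨rfl, rfl, rfl⟩ := h3
        exact ⟨v, hv, d⟩
      · intro _ h
        exact absurd h (by simp)
  · obtain ⟨R', a, b, k, hk, d⟩ := h3 R hR x
    refine ⟨R', a, b, ?_, ?_, ?_⟩
    · intro _ h
      exact absurd h (by simp)
    · intro _ _ _ h
      exact absurd h (by simp)
    · intro x' h
      rw [← Sum.inr.inj (Sum.inr.inj h)]
      exact ⟨k, hk, d⟩

/-- the limit group -/
structure LimT (R : Subgroup FF) : Prop where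
  norm : R.Normal
  fac : ∀ g : FF, ∃ x y : GG, al x * be y * g⁻¹ ∈ R
  genA : ∀ x y s : GG, al (x * y * x⁻¹ * y⁻¹) ∉ R →
    ∃ v ∈ Subgroup.closure ({x, y} : Set GG), al (v * s⁻¹) ∈ R
  genB : ∀ x y s : GG, be (x * y * x⁻¹ * y⁻¹) ∉ R →
    ∃ v ∈ Subgroup.closure ({x, y} : Set GG), be (v * s⁻¹) ∈ R
  torA : ∀ x : GG, ∃ k : ℕ, 0 < k ∧ al x ^ k ∈ R
  torB : ∀ x : GG, ∃ k : ℕ, 0 < k ∧ be x ^ k ∈ R
  free : ∀ x : GG, io x ∈ R → x = 1
  cen : ∀ (t : FF) (k : ℕ), 0 < k → t ^ k ∈ R → t ∉ R → ∀ g : FF, g * t * g⁻¹ * t⁻¹ ∈ R →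
    ∃ j : ℤ, g⁻¹ * t ^ j ∈ R

theorem limitT (h1 : StepI') (h2 : StepII') (h3 : StepIII') (h0 : GoodT ⊥) :
    ∃ R : Subgroup FF, LimT R := by
  classical
  have hcF : Countable FF := by
    have : Function.Surjective (FreeGroup.mk : List (Fin 6 × Bool) → FF) := fun x =>
      ⟨x.toWord, FreeGroup.mk_toWord⟩
    exact this.countable
  have hcG : Countable GG := by
    have : Function.Surjective (FreeGroup.mk : List (Fin 2 × Bool) → GG) := fun x =>
      ⟨x.toWord, FreeGroup.mk_toWord⟩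
    exact this.countable
  obtain ⟨τ, hτ⟩ := exists_surjective_nat Task
  choose nx hn1 hn2 hn4 using fun (n : ℕ) (R : {R : Subgroup FF // GoodT R}) =>
    exists_nextT h1 h2 h3 (τ n) R.1 R.2
  let Rs : ℕ → {R : Subgroup FF // GoodT R} := fun n =>
    Nat.rec ⟨⊥, h0⟩ (fun n R => ⟨nx n R, hn1 n R⟩) n
  have hs : ∀ n, (Rs (n + 1)).1 = nx n (Rs n) := fun n => rfl
  have hle1 : ∀ n, (Rs n).1 ≤ (Rs (n + 1)).1 := fun n => hs n ▸ hn2 n (Rs n)
  have hmono : Monotone fun n => (Rs n).1 := monotone_nat_of_le_succ hle1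
  have hstp : ∀ n, StpT (τ n) (Rs n).1 (Rs (n + 1)).1 := fun n => hs n ▸ hn4 n (Rs n)
  have hmem : ∀ x : FF, x ∈ (⨆ n, (Rs n).1 : Subgroup FF) ↔ ∃ n, x ∈ (Rs n).1 := fun x =>
    Subgroup.mem_iSup_of_directed hmono.directed_le
  refine ⟨⨆ n, (Rs n).1, ?_, ?_, ?_, ?_, ?_, ?_, ?_, ?_⟩
  · refine ⟨fun x hx g => ?_⟩
    obtain ⟨n, hn⟩ := (hmem x).1 hx
    exact (hmem _).2 ⟨n, (goodT_normal (Rs n).2).conj_mem x hn g⟩
  · intro g
    obtain ⟨n, hn⟩ := hτ (Sum.inl g)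
    obtain ⟨x, y, hxy⟩ := (hstp n).1 g hn
    exact ⟨x, y, (hmem _).2 ⟨n + 1, hxy⟩⟩
  · intro x y s hxy
    obtain ⟨n, hn⟩ := hτ (Sum.inr (Sum.inl (x, y, s)))
    obtain ⟨v, hv, h3, -⟩ := (hstp n).2.1 x y s hn fun h => hxy ((hmem _).2 ⟨n, h⟩)
    exact ⟨v, hv, (hmem _).2 ⟨n + 1, h3⟩⟩
  · intro x y s hxy
    obtain ⟨n, hn⟩ := hτ (Sum.inr (Sum.inl (x, y, s)))
    obtain ⟨v, hv, -, h3⟩ := (hstp n).2.1 x y s hn fun h =>
      hxy ((hmem _).2 ⟨n, (goodT_com (Rs n).2 _).1 h⟩)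
    exact ⟨v, hv, (hmem _).2 ⟨n + 1, h3⟩⟩
  · intro x
    obtain ⟨n, hn⟩ := hτ (Sum.inr (Sum.inr x))
    obtain ⟨k, hk, ha, -⟩ := (hstp n).2.2 x hn
    rw [map_pow] at ha
    exact ⟨k, hk, (hmem _).2 ⟨n + 1, ha⟩⟩
  · intro x
    obtain ⟨n, hn⟩ := hτ (Sum.inr (Sum.inr x))
    obtain ⟨k, hk, -, hb⟩ := (hstp n).2.2 x hn
    rw [map_pow] at hb
    exact ⟨k, hk, (hmem _).2 ⟨n + 1, hb⟩⟩
  · intro x hx
    obtain ⟨n, hn⟩ := (hmem _).1 hx
    exact goodT_free (Rs n).2 hn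
  · intro t k hk htk ht g hg
    obtain ⟨n, hn⟩ := (hmem _).1 htk
    obtain ⟨n', hn'⟩ := (hmem _).1 hg
    have e1 : t ^ k ∈ (Rs (max n n')).1 := hmono (le_max_left n n') hn
    have e2 : g * t * g⁻¹ * t⁻¹ ∈ (Rs (max n n')).1 := hmono (le_max_right n n') hn'
    have e3 : t ∉ (Rs (max n n')).1 := fun h => ht ((hmem _).2 ⟨_, h⟩)
    obtain ⟨j, hj⟩ := goodT_cen (Rs (max n n')).2 hk e1 e3 e2
    exact ⟨j, (hmem _).2 ⟨_, hj⟩⟩

section wf

/-- groups with finite proper subgroups -/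
theorem wf_of_fin {A : Type*} [Group A] (h : ∀ K : Subgroup A, K ≠ ⊤ → (K : Set A).Finite) :
    WellFoundedLT (Subgroup A) := by
  have key : ∀ (n : ℕ) (K : Subgroup A), (K : Set A).Finite → (K : Set A).ncard = n →
      Acc (· < ·) K := by
    intro n
    induction n using Nat.strong_induction_on with
    | _ n ih =>
      intro K hK hn
      refine Acc.intro K fun K' hK' => ?_
      have h1 : (K' : Set A) ⊂ (K : Set A) := hK'
      have h2 : (K' : Set A).ncard < (K : Set A).ncard := Set.ncard_lt_ncard h1 hK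
      exact ih _ (hn ▸ h2) K' (hK.subset h1.subset) rfl
  refine ⟨⟨fun K => Acc.intro K fun K' hK' => ?_⟩⟩
  exact key _ K' (h K' (ne_top_of_lt hK')) rfl

/-- elements of infinite order -/
theorem not_wf_of_inf {G : Type*} [Group G] {f : G} (hf : ¬ IsOfFinOrder f) :
    ¬ WellFoundedLT (Subgroup G) := by
  intro hw
  have hinj := injective_zpow_iff_not_isOfFinOrder.2 hf
  apply not_strictAnti_of_wellFoundedLT (fun n : ℕ => Subgroup.zpowers (f ^ (2 ^ n)))
  apply strictAnti_nat_of_succ_lt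
  intro n
  rw [lt_iff_le_and_ne]
  constructor
  · rw [Subgroup.zpowers_le]
    refine ⟨2, ?_⟩
    change (f ^ (2 ^ n)) ^ (2 : ℤ) = f ^ (2 ^ (n + 1))
    rw [zpow_ofNat, ← pow_mul, pow_succ]
  · intro he
    have h1 : f ^ (2 ^ n) ∈ Subgroup.zpowers (f ^ (2 ^ (n + 1))) := by
      rw [he]; exact Subgroup.mem_zpowers _
    obtain ⟨j, hj⟩ := h1
    have hj' : (f ^ (2 ^ (n + 1))) ^ j = f ^ (2 ^ n) := hj
    rw [← zpow_natCast, ← zpow_natCast, ← zpow_mul] at hj'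
    have h2 := hinj hj'
    push_cast at h2
    have h3 : (2 : ℤ) ^ n * (2 * j) = 2 ^ n * 1 := by
      calc (2 : ℤ) ^ n * (2 * j) = 2 ^ (n + 1) * j := by ring
        _ = 2 ^ n * 1 := by rw [h2, mul_one]
    have h4 := mul_left_cancel₀ (by positivity) h3
    omega

end wf

section final

/-- the factors satisfy the minimum condition -/
theorem fac_wf {R : Subgroup FF} [R.Normal] (κ : GG →* FF)
    (hgen : ∀ x y s : GG, κ (x * y * x⁻¹ * y⁻¹) ∉ R →
      ∃ v ∈ Subgroup.closure ({x, y} : Set GG), κ (v * s⁻¹) ∈ R)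
    (htor : ∀ x : GG, ∃ k : ℕ, 0 < k ∧ κ x ^ k ∈ R)
    (hcen : ∀ (t : FF) (k : ℕ), 0 < k → t ^ k ∈ R → t ∉ R → ∀ g : FF, g * t * g⁻¹ * t⁻¹ ∈ R →
      ∃ j : ℤ, g⁻¹ * t ^ j ∈ R) :
    WellFoundedLT (Subgroup ((QuotientGroup.mk' R).comp κ).range) := by
  apply wf_of_fin
  intro K hK
  by_cases hc : ∀ g ∈ K, ∀ h ∈ K, g * h = h * g
  · by_cases hb : K = ⊥
    · rw [hb]
      rw [Subgroup.coe_bot]
      exact Set.finite_singleton 1
    · obtain ⟨⟨t, ht⟩, ht1⟩ := Subgroup.ne_bot_iff_exists_ne_one.1 hb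
      have ht2 : t ≠ 1 := fun h => ht1 (Subtype.ext h)
      obtain ⟨t, x, rfl⟩ := t
      have ht3 : κ x ∉ R := by
        intro h
        apply ht2
        apply Subtype.ext
        change ((QuotientGroup.mk' R).comp κ) x = 1
        rw [MonoidHom.comp_apply]
        exact (QuotientGroup.eq_one_iff _).2 h
      obtain ⟨k, hk, hxk⟩ := htor x
      obtain ⟨w, hw⟩ : ∃ w : ((QuotientGroup.mk' R).comp κ).range,
        w = ⟨((QuotientGroup.mk' R).comp κ) x, x, rfl⟩ := ⟨_, rfl⟩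
      rw [← hw] at ht
      have hwf : IsOfFinOrder w := by
        rw [isOfFinOrder_iff_pow_eq_one]
        refine ⟨k, hk, ?_⟩
        apply Subtype.ext
        rw [hw]
        change (((QuotientGroup.mk' R).comp κ) x) ^ k = 1
        rw [MonoidHom.comp_apply, ← map_pow]
        exact (QuotientGroup.eq_one_iff _).2 hxk
      have hfin : (Subgroup.zpowers w : Set ((QuotientGroup.mk' R).comp κ).range).Finite := by
        exact finite_zpowers.2 hwf
      apply hfin.subset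
      rintro ⟨g, y, rfl⟩ hg
      have h1 := hc _ hg _ ht
      have h2 : κ y * κ x * (κ y)⁻¹ * (κ x)⁻¹ ∈ R := by
        have h3 := congrArg Subtype.val h1
        rw [hw] at h3
        have h4 : ((κ y : FF) : FF ⧸ R) * ((κ x : FF) : FF ⧸ R) =
          ((κ x : FF) : FF ⧸ R) * ((κ y : FF) : FF ⧸ R) := h3
        rw [← QuotientGroup.eq_one_iff, QuotientGroup.mk_mul, QuotientGroup.mk_mul,
          QuotientGroup.mk_mul, QuotientGroup.mk_inv, QuotientGroup.mk_inv, h4]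
        group
      obtain ⟨j, hj⟩ := hcen (κ x) k hk hxk ht3 (κ y) h2
      refine ⟨j, ?_⟩
      apply Subtype.ext
      rw [hw]
      change (((QuotientGroup.mk' R).comp κ) x) ^ j = ((QuotientGroup.mk' R).comp κ) y
      rw [MonoidHom.comp_apply, MonoidHom.comp_apply, ← map_zpow]
      exact (QuotientGroup.eq.2 hj).symm
  · exfalso
    apply hK
    push Not at hc
    obtain ⟨g, hg, h, hh, hne⟩ := hc
    obtain ⟨⟨_, x, rfl⟩, hx⟩ : ∃ g' : ((QuotientGroup.mk' R).comp κ).range, g' = g := ⟨_, rfl⟩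
    obtain ⟨⟨_, y, rfl⟩, hy⟩ : ∃ g' : ((QuotientGroup.mk' R).comp κ).range, g' = h := ⟨_, rfl⟩
    rw [← hx] at hg hne
    rw [← hy] at hh hne
    rw [eq_top_iff]
    rintro ⟨_, s, rfl⟩ -
    have h1 : κ (x * y * x⁻¹ * y⁻¹) ∉ R := by
      intro h2
      apply hne
      have h3 : (QuotientGroup.mk' R).comp κ (x * y * x⁻¹ * y⁻¹) = 1 := by
        rw [MonoidHom.comp_apply]
        exact (QuotientGroup.eq_one_iff _).2 h2
      rw [map_mul, map_mul, map_mul, map_inv, map_inv] at h3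
      have h4 := mul_inv_eq_one.1 h3
      apply Subtype.ext
      exact mul_inv_eq_iff_eq_mul.1 h4
    obtain ⟨v, hv, hv2⟩ := hgen x y s h1
    have h5 : (QuotientGroup.mk' R).comp κ v = (QuotientGroup.mk' R).comp κ s := by
      have h6 : (QuotientGroup.mk' R).comp κ (v * s⁻¹) = 1 := by
        rw [MonoidHom.comp_apply]
        exact (QuotientGroup.eq_one_iff _).2 hv2
      rw [map_mul, map_inv] at h6
      exact mul_inv_eq_one.1 h6
    have h7 : Subgroup.closure ({x, y} : Set GG) ≤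
        K.comap ((QuotientGroup.mk' R).comp κ).rangeRestrict := by
      rw [Subgroup.closure_le]
      rintro z (rfl | hz)
      · exact hg
      · rw [Set.mem_singleton_iff] at hz
        rw [hz]
        exact hh
    have h8 := h7 hv
    rw [Subgroup.mem_comap] at h8
    have h9 : ((QuotientGroup.mk' R).comp κ).rangeRestrict v =
        ⟨((QuotientGroup.mk' R).comp κ) s, s, rfl⟩ := Subtype.ext h5
    rw [h9] at h8
    exact h8

theorem final_min {R : Subgroup FF} (h : LimT R) :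
    ∃ (G : Type) (_ : Group G) (A B : Subgroup G),
      (∀ g : G, ∃ a ∈ A, ∃ b ∈ B, a * b = g) ∧ WellFoundedLT (Subgroup A) ∧
      WellFoundedLT (Subgroup B) ∧ ¬ WellFoundedLT (Subgroup G) := by
  have := h.norm
  refine ⟨FF ⧸ R, inferInstance, ((QuotientGroup.mk' R).comp al).range,
    ((QuotientGroup.mk' R).comp be).range, ?_, fac_wf al h.genA h.torA h.cen,
    fac_wf be h.genB h.torB h.cen, ?_⟩
  · intro g
    obtain ⟨g0, rfl⟩ := QuotientGroup.mk_surjective g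
    obtain ⟨x, y, hxy⟩ := h.fac g0
    refine ⟨_, ⟨x, rfl⟩, _, ⟨y, rfl⟩, ?_⟩
    rw [← QuotientGroup.eq_one_iff, QuotientGroup.mk_mul, QuotientGroup.mk_mul,
      QuotientGroup.mk_inv] at hxy
    exact mul_inv_eq_one.1 hxy
  · apply not_wf_of_inf (f := (QuotientGroup.mk' R).comp io (FreeGroup.of 0))
    intro hf
    rw [isOfFinOrder_iff_pow_eq_one] at hf
    obtain ⟨k, hk, hk1⟩ := hf
    rw [← map_pow, MonoidHom.comp_apply] at hk1
    have h1 := h.free _ ((QuotientGroup.eq_one_iff _).1 hk1)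
    obtain ⟨φ, hφ⟩ : ∃ φ : GG →* Multiplicative ℤ,
        φ (FreeGroup.of 0) = Multiplicative.ofAdd (1 : ℤ) :=
      ⟨FreeGroup.lift (fun _ => Multiplicative.ofAdd (1 : ℤ)), by simp⟩
    have h2 : φ (FreeGroup.of 0 ^ k) = 1 := by rw [h1, map_one]
    rw [map_pow, hφ, ← ofAdd_nsmul] at h2
    have h3 : k • (1 : ℤ) = 0 := Multiplicative.ofAdd.injective h2
    simp at h3
    omega

/-- a product of two groups with the minimum condition which does not satisfy it -/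
theorem product_min :
    ∃ (G : Type) (_ : Group G) (A B : Subgroup G),
      (∀ g : G, ∃ a ∈ A, ∃ b ∈ B, a * b = g) ∧ WellFoundedLT (Subgroup A) ∧
      WellFoundedLT (Subgroup B) ∧ ¬ WellFoundedLT (Subgroup G) := by
  obtain ⟨R, hR⟩ := limitT stepI stepII stepIII base
  exact final_min hR

end final

end Pool.Agent.Y44.FG
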