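import Pool.Agent.TH68.E2
import Pool.Agent.TH63.SC.LineEx

set_option autoImplicit false
set_option linter.unusedSectionVars false

/-!
# Odd groups (helper44)

The class of groups in which the elements of finite order have odd prime order and the subgroups
of finite order generated by one element are self-normalizing.
-/

namespace Pool.Agent.Y44.FG

open Pool.Agent.TH68 Pool.Agent.Helper97.Hyp Pool.Agent.TH82.FG

/-- odd groups -/
structure OG (Γ : Type*) [Group Γ] : Prop where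
  ord : ∀ x : Γ, IsOfFinOrder x → x = 1 ∨ (orderOf x).Prime
  nrm : ∀ x : Γ, (orderOf x).Prime → ∀ (y : Γ) (k : ℤ), y * x * y⁻¹ = x ^ k →
    y ∈ Subgroup.zpowers x
  no2 : ∀ x : Γ, orderOf x ≠ 2

section count

variable {F : Type*} [Group F]

/-- the nontrivial elements conjugate to powers of `x` -/
def conjs (x : F) : Set F := {g | g ≠ 1 ∧ ∃ (y : F) (k : ℤ), g = y * x ^ k * y⁻¹}

lemma mem_zpowers_of_prime {x c : F} (hx : (orderOf x).Prime) (hc : c ∈ Subgroup.zpowers x)
    (hc1 : c ≠ 1) : x ∈ Subgroup.zpowers c := by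
  obtain ⟨n, hn⟩ := hc
  have hn' : x ^ n = c := hn
  have h1 : ¬ ((orderOf x : ℤ) ∣ n) := by
    intro h
    apply hc1
    rw [← hn', ← orderOf_dvd_iff_zpow_eq_one]
    exact h
  have h2 : IsCoprime n (orderOf x : ℤ) := by
    have hp : _root_.Prime (orderOf x : ℤ) := Nat.prime_iff_prime_int.mp hx
    exact ((hp.coprime_iff_not_dvd).mpr h1).symm
  obtain ⟨a, b, hab⟩ := h2
  refine ⟨a, ?_⟩
  change c ^ a = x
  rw [← hn', ← zpow_mul]
  have h3 : x = x ^ (a * n + b * (orderOf x : ℤ)) := by rw [hab, zpow_one]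
  conv_rhs => rw [h3]
  rw [zpow_add, zpow_mul x b, zpow_natCast, ← zpow_natCast, ← zpow_mul, mul_comm b, zpow_mul x _ b,
    zpow_natCast, pow_orderOf_eq_one, one_zpow, mul_one, mul_comm]

lemma conjs_card [Finite F] {x : F} (hx : (orderOf x).Prime)
    (nrm : ∀ (y : F) (k : ℤ), y * x * y⁻¹ = x ^ k → y ∈ Subgroup.zpowers x) :
    Nat.card F ≤ 2 * (conjs x).ncard := by
  classical
  have := Fintype.ofFinite F
  obtain ⟨p, hp⟩ : ∃ p, p = orderOf x := ⟨_, rfl⟩
  let Z : Finset F := (Finset.univ : Finset F).filter (fun c => c ∈ Subgroup.zpowers x ∧ c ≠ 1)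
  have hZ : Z.card + 1 = p := by
    have h1 : (Finset.univ : Finset F).filter (fun c => c ∈ Subgroup.zpowers x) = insert 1 Z := by
      ext c
      simp only [Finset.mem_filter, Finset.mem_univ, true_and, Finset.mem_insert, Z]
      constructor
      · intro h
        by_cases h1 : c = 1
        · exact Or.inl h1
        · exact Or.inr ⟨h, h1⟩
      · rintro (rfl | h)
        · exact Subgroup.one_mem _
        · exact h.1
    have h2 : ((Finset.univ : Finset F).filter (fun c => c ∈ Subgroup.zpowers x)).card = p := by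
      rw [hp, ← Nat.card_zpowers, Nat.card_eq_fintype_card, Fintype.card_subtype]
    rw [← h2, h1, Finset.card_insert_of_notMem]
    simp [Z]
  let S : Finset (F × F) := (Finset.univ : Finset F) ×ˢ Z
  let f : F × F → F := fun t => t.1 * t.2 * t.1⁻¹
  have hfib : ∀ b ∈ S.image f, (S.filter (fun a => f a = b)).card ≤ p := by
    intro b hb
    obtain ⟨⟨g, c⟩, hgc, hb1⟩ := Finset.mem_image.1 hb
    have hc : c ∈ Subgroup.zpowers x ∧ c ≠ 1 := by
      have := (Finset.mem_product.1 hgc).2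
      simpa [Z] using this
    have h2 : ((Finset.univ : Finset F).filter (fun c => c ∈ Subgroup.zpowers x)).card = p := by
      rw [hp, ← Nat.card_zpowers, Nat.card_eq_fintype_card, Fintype.card_subtype]
    rw [← h2]
    apply Finset.card_le_card_of_injOn (fun t => g⁻¹ * t.1)
    · rintro ⟨g', c'⟩ h'
      simp only [Finset.coe_filter, Set.mem_ofPred_eq] at h'
      simp only [Finset.coe_filter, Finset.mem_univ, true_and, Set.mem_ofPred_eq]
      obtain ⟨h3, h4⟩ := h'
      have hc' : c' ∈ Subgroup.zpowers x ∧ c' ≠ 1 := by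
        have := (Finset.mem_product.1 h3).2
        simpa [Z] using this
      have h5 : g' * c' * g'⁻¹ = g * c * g⁻¹ := by
        change f (g', c') = f (g, c)
        rw [h4, hb1]
      -- x is a power of c'
      obtain ⟨a, ha⟩ := mem_zpowers_of_prime hx hc'.1 hc'.2
      have ha' : c' ^ a = x := ha
      obtain ⟨e, he⟩ := hc.1
      have he' : x ^ e = c := he
      apply nrm _ (e * a)
      have h6 : (g⁻¹ * g') * c' * (g⁻¹ * g')⁻¹ = c := by
        calc (g⁻¹ * g') * c' * (g⁻¹ * g')⁻¹ = g⁻¹ * (g' * c' * g'⁻¹) * g := by group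
          _ = c := by rw [h5]; group
      rw [zpow_mul, he', ← h6, conj_zpow, ha']
    · rintro ⟨g', c'⟩ h' ⟨g'', c''⟩ h'' h7
      simp only [Finset.coe_filter, Set.mem_ofPred_eq] at h' h''
      have h8 : g' = g'' := mul_left_cancel h7
      subst h8
      have h9 : g' * c' * g'⁻¹ = g' * c'' * g'⁻¹ := by
        change f (g', c') = f (g', c'')
        rw [h'.2, h''.2]
      have h10 : c' = c'' := mul_left_cancel (mul_right_cancel h9)
      rw [h10]
  have h1 := Finset.card_le_mul_card_image S p hfib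
  have h2 : S.card = Nat.card F * Z.card := by
    rw [Finset.card_product, Nat.card_eq_fintype_card]; rfl
  have h3 : (S.image f).card ≤ (conjs x).ncard := by
    rw [← Set.ncard_coe_finset]
    apply Set.ncard_le_ncard _ (Set.toFinite _)
    intro b hb
    obtain ⟨⟨g, c⟩, hgc, hb1⟩ := Finset.mem_image.1 (Finset.mem_coe.1 hb)
    have hc : c ∈ Subgroup.zpowers x ∧ c ≠ 1 := by
      have := (Finset.mem_product.1 hgc).2
      simpa [Z] using this
    obtain ⟨e, he⟩ := hc.1
    have he' : x ^ e = c := he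
    refine ⟨?_, g, e, ?_⟩
    · rw [← hb1]
      intro h
      apply hc.2
      exact conj_eq_one_iff.1 h
    · rw [he', ← hb1]
  have hp2 : 2 ≤ p := by rw [hp]; exact hx.two_le
  rw [h2] at h1
  have h4 : p * (S.image f).card ≤ p * (conjs x).ncard := Nat.mul_le_mul_left _ h3
  have h5 : Nat.card F * Z.card ≤ p * (conjs x).ncard := h1.trans h4
  have h6 : p ≤ 2 * Z.card := by omega
  have h7 : p * Nat.card F ≤ p * (2 * (conjs x).ncard) := by
    calc p * Nat.card F ≤ 2 * Z.card * Nat.card F := Nat.mul_le_mul_right _ h6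
      _ = 2 * (Nat.card F * Z.card) := by ring
      _ ≤ 2 * (p * (conjs x).ncard) := Nat.mul_le_mul_left _ h5
      _ = p * (2 * (conjs x).ncard) := by ring
  exact Nat.le_of_mul_le_mul_left h7 (by omega)

/-- finite groups in the class are cyclic -/
theorem fin_comm [Finite F] (ord : ∀ x : F, x ≠ 1 → (orderOf x).Prime)
    (nrm : ∀ x : F, x ≠ 1 → ∀ (y : F) (k : ℤ), y * x * y⁻¹ = x ^ k → y ∈ Subgroup.zpowers x)
    (a b : F) : Commute a b := by
  classical
  by_cases ha : a = 1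
  · rw [ha]; exact Commute.one_left b
  by_cases hall : ∀ y : F, y ≠ 1 → y ∈ conjs a
  · -- a p-group
    obtain ⟨p, hp⟩ : ∃ p, p = orderOf a := ⟨_, rfl⟩
    have hpp : p.Prime := hp ▸ ord a ha
    have : Fact p.Prime := ⟨hpp⟩
    have hP : IsPGroup p F := by
      intro g
      refine ⟨1, ?_⟩
      rw [pow_one]
      by_cases hg : g = 1
      · rw [hg, one_pow]
      obtain ⟨-, y, k, rfl⟩ := hall g hg
      rw [conj_pow, ← zpow_natCast, ← zpow_mul, mul_comm, zpow_mul, zpow_natCast, hp,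
        pow_orderOf_eq_one, one_zpow, mul_one, mul_inv_cancel]
    have hnt : Nontrivial F := ⟨⟨a, 1, ha⟩⟩
    have hc := hP.center_nontrivial
    obtain ⟨⟨z, hz⟩, hz1⟩ := exists_ne (1 : Subgroup.center F)
    have hz1' : z ≠ 1 := fun h => hz1 (Subtype.ext h)
    have h1 : ∀ y : F, y ∈ Subgroup.zpowers z := by
      intro y
      apply nrm z hz1' y 1
      rw [zpow_one]
      have := Subgroup.mem_center_iff.1 hz y
      rw [this, mul_inv_cancel_right]
    obtain ⟨i, hi⟩ := h1 a
    obtain ⟨j, hj⟩ := h1 b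
    have hi' : z ^ i = a := hi
    have hj' : z ^ j = b := hj
    rw [← hi', ← hj']
    exact (Commute.refl z).zpow_zpow i j
  · exfalso
    push Not at hall
    obtain ⟨y, hy1, hy⟩ := hall
    have h1 := conjs_card (ord a ha) (nrm a ha)
    have h2 := conjs_card (ord y hy1) (nrm y hy1)
    have hdis : Disjoint (conjs a) (conjs y) := by
      rw [Set.disjoint_left]
      rintro g ⟨hg1, u, k, hk⟩ ⟨-, v, l, hl⟩
      apply hy
      -- y is a power of a conjugate of g
      have h3 : v⁻¹ * g * v ∈ Subgroup.zpowers y := by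
        rw [hl]
        refine ⟨l, ?_⟩
        change y ^ l = _
        group
      have h4 : v⁻¹ * g * v ≠ 1 := by
        intro h
        apply hg1
        have : g = v * (v⁻¹ * g * v) * v⁻¹ := by group
        rw [this, h]; group
      obtain ⟨m, hm⟩ := mem_zpowers_of_prime (ord y hy1) h3 h4
      have hm' : (v⁻¹ * g * v) ^ m = y := hm
      refine ⟨hy1, v⁻¹ * u, k * m, ?_⟩
      rw [← hm', hk, zpow_mul, mul_inv_rev, inv_inv]
      have e1 : v⁻¹ * (u * a ^ k * u⁻¹) * v = (v⁻¹ * u) * a ^ k * (v⁻¹ * u)⁻¹ := by group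
      rw [e1, conj_zpow]
      group
    have h3 : (conjs a ∪ conjs y).ncard = (conjs a).ncard + (conjs y).ncard :=
      Set.ncard_union_eq hdis (Set.toFinite _) (Set.toFinite _)
    have h4 : (conjs a ∪ conjs y).ncard < Nat.card F := by
      rw [← Set.ncard_univ]
      apply Set.ncard_lt_ncard _ (Set.toFinite _)
      rw [Set.ssubset_univ_iff]
      intro h
      have h5 : (1 : F) ∈ conjs a ∪ conjs y := by rw [h]; trivial
      rcases h5 with h5 | h5 <;> exact h5.1 rfl
    omega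

end count

namespace OG

variable {Γ : Type*} [Group Γ]

lemma cent (h : OG Γ) {x y : Γ} (hx : (orderOf x).Prime) (hc : Commute x y) :
    y ∈ Subgroup.zpowers x := by
  apply h.nrm x hx y 1
  rw [zpow_one, ← hc.eq, mul_inv_cancel_right]

lemma fin_of_prime {x : Γ} (hx : (orderOf x).Prime) : IsOfFinOrder x := by
  rw [← orderOf_pos_iff]; exact hx.pos

lemma one_of_sq (h : OG Γ) {x : Γ} (hx : x * x = 1) : x = 1 := by
  by_contra hne
  apply h.no2 x
  have := Fact.mk Nat.prime_two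
  exact orderOf_eq_prime (by rw [pow_two]; exact hx) hne

lemma free (h : OG Γ) {g x : Γ} (hg : ¬ IsOfFinOrder g) {n : ℤ} (hn : n ≠ 0)
    (hx : IsOfFinOrder x) (hc : Commute x (g ^ n)) : x = 1 := by
  rcases h.ord x hx with h1 | h1
  · exact h1
  exfalso
  obtain ⟨k, hk⟩ := h.cent h1 hc
  have hk' : x ^ k = g ^ n := hk
  apply inf_zpow hg hn
  rw [← hk']
  exact hx.zpow

/-- roots -/
lemma root (h : OG Γ) (hΓ : HypGroup Γ) {g : Γ} (hg : ¬ IsOfFinOrder g) :
    ∃ g₀ : Γ, Root g₀ ∧ g ∈ Subgroup.zpowers g₀ :=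
  ez hΓ hg fun _ _ hn hx hc => h.free hg hn hx hc

/-- centralizers are cyclic -/
lemma cyc (h : OG Γ) (hΓ : HypGroup Γ) {g : Γ} (hg : g ≠ 1) :
    ∃ z : Γ, ∀ y : Γ, Commute y g → y ∈ Subgroup.zpowers z := by
  by_cases hf : IsOfFinOrder g
  · rcases h.ord g hf with h1 | h1
    · exact absurd h1 hg
    · exact ⟨g, fun y hy => h.cent h1 hy.symm⟩
  obtain ⟨z, hz, a, ha⟩ := h.root hΓ hf
  refine ⟨z, fun y hy => ?_⟩
  have ha' : z ^ a = g := ha
  have ha0 : a ≠ 0 := by
    rintro rfl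
    exact hg (by rw [← ha', zpow_zero])
  exact hz.cent y a ha0 (ha'.symm ▸ hy)

lemma comm_trans (h : OG Γ) (hΓ : HypGroup Γ) {a b g : Γ} (hg : g ≠ 1) (ha : Commute a g)
    (hb : Commute b g) : Commute a b := by
  obtain ⟨z, hz⟩ := h.cyc hΓ hg
  obtain ⟨i, hi⟩ := hz a ha
  obtain ⟨j, hj⟩ := hz b hb
  have hi' : z ^ i = a := hi
  have hj' : z ^ j = b := hj
  rw [← hi', ← hj']
  exact (Commute.refl z).zpow_zpow i j

lemma comm_zpow (h : OG Γ) (hΓ : HypGroup Γ) {g y : Γ} (hg : ¬ IsOfFinOrder g) {k : ℤ}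
    (hk : k ≠ 0) (hy : Commute y (g ^ k)) : Commute y g := by
  apply h.comm_trans hΓ (g := g ^ k) _ hy
  · exact (Commute.refl g).zpow_right k
  · exact inf_zpow_ne hg hk

lemma comm_of_conj (h : OG Γ) (hΓ : HypGroup Γ) {g e : Γ} (hg : ¬ IsOfFinOrder g) {n : ℤ}
    (hn : n ≠ 0) (he : e * g ^ n * e⁻¹ = g ^ n ∨ e * g ^ n * e⁻¹ = g ^ (-n)) : Commute e g := by
  rcases he with he | he
  · apply h.comm_zpow hΓ hg hn
    exact mul_inv_eq_iff_eq_mul.1 he
  · exfalso
    have h2 : Commute (e * e) (g ^ n) := by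
      apply mul_inv_eq_iff_eq_mul.1
      calc e * e * g ^ n * (e * e)⁻¹ = e * (e * g ^ n * e⁻¹) * e⁻¹ := by group
        _ = e * g ^ (-n) * e⁻¹ := by rw [he]
        _ = (e * g ^ n * e⁻¹)⁻¹ := by group
        _ = g ^ n := by rw [he]; group
    have h3 : Commute (e * e) g := h.comm_zpow hΓ hg hn h2
    have h4 : Commute e g := by
      by_cases h1 : e * e = 1
      · rw [h.one_of_sq h1]; exact Commute.one_left _
      · exact h.comm_trans hΓ h1 ((Commute.refl e).mul_right (Commute.refl e)) h3.symm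
    have h5 : e * g ^ n * e⁻¹ = g ^ n := mul_inv_eq_iff_eq_mul.2 (h4.zpow_right n)
    rw [h5] at he
    have h6 : g ^ (n + n) = 1 := by
      rw [zpow_add]; nth_rewrite 1 [he]; rw [← zpow_add]; simp
    exact inf_zpow_ne hg (by omega) h6

lemma mem_E_iff (h : OG Γ) (hΓ : HypGroup Γ) {W : WNorm Γ} {δ : ℝ}
    {o : Pt W} {u : Γ} (hu : ¬ IsOfFinOrder u) {a : ℕ} (ha : 0 < a) (hL : Lox δ o (u ^ a)) (e : Γ) :
    e ∈ Lox.E (u ^ a) ↔ Commute e u := by
  constructor
  · intro he
    obtain ⟨n, hn, h1⟩ := hL.exists_pow he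
    have h2 : ∀ k : ℤ, (u ^ a) ^ k = u ^ ((a : ℤ) * k) := fun k => by
      rw [← zpow_natCast, ← zpow_mul]
    rw [h2, h2] at h1
    apply h.comm_of_conj hΓ hu (n := (a : ℤ) * n) (mul_ne_zero (by omega) (by omega))
    rw [← mul_neg]
    exact h1
  · intro he
    refine ⟨1, 1, one_ne_zero, one_ne_zero, ?_⟩
    have : Commute e ((u ^ a) ^ (1 : ℤ)) := (he.pow_right a).zpow_right 1
    rw [this.eq, mul_inv_cancel_right]

/-- infinite subgroups with an element of finite order have elements of infinite order -/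
lemma inf_mem (h : OG Γ) {W : WNorm Γ} {δ : ℝ} (hyp : GHyp (Pt W) δ) (hδ : 1 ≤ δ) {H : Subgroup Γ}
    (hH : (H : Set Γ).Infinite) {v : Γ} (hvH : v ∈ H) (hv : (orderOf v).Prime) :
    ∃ f ∈ H, ¬ IsOfFinOrder f := by
  have hvf : IsOfFinOrder v := fin_of_prime hv
  set C : ℝ := 3 * (100 * δ) + 6 * δ + 4 with hC
  have hfix := fix_finite (W := W) hvf (fun y hy => h.cent hv hy) C
  set Fx : Set (Pt W) := {x : Pt W | dist x (v • x) ≤ C} with hFx
  have hbad : (⋃ p ∈ Fx, ⋃ q ∈ Fx, {γ : Γ | dist p (γ • q) ≤ 100 * (100 * δ + δ)}).Finite := by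
    refine hfix.biUnion fun p _ => hfix.biUnion fun q _ => ?_
    refine (proper q (100 * (100 * δ + δ) + dist p q)).subset ?_
    intro γ hγ
    have h1 : dist p (γ • q) ≤ 100 * (100 * δ + δ) := hγ
    have h2 := dist_triangle q p (γ • q)
    rw [dist_comm q p] at h2
    show dist q (γ • q) ≤ _
    linarith
  obtain ⟨t, htH, ht⟩ := (hH.diff hbad).nonempty
  have ht' : ∀ p ∈ Fx, ∀ q ∈ Fx, 100 * (100 * δ + δ) ≤ dist p (t • q) := by
    intro p hp q hq
    by_contra hcon
    push Not at hcon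
    exact ht (Set.mem_biUnion hp (Set.mem_biUnion hq hcon.le))
  have hconjN : t * v * t⁻¹ ∈ H := H.mul_mem (H.mul_mem htH hvH) (H.inv_mem htH)
  refine ⟨v * (t * v * t⁻¹), mul_mem hvH hconjN, ?_⟩
  obtain ⟨x₀, hx₀⟩ := disp_of_fin hyp hδ v hvf
  have conj : ∀ q : Pt W, dist q ((t * v * t⁻¹) • q) = dist (t⁻¹ • q) (v • t⁻¹ • q) := by
    intro q
    rw [mul_smul, mul_smul, ← dist_smul t (t⁻¹ • q), smul_inv_smul]
  refine far hyp hδ (C₀ := 100 * δ) (by linarith) ⟨x₀, hx₀⟩ ⟨t • x₀, ?_⟩ ?_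
  · rw [conj, inv_smul_smul]
    exact hx₀
  · intro p q hp hq
    rw [conj] at hq
    have := ht' p hp (t⁻¹ • q) hq
    rwa [smul_inv_smul] at this

/-- two elements which do not commute generate a subgroup with elements of infinite order -/
theorem exists_inf (h : OG Γ) (hΓ : HypGroup Γ) {x y : Γ} (hxy : ¬ Commute x y) :
    ∃ u ∈ Subgroup.closure ({x, y} : Set Γ), ¬ IsOfFinOrder u := by
  obtain ⟨W, δ', h'⟩ := hΓ
  set δ : ℝ := max δ' 1 with hδd
  have hyp : GHyp (Pt W) δ := GHyp.mono h' (le_max_left _ _)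
  have hδ : 1 ≤ δ := le_max_right _ _
  obtain ⟨H, hHd⟩ : ∃ H, H = Subgroup.closure ({x, y} : Set Γ) := ⟨_, rfl⟩
  rw [← hHd]
  have hxH : x ∈ H := by rw [hHd]; exact Subgroup.subset_closure (by simp)
  have hyH : y ∈ H := by rw [hHd]; exact Subgroup.subset_closure (by simp)
  by_cases hx : IsOfFinOrder x
  swap
  · exact ⟨x, hxH, hx⟩
  rcases h.ord x hx with rfl | hxp
  · exact absurd (Commute.one_left y) hxy
  by_cases hH : (H : Set Γ).Infinite
  · exact h.inf_mem hyp hδ hH hxH hxp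
  exfalso
  rw [Set.not_infinite] at hH
  have : Finite H := hH
  have hord : ∀ z : H, z ≠ 1 → (orderOf z).Prime := by
    intro z hz
    rw [← Subgroup.orderOf_coe]
    have h1 : IsOfFinOrder (z : Γ) := by
      rw [← orderOf_pos_iff, Subgroup.orderOf_coe]
      exact orderOf_pos z
    rcases h.ord _ h1 with h2 | h2
    · exact absurd (Subtype.ext h2) hz
    · exact h2
  have hnrm : ∀ z : H, z ≠ 1 → ∀ (w : H) (k : ℤ), w * z * w⁻¹ = z ^ k →
      w ∈ Subgroup.zpowers z := by
    intro z hz w k hk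
    have h1 : (orderOf (z : Γ)).Prime := by rw [Subgroup.orderOf_coe]; exact hord z hz
    have h2 : (w : Γ) * z * (w : Γ)⁻¹ = (z : Γ) ^ k := by
      have := congrArg Subtype.val hk
      simpa using this
    obtain ⟨m, hm⟩ := h.nrm _ h1 _ k h2
    refine ⟨m, ?_⟩
    apply Subtype.ext
    have hm' : (z : Γ) ^ m = w := hm
    simpa using hm'
  have h1 := fin_comm hord hnrm ⟨x, hxH⟩ ⟨y, hyH⟩
  apply hxy
  have h2 : x * y = y * x := by
    have := congrArg Subtype.val h1.eq
    simpa using this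
  exact h2

end OG

end Pool.Agent.Y44.FG
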