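import Pool.Agent.Y44.FG.Blk

set_option autoImplicit false
set_option linter.unusedSectionVars false

/-! The geometric input of the first two steps (adaptation of TH63.SC.Geom and
TH82.FG.Steps). -/

namespace Pool.Agent.Y44.FG

open Pool.Agent.TH68 Pool.Agent.Helper97.Hyp Pool.Agent.TH82.FG Pool.Agent.TH63.SC

/-- the geometric input of the first step -/
def GeomI' : Prop := ∀ {Q : Type} [Group Q] {ψ : FF →* Q} {P : Subgroup GG} {W : WNorm Q} {δ : ℝ}
    (_h : Tst ψ P W δ) {g : FF} (_hg : ∀ x y : GG, ψ (al x * be y) ≠ ψ g) (l₀ : ℝ),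
    ∃ (𝒜 : Type) (_ : MulAction Q 𝒜) (Z : Sys Q W 𝒜) (R : Spq Z) (x : GG) (c : ℝ),
      l₀ ≤ Z.θ ∧ 20000 * Z.θ ≤ R.M ∧
      R.N = Subgroup.normalClosure {ψ (al x * be (x⁻¹ * ph g) * g⁻¹)} ∧
      1000 * Z.θ ≤ c ∧ 100 * c ≤ W.ℓ (ψ (al x)) ∧
      Cells Z R (ψ.comp al).range (ψ.comp be).range (ψ (al x)) (ψ g)
        (ψ (al x * be (x⁻¹ * ph g) * g⁻¹)) c ∧
      ∀ (S : 𝒜) (y : Q) (f f' : GG),
        pd (Z.S S) (pt W (y * ψ (io f))) (pt W (y * ψ (io f'))) ≤ Z.θ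

/-- the geometric input of the second step -/
def GeomII' : Prop := ∀ {Q : Type} [Group Q] {ψ : FF →* Q} {P : Subgroup GG} {W : WNorm Q} {δ : ℝ}
    (_h : Tst ψ P W δ) {x y s : GG} (_hxy : ψ (al (x * y * x⁻¹ * y⁻¹)) ≠ 1) (l₀ : ℝ),
    ∃ (𝒜 : Type) (_ : MulAction Q 𝒜) (Z : Sys Q W 𝒜) (R : Spq Z) (v : GG),
      v ∈ Subgroup.closure ({x, y} : Set GG) ∧ l₀ ≤ Z.θ ∧ 20000 * Z.θ ≤ R.M ∧
      R.N = Subgroup.normalClosure {ψ (al (v * s⁻¹)), ψ (be (v * s⁻¹))} ∧
      (∀ S : 𝒜, (∀ (z : Q), ∀ a ∈ (ψ.comp al).range, ∀ a' ∈ (ψ.comp al).range,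
          pd (Z.S S) (pt W (z * a)) (pt W (z * a')) ≤ Z.θ) ∨
        (∀ (z : Q), ∀ a ∈ (ψ.comp be).range, ∀ a' ∈ (ψ.comp be).range,
          pd (Z.S S) (pt W (z * a)) (pt W (z * a')) ≤ Z.θ)) ∧
      ∀ (S : 𝒜) (z : Q) (f f' : GG),
        pd (Z.S S) (pt W (z * ψ (io f))) (pt W (z * ψ (io f'))) ≤ Z.θ

variable {Q : Type} [Group Q] {ψ : FF →* Q} {P : Subgroup GG} {W : WNorm Q} {δ : ℝ}

/-- commuting modulo `P` -/
lemma Tst.comm_iff (h : Tst ψ P W δ) (b : Bool) (z w : GG) :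
    Commute (ψ (ka b z)) (ψ (ka b w)) ↔ z * w * z⁻¹ * w⁻¹ ∈ P := by
  have hret : ∀ x, ph (ka b x) = x := by
    intro x
    cases b
    · exact ph_be x
    · exact ph_al x
  have hpk : ∀ x ∈ P, ψ (ka b x) = 1 := by
    intro x hx
    cases b
    · exact h.pb x hx
    · exact h.pa x hx
  constructor
  · intro hc
    have h1 : ψ (ka b (z * w * z⁻¹ * w⁻¹)) = 1 := by
      simp only [map_mul, map_inv]
      rw [hc.eq]; group
    have h2 := h.pp _ h1
    rwa [hret] at h2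
  · intro hm
    have h1 := hpk _ hm
    simp only [map_mul, map_inv] at h1
    have h2 : ψ (ka b z) * ψ (ka b w) = ψ (ka b w) * ψ (ka b z) := by
      calc ψ (ka b z) * ψ (ka b w) = (ψ (ka b z) * ψ (ka b w) * (ψ (ka b z))⁻¹ * (ψ (ka b w))⁻¹) *
            (ψ (ka b w) * ψ (ka b z)) := by group
        _ = _ := by rw [h1, one_mul]
    exact h2

lemma Tst.comm_all (h : Tst ψ P W δ) (b b' : Bool) {z w : GG}
    (hc : Commute (ψ (ka b z)) (ψ (ka b w))) : Commute (ψ (ka b' z)) (ψ (ka b' w)) :=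
  (h.comm_iff b' z w).2 ((h.comm_iff b z w).1 hc)


/-- two elements which do not commute generate a subgroup with an element of infinite order -/
theorem Tst.exists_pair (h : Tst ψ P W δ) {x y : GG} (hxy : ψ (al (x * y * x⁻¹ * y⁻¹)) ≠ 1) :
    ∃ u c : GG, Inf P u ∧ (∀ b, ¬ Commute (ψ (ka b c)) (ψ (ka b u))) ∧
      u ∈ Subgroup.closure ({x, y} : Set GG) ∧ c ∈ Subgroup.closure ({x, y} : Set GG) := by
  have h1 : ¬ Commute (ψ (al x)) (ψ (al y)) := by
    intro hc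
    exact hxy (h.pa _ ((h.comm_iff true x y).1 hc))
  obtain ⟨q, hq, hqi⟩ := h.og.exists_inf h.hg h1
  have hq' : q ∈ (Subgroup.closure ({x, y} : Set GG)).map (ψ.comp al) := by
    rw [MonoidHom.map_closure, Set.image_pair]
    exact hq
  obtain ⟨u, hu, rfl⟩ := hq'
  have hu' : ¬ IsOfFinOrder (ψ (al u)) := hqi
  have huP : Inf P u := (h.inf_iff h.facA u).1 hu'
  have hu1 : ψ (al u) ≠ 1 := fun h2 => hu' (h2 ▸ IsOfFinOrder.one)
  by_cases hc : Commute (ψ (al x)) (ψ (al u))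
  · refine ⟨u, y, huP, ?_, hu, Subgroup.subset_closure (by simp)⟩
    intro b hb
    have h2 := h.comm_all b true hb
    exact h1 (h.og.comm_trans h.hg hu1 hc h2)
  · refine ⟨u, x, huP, ?_, hu, Subgroup.subset_closure (by simp)⟩
    intro b hb
    exact hc (h.comm_all b true hb)

theorem geomII : GeomII' := by
  intro Q _ ψ P W δ h x' y' s hxy' l₀
  have hP := h.norm
  obtain ⟨x, y, hx, hyx, hxc, hyc⟩ := h.exists_pair hxy'
  have hcl : Subgroup.closure ({x, y} : Set GG) ≤ Subgroup.closure ({x', y'} : Set GG) := by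
    rw [Subgroup.closure_le]
    rintro z (rfl | rfl)
    · exact hxc
    · exact hyc
  obtain ⟨T, -⟩ := pre_exists h hx
  obtain ⟨v₀, hv₀, he⟩ : ∃ v₀ ∈ Subgroup.closure ({x, y} : Set GG),
      ∀ b, ¬ Commute (ψ (ka b (v₀ * s⁻¹ * y))) (ψ (ka b x)) := by
    by_cases hc : Commute (ψ (ka true (s⁻¹ * y))) (ψ (ka true x))
    · refine ⟨y, Subgroup.subset_closure (by simp), ?_⟩
      intro b hb
      have h1 := h.comm_all b true hb
      apply hyx true
      have h2 : ψ (ka true y) = ψ (ka true (y * s⁻¹ * y)) * (ψ (ka true (s⁻¹ * y)))⁻¹ := by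
        rw [← map_inv, ← map_inv, ← map_mul, ← map_mul]
        congr 2
        group
      rw [h2]
      exact h1.mul_left hc.inv_left
    · refine ⟨1, one_mem _, ?_⟩
      intro b hb
      rw [one_mul] at hb
      exact hc (h.comm_all b true hb)
  obtain ⟨K, hK⟩ : ∃ K : ℝ, K = T.K₀ + W.ℓ (ψ (al y)) + W.ℓ (ψ (al (v₀ * s⁻¹))) := ⟨_, rfl⟩
  have hK1 : 1 ≤ K := by
    have h1 := T.hθ
    have h2 := T.Y.hδ
    have h3 := T.Y.hθ
    have h4 : (0 : ℝ) ≤ W.ℓ (ψ (al y)) := Nat.cast_nonneg _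
    have h5 : (0 : ℝ) ≤ W.ℓ (ψ (al (v₀ * s⁻¹))) := Nat.cast_nonneg _
    linarith
  obtain ⟨p, hp⟩ : ∃ p : ℕ, p = 4 * 10 ^ 6 := ⟨_, rfl⟩
  obtain ⟨l, N, hl, hN⟩ := exps (ψ := ψ) (W := W) (v := x ^ T.a) (K₀ := T.K₀) (fun n => T.grow n)
    hK1 p (max l₀ (2 * T.D₀))
  have hl200 := hN.hl
  obtain ⟨B, e1, e2, e3, e4, e5, -⟩ := blkII h T hyx he (p := p) (by omega) hK.ge hN
  have hDm : B.fam.m = p := e3
  have hDl : B.fam.l = l := e2
  have hDp : (B.fam.m : ℝ) = 4 * 10 ^ 6 := by rw [hDm, hp]; norm_num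
  obtain ⟨Z, R, -, z2, z3, z4, z5, -⟩ := B.fam.sys_exists (by rw [hDm, hp]; norm_num)
  rw [hDl] at z2
  rw [hDl, hDp] at z4
  have hDD : 2 * T.D₀ ≤ B.fam.l := by rw [hDl]; exact (le_max_right _ _).trans hl
  have hr : ∀ k, B.fam.r k = ψ (ka k (Wp (x ^ T.a) y N p * v₀ * s⁻¹)) := by
    intro k
    have h1 : B.fam.r k = B.H k B.m := rfl
    rw [h1, e3, e4, ← mul_assoc]
  have hA : ∀ (k : Bool) (i : ℤ) (γ : Q), ∃ g : Q,
      γ • B.fam.A k i = (⟨k, (g : Q ⧸ T.E k)⟩ : Σ b : Bool, Q ⧸ T.E b) := by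
    intro k i γ
    have h1 : B.fam.A k i = B.L k i := rfl
    rw [h1, Blk.L, e5]
    exact ⟨γ * (B.H k B.m ^ (i / (B.m : ℤ)) * _), rfl⟩
  have hcross : ∀ (k k' : Bool), k ≠ k' → ∀ (γ z : Q), ∀ a ∈ (ψ.comp (ka k')).range,
      ∀ a' ∈ (ψ.comp (ka k')).range,
      pd (Z.S (B.fam.ax k γ)) (pt W (z * a)) (pt W (z * a')) ≤ Z.θ := by
    intro k k' hk γ z a ha a' ha'
    by_contra hcon
    push Not at hcon
    rw [z2, z3, ← hDl] at hcon
    obtain ⟨i, hi⟩ := B.fam.cross_line k γ hcon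
    obtain ⟨g, hg⟩ := hA k i γ
    rw [hg] at hi
    have := T.diff k k' hk g z a ha a' ha'
    linarith
  refine ⟨B.fam.Ax, inferInstance, Z, R, Wp (x ^ T.a) y N p * v₀, ?_, ?_, ?_, ?_, ?_, ?_⟩
  · exact hcl (mul_mem (Wp_mem _ _ _) hv₀)
  · have := (le_max_left l₀ (2 * T.D₀)).trans hl
    rw [z2]; linarith
  · rw [z2, z4]; linarith
  · rw [z5]
    congr 1
    ext q
    constructor
    · rintro ⟨k, rfl⟩
      rw [hr]
      cases k
      · exact Or.inr rfl
      · exact Or.inl rfl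
    · rintro (hq | hq)
      · exact ⟨true, by rw [hr, hq]; rfl⟩
      · exact ⟨false, by rw [hr, hq]; rfl⟩
  · intro S
    obtain ⟨k, γ, rfl⟩ := B.fam.ax_surj S
    cases k
    · left
      exact fun z a ha a' ha' => hcross false true (by decide) γ z a ha a' ha'
    · right
      exact fun z a ha a' ha' => hcross true false (by decide) γ z a ha a' ha'
  · intro S z f f'
    rw [z2, z3, ← hDl]
    exact third_small T B.fam hDD S z f f'

theorem geomI : GeomI' := by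
  intro Q _ ψ P W δ h g _ l₀
  have hP := h.norm
  obtain ⟨u, c, huP, hcu, -, -⟩ := h.exists_pair (x := FreeGroup.of 0) (y := FreeGroup.of 1)
    (fun h1 => h.nc ((h.one_iff h.facA _).1 h1))
  obtain ⟨T, -⟩ := pre_exists h huP
  obtain ⟨K, hK⟩ : ∃ K : ℝ, K = T.K₀ + W.ℓ (ψ (al c)) + W.ℓ (ψ (be (ph g)) * (ψ g)⁻¹) :=
    ⟨_, rfl⟩
  have hK1 : 1 ≤ K := by
    have h1 := T.hθ
    have h2 := T.Y.hδ
    have h3 := T.Y.hθ
    have h4 : (0 : ℝ) ≤ W.ℓ (ψ (al c)) := Nat.cast_nonneg _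
    have h5 : (0 : ℝ) ≤ W.ℓ (ψ (be (ph g)) * (ψ g)⁻¹) := Nat.cast_nonneg _
    linarith
  obtain ⟨p, hp⟩ : ∃ p : ℕ, p = 10 ^ 12 := ⟨_, rfl⟩
  have hpr : (p : ℝ) = 10 ^ 12 := by rw [hp]; norm_num
  obtain ⟨l, N, hl, hN⟩ := exps (ψ := ψ) (W := W) (v := u ^ T.a) (K₀ := T.K₀) (fun n => T.grow n)
    hK1 p (max l₀ (2 * T.D₀))
  have hl200 := hN.hl
  obtain ⟨B, e1, e2, e3, e4, e5, e6, e7⟩ := blkI h g T hcu (p := p) (by omega) hK.ge hN
  obtain ⟨X, hX⟩ : ∃ X, X = Wp (u ^ T.a) c N p := ⟨_, rfl⟩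
  rw [← hX] at e4 e6
  have hDm : B.fam.m = 2 * p := e3
  have hDl : B.fam.l = l := e2
  have hDp : (B.fam.m : ℝ) = 2 * 10 ^ 12 := by rw [hDm, hp]; norm_num
  obtain ⟨Z, R, -, z2, z3, z4, z5, z6⟩ := B.fam.sys_exists (by rw [hDm, hp]; norm_num)
  have hDD : 2 * T.D₀ ≤ B.fam.l := by rw [hDl]; exact (le_max_right _ _).trans hl
  have hr : B.fam.r () = ψ (al X * be (X⁻¹ * ph g) * g⁻¹) := by
    have h1 : B.fam.r () = B.H () B.m := rfl
    rw [h1, e3, e4]
  have hrH : B.H () B.m = B.fam.r () := rfl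
  have hm : (B.m : ℤ) = 2 * p := by rw [e3]; push_cast; ring
  -- the lines
  have hidx : ∀ i : ℤ, ∃ (s : ℤ) (j : ℕ), j < 2 * p ∧ i % (2 * p) = j ∧ i / (2 * p) = s ∧
      ∀ γ : Q, γ • B.fam.A () i = (γ * B.fam.r () ^ s) • B.A () j := by
    intro i
    obtain ⟨s, j, hj, rfl⟩ := B.idx i
    have h0 := B.m_pos
    refine ⟨s, j, by rw [← e3]; exact hj, ?_, ?_, ?_⟩
    · rw [← hm, add_comm, Int.add_mul_emod_self_left, Int.emod_eq_of_lt (by omega) (by omega)]
    · rw [← hm, add_comm, Int.add_mul_ediv_left _ _ h0.ne',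
        Int.ediv_eq_zero_of_lt (by omega) (by omega), zero_add]
    · intro γ
      have h1 : B.fam.A () (B.m * s + j) = B.L () (B.m * s + j) := rfl
      rw [h1, B.L_eq () s hj, hrH, smul_smul]
  have hcells := cells_of B.fam (p := p) (by rw [hp]) hDm h.geoA h.geoB (h := B.h ())
    (fun i => rfl) (w := ψ (al X)) (g₀ := ψ g)
    (by
      intro s
      have := B.h_mul () s
      rw [hm] at this
      exact this)
    (by
      intro s
      have := B.h_eq () s (j := p) (by rw [e3]; omega)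
      rw [hm, e7 p le_rfl, ← hX] at this
      exact this)
    (by
      intro γ i a ha a' ha' hd
      obtain ⟨s, j, hj, h1, h2, h3⟩ := hidx i
      rw [h3] at hd
      rcases Nat.lt_or_ge j p with hjp | hjp
      · refine ⟨by rw [h1]; exact_mod_cast hjp, ?_⟩
        rw [e5 j hjp, smul_line] at hd
        have h4 := T.same true _ 1 a ha a' ha' (by
          rw [one_mul, one_mul]
          refine le_trans ?_ hd
          linarith)
        rw [inv_one, one_mul] at h4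
        rw [h2]
        have h5 : ψ (al (Wp (u ^ T.a) c N j * c)) ∈ (ψ.comp (ka true)).range := ⟨_, rfl⟩
        exact (Subgroup.mul_mem_cancel_right _ h5).1 h4
      · exfalso
        rw [e6 j hjp, smul_line] at hd
        have h4 := T.diff false true (by decide)
          (γ * B.fam.r () ^ s * (ψ (al X) * ψ (be (X⁻¹ * Wp (u ^ T.a) c N (2 * p - j))))) 1
          a ha a' ha'
        rw [one_mul, one_mul] at h4
        linarith)
    (by
      intro γ i y b hb b' hb' hd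
      obtain ⟨s, j, hj, h1, h2, h3⟩ := hidx i
      rw [h3] at hd
      rcases Nat.lt_or_ge j p with hjp | hjp
      · exfalso
        rw [e5 j hjp, smul_line] at hd
        have h4 := T.diff true false (by decide)
          (γ * B.fam.r () ^ s * ψ (al (Wp (u ^ T.a) c N j * c))) y b hb b' hb'
        linarith
      · refine ⟨by rw [h1]; exact_mod_cast hjp, ?_⟩
        rw [e6 j hjp, smul_line] at hd
        have h4 := T.same false _ y b hb b' hb' (by
          refine le_trans ?_ hd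
          linarith)
        rw [h2]
        have h5 : ψ (be (X⁻¹ * Wp (u ^ T.a) c N (2 * p - j))) ∈ (ψ.comp (ka false)).range :=
          ⟨_, rfl⟩
        apply (Subgroup.mul_mem_cancel_right _ h5).1
        have h6 : y⁻¹ * (γ * B.fam.r () ^ s * ψ (al X)) *
            ψ (be (X⁻¹ * Wp (u ^ T.a) c N (2 * p - j))) = y⁻¹ * (γ * B.fam.r () ^ s *
            (ψ (al X) * ψ (be (X⁻¹ * Wp (u ^ T.a) c N (2 * p - j))))) := by
          group
        rw [h6]
        exact h4)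
    (by
      refine ⟨X⁻¹ * ph g, ?_⟩
      rw [hr]
      change ψ (be (X⁻¹ * ph g)) = _
      rw [map_mul ψ, map_mul ψ (al X), map_inv ψ]
      group) R z2 z3 z6
  rw [hDl] at z2 hcells
  rw [hDl, hDp] at z4
  rw [hr] at hcells
  refine ⟨B.fam.Ax, inferInstance, Z, R, X, 10 ^ 9 * l, ?_, ?_, ?_, ?_, ?_, hcells, ?_⟩
  · have := (le_max_left l₀ (2 * T.D₀)).trans hl
    rw [z2]; linarith
  · rw [z2, z4]; linarith
  · rw [z5]
    congr 1
    ext q
    constructor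
    · rintro ⟨k, rfl⟩
      exact hr
    · intro hq
      exact ⟨(), hr.trans hq.symm⟩
  · rw [z2]; linarith
  · have h1 := (B.fam.br ()).growth 0 p
    have h2 : B.fam.P () 0 = pt W 1 := by
      have h3 := B.h_mul () 0
      rw [mul_zero, zpow_zero] at h3
      change pt W (B.h () 0) = _
      rw [h3]
    have h4 : B.fam.P () (0 + p) = pt W (ψ (al X)) := by
      have h3 := B.h_eq () 0 (j := p) (by rw [e3]; omega)
      rw [mul_zero, zpow_zero, one_mul, e7 p le_rfl, ← hX] at h3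
      change pt W (B.h () (0 + p)) = _
      rw [h3]
    rw [h2, h4, dist_def, out_pt, out_pt, inv_one, one_mul, hpr] at h1
    have h5 : B.fam.K = K := e1
    rw [h5, hDl] at h1
    linarith
  · intro S z f f'
    rw [z2, z3, ← hDl]
    exact third_small T B.fam hDD S z f f'

end Pool.Agent.Y44.FG
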