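import Pool.Agent.Y44.FG.Lines
import Pool.Agent.TH63.SC.Geom

set_option autoImplicit false
set_option linter.unusedSectionVars false

/-! The lines used in the relators (adaptation of TH63.SC.Pre). -/

namespace Pool.Agent.Y44.FG

open Pool.Agent.TH68 Pool.Agent.Helper97.Hyp Pool.Agent.TH82.FG Pool.Agent.TH63.SC

variable {Q : Type} [Group Q] {ψ : FF →* Q} {P : Subgroup GG} {W : WNorm Q} {δ : ℝ}

lemma Tst.inf_ka (h : Tst ψ P W δ) {u : GG} (hu : Inf P u) (b : Bool) :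
    ¬ IsOfFinOrder (ψ (ka b u)) := by
  cases b
  · exact (h.inf_iff h.facB u).2 hu
  · exact (h.inf_iff h.facA u).2 hu

lemma Tst.ne_one (h : Tst ψ P W δ) {u : GG} (hu : Inf P u) (b : Bool) : ψ (ka b u) ≠ 1 := by
  intro h1
  exact h.inf_ka hu b (h1 ▸ IsOfFinOrder.one)

lemma Tst.zpow_ne (h : Tst ψ P W δ) {u : GG} (hu : Inf P u) (b : Bool) {t : ℤ} (ht : t ≠ 0) :
    ψ (ka b u) ^ t ≠ 1 := inf_zpow_ne (h.inf_ka hu b) ht

lemma inf_zpow' {G : Type*} [Group G] {g : G} (hg : ¬ IsOfFinOrder g) {n : ℤ} (hn : n ≠ 0) :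
    ¬ IsOfFinOrder (g ^ n) := inf_zpow hg hn

lemma Tst.geo (h : Tst ψ P W δ) (b : Bool) : Geo W (ψ.comp (ka b)).range := by
  cases b
  · exact h.geoB
  · exact h.geoA

theorem pre_exists (h : Tst ψ P W δ) {u : GG} (hu : Inf P u) : ∃ T : Pre ψ W u, T.Y.δ = δ := by
  have hne : ∀ (g : Q) (i j : ℤ), i ≠ 0 →
      g * ψ (ka true u) ^ i * g⁻¹ ≠ ψ (ka false u) ^ j := by
    intro g i j hi h1
    have h2 := h.ss g⁻¹ (u ^ i) (u ^ j) (by
      rw [map_zpow, map_zpow, map_zpow, map_zpow]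
      change g⁻¹ * ψ (ka false u) ^ j * g⁻¹⁻¹ = ψ (ka true u) ^ i
      rw [← h1]; group)
    have h3 := h.pa _ h2
    rw [map_zpow, map_zpow] at h3
    exact h.zpow_ne hu true hi h3
  obtain ⟨E, a, o, Y, ha, hδ, hE, hS, htriv, hL⟩ := lines_exist h.hδ h.hyp h.og
    (fun b => ψ (ka b u)) (fun b => h.inf_ka hu b) hne
  have hpow : ∀ b (t : ℤ), (ψ (ka b u) ^ a) ^ t = ψ (ka b (u ^ ((a : ℤ) * t))) := by
    intro b t
    rw [map_zpow, map_zpow, zpow_mul, zpow_natCast]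
  have hEc : ∀ b, ∀ e ∈ E b, Commute e (ψ (ka b u) ^ a) := fun b e he =>
    ((hE b e).1 he).pow_right a
  have hC : ∀ C : Subgroup Q, Geo W C → ∃ D : ℝ, ∀ b (γ y : Q), ∀ c ∈ C, ∀ c' ∈ C,
      D ≤ pd (Y.S ⟨b, (γ : Q ⧸ E b)⟩) (pt W (y * c)) (pt W (y * c')) →
        ∃ t : ℤ, t ≠ 0 ∧ (y⁻¹ * γ) * ψ (ka b (u ^ ((a : ℤ) * t))) * (y⁻¹ * γ)⁻¹ ∈ C := by
    intro C hC
    obtain ⟨D, hD⟩ := coset_cross (hL true) (hEc true) hC
    obtain ⟨D', hD'⟩ := coset_cross (hL false) (hEc false) hC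
    refine ⟨max D D', ?_⟩
    intro b γ y c hc c' hc' hd
    rw [hS] at hd
    cases b
    · obtain ⟨t, ht, h1⟩ := hD' γ y c hc c' hc' ((le_max_right _ _).trans hd)
      rw [hpow] at h1
      exact ⟨t, ht, h1⟩
    · obtain ⟨t, ht, h1⟩ := hD γ y c hc c' hc' ((le_max_left _ _).trans hd)
      rw [hpow] at h1
      exact ⟨t, ht, h1⟩
  obtain ⟨D₁, hD₁⟩ := hC _ (h.geo true)
  obtain ⟨D₂, hD₂⟩ := hC _ (h.geo false)
  obtain ⟨D₃, hD₃⟩ := hC _ h.geoF
  have hD : ∀ b', ∀ b (γ y : Q), ∀ c ∈ (ψ.comp (ka b')).range, ∀ c' ∈ (ψ.comp (ka b')).range,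
      max (max D₁ D₂) D₃ ≤ pd (Y.S ⟨b, (γ : Q ⧸ E b)⟩) (pt W (y * c)) (pt W (y * c')) →
        ∃ t : ℤ, t ≠ 0 ∧
          (y⁻¹ * γ) * ψ (ka b (u ^ ((a : ℤ) * t))) * (y⁻¹ * γ)⁻¹ ∈ (ψ.comp (ka b')).range := by
    intro b' b γ y c hc c' hc' hd
    cases b'
    · exact hD₂ b γ y c hc c' hc' (((le_max_right _ _).trans (le_max_left _ _)).trans hd)
    · exact hD₁ b γ y c hc c' hc' (((le_max_left _ _).trans (le_max_left _ _)).trans hd)
  have hat : ∀ {t : ℤ}, t ≠ 0 → (a : ℤ) * t ≠ 0 := fun ht => mul_ne_zero (by omega) ht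
  have hone : ∀ b (t : ℤ), t ≠ 0 → ψ (ka b (u ^ ((a : ℤ) * t))) ≠ 1 := by
    intro b t ht h1
    rw [map_zpow, map_zpow] at h1
    exact h.zpow_ne hu b (hat ht) h1
  obtain ⟨K, hK⟩ : ∃ K : ℝ, K = Y.θ + 2 * dist (o true) (pt W 1) + 2 * dist (o false) (pt W 1) :=
    ⟨_, rfl⟩
  have hθ0 : 0 ≤ Y.θ := by have := Y.hδ; have := Y.hθ; linarith
  have hd1 := dist_nonneg (x := o true) (y := pt W 1)
  have hd2 := dist_nonneg (x := o false) (y := pt W 1)
  have ho : ∀ b, 2 * dist (o b) (pt W 1) ≤ K := by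
    intro b
    cases b <;> linarith
  refine ⟨⟨E, a, Y, K, max (max D₁ D₂) D₃, hE, by linarith, ?_, htriv, ?_, ?_, ?_, ?_⟩, hδ⟩
  · intro b γ n
    have he : ψ (ka b (u ^ a)) ^ n = (ψ (ka b u) ^ a) ^ n := by rw [map_pow, map_pow]
    refine ⟨(γ * ψ (ka b (u ^ a)) ^ n) • o b, ?_, ?_⟩
    · rw [hS]
      refine ⟨_, ?_, rfl⟩
      rw [he, hE]
      exact ((Commute.refl _).pow_left a).zpow_left n
    · rw [← smul_base W (γ * ψ (ka b (u ^ a)) ^ n), dist_smul]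
      have := ho b
      have := dist_nonneg (x := o b) (y := pt W 1)
      linarith
  · intro n
    have h1 := (hL true).tl_ge n
    have h2 : tl (o true) (ψ (ka true u) ^ a) n = dist (o true) (((ψ (ka true u) ^ a) ^ n) • o true) :=
      rfl
    have h3 := dist_triangle4 (o true) (pt W 1) (((ψ (ka true u) ^ a) ^ n) • pt W 1)
      (((ψ (ka true u) ^ a) ^ n) • o true)
    have h5 : dist (pt W 1) (((ψ (ka true u) ^ a) ^ n) • pt W 1) =
        W.ℓ ((ψ (ka true u) ^ a) ^ n) := by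
      rw [smul_base, dist_def, out_pt, out_pt, inv_one, one_mul]
    rw [dist_smul, dist_comm (pt W 1) (o true), h5] at h3
    have h4 : ψ (al ((u ^ a) ^ n)) = (ψ (ka true u) ^ a) ^ n := by
      rw [map_pow, map_pow, map_pow, map_pow]; rfl
    rw [h4]
    have := ho true
    linarith
  · intro b γ y x hx x' hx' hd
    obtain ⟨t, ht, h1⟩ := hD b b γ y x hx x' hx' hd
    have hinf : ¬ IsOfFinOrder (ψ (ka b (u ^ ((a : ℤ) * t)))) := by
      rw [map_zpow, map_zpow]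
      exact inf_zpow' (h.inf_ka hu b) (hat ht)
    cases b
    · exact h.malB ⟨_, rfl⟩ hinf h1
    · exact h.malA ⟨_, rfl⟩ hinf h1
  · intro b b' hb γ y x hx x' hx'
    by_contra hcon
    push Not at hcon
    obtain ⟨t, ht, v, h1⟩ := hD b' b γ y x hx x' hx' hcon
    obtain ⟨z, hz⟩ : ∃ z, z = y⁻¹ * γ := ⟨_, rfl⟩
    rw [← hz] at h1
    cases b
    · have : b' = true := by
        cases b' with
        | true => rfl
        | false => exact absurd rfl hb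
      subst this
      have h2 := h.ss z v (u ^ ((a : ℤ) * t)) h1.symm
      have h3 := h.pa _ h2
      have h4 : z * ψ (ka false (u ^ ((a : ℤ) * t))) * z⁻¹ = 1 := h1.symm.trans h3
      rw [conj_eq_one_iff] at h4
      exact hone false t ht h4
    · have : b' = false := by
        cases b' with
        | false => rfl
        | true => exact absurd rfl hb
      subst this
      have h2 := h.ss z⁻¹ (u ^ ((a : ℤ) * t)) v (by
        have h5 : ψ (be v) = z * ψ (ka true (u ^ ((a : ℤ) * t))) * z⁻¹ := h1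
        rw [h5, inv_inv]
        change z⁻¹ * (z * ψ (ka true (u ^ ((a : ℤ) * t))) * z⁻¹) * z =
          ψ (ka true (u ^ ((a : ℤ) * t)))
        group)
      exact hone true t ht (h.pa _ h2)
  · intro b γ y x hx x' hx'
    by_contra hcon
    push Not at hcon
    obtain ⟨t, ht, h1⟩ := hD₃ b γ y x hx x' hx' ((le_max_right _ _).trans hcon)
    rw [map_zpow, map_zpow] at h1
    cases b
    · exact h.noFB hu _ (hat ht) h1
    · exact h.noFA hu _ (hat ht) h1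

end Pool.Agent.Y44.FG
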