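import Pool.Agent.Y44.FG.Rw
import Pool.Agent.Y44.FG.Pre

set_option autoImplicit false
set_option linter.unusedSectionVars false

/-! Quotients by large prime powers of two roots (helper44). -/

namespace Pool.Agent.Y44.FG

open Pool.Agent.TH68 Pool.Agent.Helper97.Hyp Pool.Agent.TH82.FG

/-- small multiples modulo `m` -/
lemma dirichlet {m : ℕ} (hm : 0 < m) (k : ℤ) : ∃ e f : ℤ, e ≠ 0 ∧ e.natAbs * e.natAbs ≤ m ∧
    f.natAbs * f.natAbs ≤ m ∧ (m : ℤ) ∣ k * e - f := by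
  obtain ⟨n, hn⟩ : ∃ n, n = Nat.sqrt m := ⟨_, rfl⟩
  have n_pos : 0 < n := by rw [hn]; exact Nat.sqrt_pos.2 hm
  have h1 : n * n ≤ m := by rw [hn]; exact Nat.sqrt_le m
  have h2 : m < (n + 1) * (n + 1) := by rw [hn]; exact Nat.lt_succ_sqrt m
  obtain ⟨j, e, he, hen, h⟩ := Real.exists_int_int_abs_mul_sub_le ((k : ℝ) / m) n_pos
  have hm' : (0 : ℝ) < m := by exact_mod_cast hm
  have hn' : (0 : ℝ) < (n : ℝ) + 1 := by positivity
  refine ⟨e, k * e - j * m, by omega, ?_, ?_, ⟨j, by ring⟩⟩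
  · have : e.natAbs ≤ n := by omega
    exact (Nat.mul_le_mul this this).trans h1
  · have h3 : ((k * e - j * m : ℤ) : ℝ) = m * (e * ((k : ℝ) / m) - j) := by
      push_cast
      field_simp
    have h4 : |((k * e - j * m : ℤ) : ℝ)| < n + 1 := by
      rw [h3, abs_mul, abs_of_pos hm']
      calc (m : ℝ) * |(e : ℝ) * ((k : ℝ) / m) - j| ≤ m * (1 / (n + 1)) :=
            mul_le_mul_of_nonneg_left h hm'.le
        _ < n + 1 := by
            rw [mul_one_div, div_lt_iff₀ hn']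
            have : (m : ℝ) < ((n + 1) * (n + 1) : ℕ) := by exact_mod_cast h2
            push_cast at this
            exact this
    have h5 : (k * e - j * m).natAbs ≤ n := by
      have h6 : |(k * e - j * m : ℤ)| < (n : ℤ) + 1 := by exact_mod_cast h4
      rw [abs_lt] at h6
      omega
    exact (Nat.mul_le_mul h5 h5).trans h1

/-- killing large prime powers of roots -/
structure Kill {Γ : Type} [Group Γ] (u : Bool → Γ) (m : ℕ) (N : Subgroup Γ) (Sm : Γ → Prop) :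
    Prop where
  prime : m.Prime
  odd : m ≠ 2
  normal : N.Normal
  mem : ∀ b, u b ^ m ∈ N
  t1 : ∀ (v : Γ) (k : ℕ), 0 < k → v ^ k ∈ N →
    ∃ n ∈ N, IsOfFinOrder (n * v) ∨ ∃ (b : Bool) (γ : Γ) (t : ℤ), n * v = γ * u b ^ t * γ⁻¹
  cl : ∀ y v z : Γ, Sm y → Sm v → z * v * z⁻¹ * y⁻¹ ∈ N → ∃ n ∈ N, n * z * v * (n * z)⁻¹ = y
  sm : ∀ b (t : ℤ), t.natAbs * t.natAbs ≤ m → Sm (u b ^ t)
  fn : ∀ v, IsOfFinOrder v → Sm v
  inf : ∀ b, ¬ IsOfFinOrder (u b)
  rig : ∀ b (z : Γ) (e f : ℤ), e ≠ 0 → z * u b ^ e * z⁻¹ = u b ^ f → z ∈ Subgroup.zpowers (u b)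

namespace Kill

variable {Γ : Type} [Group Γ] {u : Bool → Γ} {m : ℕ} {N : Subgroup Γ} {Sm : Γ → Prop}

lemma zmem (K : Kill u m N Sm) (b : Bool) {t : ℤ} (ht : (m : ℤ) ∣ t) : u b ^ t ∈ N := by
  obtain ⟨s, rfl⟩ := ht
  rw [zpow_mul, zpow_natCast]
  exact N.zpow_mem (K.mem b) s

lemma conj_mem (K : Kill u m N Sm) (b : Bool) (γ : Γ) {t : ℤ} (ht : (m : ℤ) ∣ t) :
    γ * u b ^ t * γ⁻¹ ∈ N := K.normal.conj_mem _ (K.zmem b ht) γ

/-- inverses modulo `m` -/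
lemma inv_mod (K : Kill u m N Sm) {t : ℤ} (ht : ¬ (m : ℤ) ∣ t) :
    ∃ s : ℤ, (m : ℤ) ∣ t * s - 1 := by
  obtain ⟨a, c, h⟩ : IsCoprime t (m : ℤ) := by
    apply IsCoprime.symm
    rw [(Nat.prime_iff_prime_int.mp K.prime).coprime_iff_not_dvd]
    exact ht
  exact ⟨a, -c, by linarith⟩

/-- congruent exponents -/
lemma zpow_congr (K : Kill u m N Sm) (b : Bool) {s t : ℤ} (h : (m : ℤ) ∣ s - t) :
    haveI := K.normal
    (u b : Γ ⧸ N) ^ s = (u b : Γ ⧸ N) ^ t := by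
  have := K.normal
  have h1 := K.zmem b h
  rw [← QuotientGroup.eq_one_iff, QuotientGroup.mk_zpow, zpow_sub, mul_inv_eq_one] at h1
  exact h1

lemma lift (K : Kill u m N Sm) :
    haveI := K.normal
    ∀ x : Γ ⧸ N, IsOfFinOrder x → ∃ v : Γ, (v : Γ ⧸ N) = x ∧
      (IsOfFinOrder v ∨ ∃ (b : Bool) (γ : Γ) (t : ℤ), v = γ * u b ^ t * γ⁻¹) := by
  have := K.normal
  intro x hx
  obtain ⟨v, rfl⟩ := QuotientGroup.mk_surjective x
  obtain ⟨k, hk, hk1⟩ := hx.exists_pow_eq_one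
  rw [← QuotientGroup.mk_pow, QuotientGroup.eq_one_iff] at hk1
  obtain ⟨n, hn, h1⟩ := K.t1 v k hk hk1
  exact ⟨n * v, mk_lift hn, h1⟩

/-- conjugate powers of roots -/
lemma conj_small (K : Kill u m N Sm) (b c : Bool) {z : Γ} {k : ℤ} 
    (h : haveI := K.normal; (z : Γ ⧸ N) * (u b : Γ ⧸ N) * (z : Γ ⧸ N)⁻¹ = (u c : Γ ⧸ N) ^ k) :
    ∃ n ∈ N, ∃ e f : ℤ, e ≠ 0 ∧ n * z * u b ^ e * (n * z)⁻¹ = u c ^ f := by
  have := K.normal
  obtain ⟨e, f, he, he2, hf2, hd⟩ := dirichlet K.prime.pos k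
  have h1 : z * u b ^ e * z⁻¹ * (u c ^ f)⁻¹ ∈ N := by
    rw [← QuotientGroup.eq_one_iff]
    simp only [QuotientGroup.mk_mul, QuotientGroup.mk_inv, QuotientGroup.mk_zpow]
    rw [← conj_zpow, h, ← zpow_mul, K.zpow_congr c hd, mul_inv_cancel]
  obtain ⟨n, hn, h2⟩ := K.cl _ _ z (K.sm c f hf2) (K.sm b e he2) h1
  exact ⟨n, hn, e, f, he, h2⟩

/-- the quotient is in the class -/
theorem og (K : Kill u m N Sm) (h : OG Γ) : haveI := K.normal; OG (Γ ⧸ N) := by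
  have := K.normal
  have hroot : ∀ (b : Bool) (γ : Γ) (t : ℤ), ((γ * u b ^ t * γ⁻¹ : Γ) : Γ ⧸ N) ^ m = 1 := by
    intro b γ t
    rw [← QuotientGroup.mk_pow, QuotientGroup.eq_one_iff, conj_pow, ← zpow_natCast, ← zpow_mul]
    exact K.conj_mem b γ ⟨t, by ring⟩
  constructor
  · intro x hx
    obtain ⟨v, rfl, hv | ⟨b, γ, t, rfl⟩⟩ := K.lift x hx
    · by_cases hvN : v ∈ N
      · exact Or.inl ((QuotientGroup.eq_one_iff v).2 hvN)
      · rcases h.ord v hv with h1 | h1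
        · exact absurd (h1 ▸ N.one_mem) hvN
        · right
          rw [ord_mk h1 hvN]
          exact h1
    · rcases (Nat.dvd_prime K.prime).mp (orderOf_dvd_of_pow_eq_one (hroot b γ t)) with h1 | h1
      · exact Or.inl (orderOf_eq_one_iff.1 h1)
      · right; rw [h1]; exact K.prime
  · intro x hx y k hxy
    have hx1 : x ≠ 1 := by
      rintro rfl
      rw [orderOf_one] at hx
      exact Nat.not_prime_one hx
    obtain ⟨z, rfl⟩ := QuotientGroup.mk_surjective y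
    obtain ⟨v, rfl, hv | ⟨b, γ, t, rfl⟩⟩ := K.lift x (OG.fin_of_prime hx)
    · have h1 : z * v * z⁻¹ * (v ^ k)⁻¹ ∈ N := by
        rw [← QuotientGroup.eq_one_iff]
        simp only [QuotientGroup.mk_mul, QuotientGroup.mk_inv, QuotientGroup.mk_zpow]
        rw [hxy, mul_inv_cancel]
      obtain ⟨n, hn, h2⟩ := K.cl _ _ z (K.fn _ hv.zpow) (K.fn _ hv) h1
      have hvp : (orderOf v).Prime := by
        rcases h.ord v hv with h3 | h3
        · exact absurd (by rw [h3]; rfl) hx1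
        · exact h3
      obtain ⟨j, hj⟩ := h.nrm v hvp _ k h2
      refine ⟨j, ?_⟩
      have hj' : v ^ j = n * z := hj
      change (v : Γ ⧸ N) ^ j = z
      rw [← QuotientGroup.mk_zpow, hj', mk_lift hn]
    · have ht : ¬ (m : ℤ) ∣ t := by
        intro hd
        apply hx1
        rw [QuotientGroup.eq_one_iff]
        exact K.conj_mem b γ hd
      obtain ⟨s, hs⟩ := K.inv_mod ht
      obtain ⟨w, hw⟩ : ∃ w, w = (u b : Γ ⧸ N) := ⟨_, rfl⟩
      obtain ⟨g, hg⟩ : ∃ g, g = (γ : Γ ⧸ N) := ⟨_, rfl⟩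
      have hxe : ((γ * u b ^ t * γ⁻¹ : Γ) : Γ ⧸ N) = g * w ^ t * g⁻¹ := by
        simp only [QuotientGroup.mk_mul, QuotientGroup.mk_inv, QuotientGroup.mk_zpow]
        rw [hw, hg]
      rw [hxe] at hxy ⊢
      have hws : (w ^ t) ^ s = w := by
        rw [← zpow_mul, hw, K.zpow_congr b hs, zpow_one]
      have h1 : (g⁻¹ * z * g) * w ^ t * (g⁻¹ * z * g)⁻¹ = (w ^ t) ^ k := by
        rw [conj_zpow] at hxy
        have e : (g⁻¹ * z * g) * w ^ t * (g⁻¹ * z * g)⁻¹ =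
          g⁻¹ * (z * (g * w ^ t * g⁻¹) * (z : Γ ⧸ N)⁻¹) * g := by group
        rw [e, hxy]; group
      have h2 : (g⁻¹ * z * g) * w * (g⁻¹ * z * g)⁻¹ = w ^ k := by
        have h3 : (g⁻¹ * z * g) * (w ^ t) ^ s * (g⁻¹ * z * g)⁻¹ = ((w ^ t) ^ s) ^ k := by
          rw [← conj_zpow, h1, ← zpow_mul (w ^ t) k s, mul_comm k s, zpow_mul (w ^ t) s k]
        rwa [hws] at h3
      have h4 : ((γ⁻¹ * z * γ : Γ) : Γ ⧸ N) = g⁻¹ * z * g := by
        simp only [QuotientGroup.mk_mul, QuotientGroup.mk_inv]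
        rw [hg]
      obtain ⟨n, hn, e, f, he, h5⟩ := K.conj_small b b (z := γ⁻¹ * z * γ) (k := k) (by
        rw [h4, ← hw]; exact h2)
      obtain ⟨j, hj⟩ := K.rig b _ e f he h5
      have hj' : u b ^ j = n * (γ⁻¹ * z * γ) := hj
      have h6 : g⁻¹ * z * g = w ^ j := by
        rw [← h4, hw, ← QuotientGroup.mk_zpow, hj', mk_lift hn]
      refine ⟨s * j, ?_⟩
      change (g * w ^ t * g⁻¹) ^ (s * j) = z
      rw [zpow_mul, conj_zpow, hws, conj_zpow, ← h6]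
      group
  · intro x hx
    have hx1 : x ≠ 1 := by
      rintro rfl
      rw [orderOf_one] at hx
      norm_num at hx
    have hxf : IsOfFinOrder x := by
      rw [← orderOf_pos_iff, hx]; norm_num
    obtain ⟨v, rfl, hv | ⟨b, γ, t, rfl⟩⟩ := K.lift x hxf
    · rcases h.ord v hv with h1 | h1
      · exact absurd (by rw [h1]; rfl) hx1
      · have h2 : v ∉ N := fun h3 => hx1 ((QuotientGroup.eq_one_iff v).2 h3)
        rw [ord_mk h1 h2] at hx
        exact h.no2 v hx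
    · rcases (Nat.dvd_prime K.prime).mp (orderOf_dvd_of_pow_eq_one (hroot b γ t)) with h1 | h1
      · exact hx1 (orderOf_eq_one_iff.1 h1)
      · rw [hx] at h1
        exact K.odd h1.symm

end Kill

section st

variable {Q : Type} [Group Q] {ψ : FF →* Q} {P : Subgroup GG} {W : WNorm Q} {δ : ℝ}

open AlJob

/-- lifts of elements of the factors -/
lemma Tst.ph_lift (h : Tst ψ P W δ) {κ : GG →* FF} (hκ : Fac ψ P κ) {x : GG} {n : Q}
    {N : Subgroup Q} (hn : n ∈ N) {P' : Subgroup GG}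
    (h2 : ∀ w, ψ w ∈ N → ph w ∈ P') {w : FF} (hw : ψ w = n * ψ (κ x)) : ph w * x⁻¹ ∈ P' := by
  have h3 : ψ (w * (κ x)⁻¹) ∈ N := by
    rw [map_mul, map_inv, hw, mul_inv_cancel_right]
    exact hn
  have h4 := h2 _ h3
  rwa [map_mul, map_inv, hκ.ret] at h4

/-- torsion elements of the factors -/
lemma Tst.tor_lift (h : Tst ψ P W δ) {x₀ : GG} {m : ℕ} {N : Subgroup Q} {Sm : Q → Prop}
    (K : Kill (fun b => ψ (ka b x₀)) m N Sm) {P' : Subgroup GG}
    (h2 : ∀ w, ψ w ∈ N → ph w ∈ P') {κ : GG →* FF} (hκ : Fac ψ P κ) {x : GG} {k : ℕ} (hk : 0 < k)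
    (hx : ψ (κ x) ^ k ∈ N) :
    ∃ x' : GG, x' * x⁻¹ ∈ P' ∧ (IsOfFinOrder (ψ (κ x')) ∨ ∃ (g : GG) (t : ℤ),
      x' = g * x₀ ^ t * g⁻¹) := by
  obtain ⟨n, hn, h1 | ⟨b, γ, t, h1⟩⟩ := K.t1 _ k hk hx
  · obtain ⟨x', h3, h4⟩ := h.fin_lift hκ hn h1 h2
    exact ⟨x', h4, Or.inl h3⟩
  · obtain ⟨g, rfl⟩ := h.surj γ
    have h3 : ψ (g * ka b x₀ ^ t * g⁻¹) = n * ψ (κ x) := by
      rw [map_mul, map_mul, map_inv, map_zpow, h1]
    refine ⟨_, h.ph_lift hκ hn h2 h3, Or.inr ⟨ph g, t, ?_⟩⟩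
    rw [map_mul, map_mul, map_inv, map_zpow]
    cases b
    · rw [show ka false = be from rfl, ph_be]
    · rw [show ka true = al from rfl, ph_al]

/-- separation of elements of finite order -/
theorem sst_k (h : Tst ψ P W δ) {x₀ : GG} (hx₀ : Inf P x₀) {m : ℕ} {N : Subgroup Q}
    {Sm : Q → Prop} (K : Kill (fun b => ψ (ka b x₀)) m N Sm) {P' : Subgroup GG}
    (h1 : ∀ x ∈ P', ψ (al x) ∈ N ∧ ψ (be x) ∈ N) (h2 : ∀ w, ψ w ∈ N → ph w ∈ P')
    (hi : SSi N (ψ.comp al).range (ψ.comp be).range) :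
    SSm N (ψ.comp al).range (ψ.comp be).range := by
  have := K.normal
  rintro _ ⟨x, rfl⟩ _ ⟨y, rfl⟩ g hg
  obtain ⟨k, hk, hk1⟩ := hi _ ⟨x, rfl⟩ _ ⟨y, rfl⟩ g hg
  rw [MonoidHom.comp_apply] at hg hk1 ⊢
  rw [MonoidHom.comp_apply] at hg
  by_contra hxN
  have q1 : ((ψ (al x) : Q) : Q ⧸ N) = (g : Q ⧸ N) * (ψ (be y) : Q) * (g : Q ⧸ N)⁻¹ := by
    rw [← QuotientGroup.mk_mul, ← QuotientGroup.mk_inv, ← QuotientGroup.mk_mul]
    exact QuotientGroup.eq.2 hg
  have hyN : ψ (be y) ∉ N := by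
    intro h3
    apply hxN
    rw [← QuotientGroup.eq_one_iff] at h3 ⊢
    rw [q1, h3, mul_one, mul_inv_cancel]
  have hk2 : ψ (be y) ^ k ∈ N := by
    rw [← QuotientGroup.eq_one_iff, QuotientGroup.mk_pow] at hk1 ⊢
    rw [q1, conj_pow, conj_eq_one_iff] at hk1
    exact hk1
  obtain ⟨x', hxx, hx'⟩ := h.tor_lift K h2 h.facA hk hk1
  obtain ⟨y', hyy, hy'⟩ := h.tor_lift K h2 h.facB hk hk2
  have q2 : ((ψ (al x') : Q) : Q ⧸ N) = (ψ (al x) : Q) := by
    have := (h1 _ hxx).1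
    rw [map_mul, map_inv, map_mul, map_inv, ← QuotientGroup.eq_one_iff, QuotientGroup.mk_mul,
      QuotientGroup.mk_inv, mul_inv_eq_one] at this
    exact this
  have q3 : ((ψ (be y') : Q) : Q ⧸ N) = (ψ (be y) : Q) := by
    have := (h1 _ hyy).2
    rw [map_mul, map_inv, map_mul, map_inv, ← QuotientGroup.eq_one_iff, QuotientGroup.mk_mul,
      QuotientGroup.mk_inv, mul_inv_eq_one] at this
    exact this
  have hxN' : ψ (al x') ∉ N := by
    rw [← QuotientGroup.eq_one_iff] at hxN ⊢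
    rw [q2]; exact hxN
  have hyN' : ψ (be y') ∉ N := by
    rw [← QuotientGroup.eq_one_iff] at hyN ⊢
    rw [q3]; exact hyN
  have q4 : ((ψ (al x') : Q) : Q ⧸ N) = (g : Q ⧸ N) * (ψ (be y') : Q) * (g : Q ⧸ N)⁻¹ := by
    rw [q2, q3, q1]
  have hut : ∀ t : ℤ, ψ (al (x₀ ^ t)) = ψ (al x₀) ^ t := fun t => by rw [map_zpow, map_zpow]
  have huf : ∀ t : ℤ, ψ (be (x₀ ^ t)) = ψ (be x₀) ^ t := fun t => by rw [map_zpow, map_zpow]
  have hta : ∀ (p : GG) (t : ℤ), ψ (al (p * x₀ ^ t * p⁻¹)) =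
      ψ (al p) * ψ (al x₀) ^ t * (ψ (al p))⁻¹ := fun p t => by
    rw [map_mul, map_mul, map_mul, map_mul, hut, map_inv, map_inv]
  have htb : ∀ (p : GG) (t : ℤ), ψ (be (p * x₀ ^ t * p⁻¹)) =
      ψ (be p) * ψ (be x₀) ^ t * (ψ (be p))⁻¹ := fun p t => by
    rw [map_mul, map_mul, map_mul, map_mul, huf, map_inv, map_inv]
  have cong : ∀ (b : Bool) {s t : ℤ}, (m : ℤ) ∣ s - t →
      ((ψ (ka b x₀) : Q) : Q ⧸ N) ^ s = ((ψ (ka b x₀) : Q) : Q ⧸ N) ^ t :=
    fun b {s t} hd => K.zpow_congr b hd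
  rcases hx' with hx' | ⟨p, s, rfl⟩
  · rcases hy' with hy' | ⟨p', t, rfl⟩
    · -- both of finite order
      have h3 : g * ψ (be y') * g⁻¹ * (ψ (al x'))⁻¹ ∈ N := by
        rw [← QuotientGroup.eq_one_iff]
        simp only [QuotientGroup.mk_mul, QuotientGroup.mk_inv]
        rw [q4, mul_inv_cancel]
      obtain ⟨n₀, hn₀, h4⟩ := K.cl _ _ g (K.fn _ hx') (K.fn _ hy') h3
      have h5 := h.ss _ _ _ h4
      apply hxN
      rw [← QuotientGroup.eq_one_iff, ← q2, h.pa _ h5]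
      rfl
    · -- a root in the second factor
      have ht : ¬ (m : ℤ) ∣ t := by
        intro hd
        apply hyN'
        rw [htb]
        exact K.conj_mem false _ hd
      obtain ⟨s, hs⟩ := K.inv_mod ht
      have h3 : (g * ψ (be p')) * ψ (be x₀) * (g * ψ (be p'))⁻¹ * (ψ (al x') ^ s)⁻¹ ∈ N := by
        rw [← QuotientGroup.eq_one_iff]
        simp only [QuotientGroup.mk_mul, QuotientGroup.mk_inv, QuotientGroup.mk_zpow]
        rw [q4, htb]
        simp only [QuotientGroup.mk_mul, QuotientGroup.mk_inv, QuotientGroup.mk_zpow]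
        have e1 : ((ψ (be x₀) : Q) : Q ⧸ N) = (((ψ (be x₀) : Q) : Q ⧸ N) ^ t) ^ s := by
          rw [← zpow_mul]
          have := cong false hs
          rw [zpow_one] at this
          exact this.symm
        nth_rewrite 1 [e1]
        rw [conj_zpow, conj_zpow]
        group
      obtain ⟨n₀, hn₀, h4⟩ := K.cl _ _ _ (K.fn _ hx'.zpow)
        (by have := K.sm false 1 (by have := K.prime.one_le; simpa using this)
            rw [zpow_one] at this
            exact this) h3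
      apply K.inf false
      have h5 : IsOfFinOrder (ψ (al x') ^ s) := hx'.zpow
      rw [← h4] at h5
      have h6 := h5
      rw [isOfFinOrder_iff_pow_eq_one] at h6 ⊢
      obtain ⟨j, hj, h7⟩ := h6
      refine ⟨j, hj, ?_⟩
      rw [conj_pow, conj_eq_one_iff] at h7
      exact h7
  · -- a root in the first factor
    have hs0 : ¬ (m : ℤ) ∣ s := by
      intro hd
      apply hxN'
      rw [hta]
      exact K.conj_mem true _ hd
    rcases hy' with hy' | ⟨p', t, rfl⟩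
    · obtain ⟨r, hr⟩ := K.inv_mod hs0
      have h3 : (g⁻¹ * ψ (al p)) * ψ (al x₀) * (g⁻¹ * ψ (al p))⁻¹ * (ψ (be y') ^ r)⁻¹ ∈ N := by
        rw [← QuotientGroup.eq_one_iff]
        simp only [QuotientGroup.mk_mul, QuotientGroup.mk_inv, QuotientGroup.mk_zpow]
        have q5 : ((ψ (be y') : Q) : Q ⧸ N) =
            (g : Q ⧸ N)⁻¹ * (ψ (al (p * x₀ ^ s * p⁻¹)) : Q) * (g : Q ⧸ N) := by
          rw [q4]; group
        rw [q5, hta]
        simp only [QuotientGroup.mk_mul, QuotientGroup.mk_inv, QuotientGroup.mk_zpow]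
        have e1 : ((ψ (al x₀) : Q) : Q ⧸ N) = (((ψ (al x₀) : Q) : Q ⧸ N) ^ s) ^ r := by
          rw [← zpow_mul]
          have := cong true hr
          rw [zpow_one] at this
          exact this.symm
        nth_rewrite 1 [e1]
        have e2 : (g : Q ⧸ N)⁻¹ * (((ψ (al p) : Q) : Q ⧸ N) * ((ψ (al x₀) : Q) : Q ⧸ N) ^ s *
            (((ψ (al p) : Q) : Q ⧸ N))⁻¹) * (g : Q ⧸ N) =
            ((g : Q ⧸ N)⁻¹ * ((ψ (al p) : Q) : Q ⧸ N)) * ((ψ (al x₀) : Q) : Q ⧸ N) ^ s *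
            ((g : Q ⧸ N)⁻¹ * ((ψ (al p) : Q) : Q ⧸ N))⁻¹ := by group
        rw [e2, conj_zpow, mul_inv_cancel]
      obtain ⟨n₀, hn₀, h4⟩ := K.cl _ _ _ (K.fn _ hy'.zpow)
        (by have := K.sm true 1 (by have := K.prime.one_le; simpa using this)
            rw [zpow_one] at this
            exact this) h3
      apply K.inf true
      have h5 : IsOfFinOrder (ψ (be y') ^ r) := hy'.zpow
      rw [← h4] at h5
      have h6 := h5
      rw [isOfFinOrder_iff_pow_eq_one] at h6 ⊢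
      obtain ⟨j, hj, h7⟩ := h6
      refine ⟨j, hj, ?_⟩
      rw [conj_pow, conj_eq_one_iff] at h7
      exact h7
    · have ht : ¬ (m : ℤ) ∣ t := by
        intro hd
        apply hyN'
        rw [htb]
        exact K.conj_mem false _ hd
      obtain ⟨r, hr⟩ := K.inv_mod ht
      obtain ⟨z, hz⟩ : ∃ z, z = (ψ (al p))⁻¹ * g * ψ (be p') := ⟨_, rfl⟩
      have h3 : (z : Q ⧸ N) * ((ψ (be x₀) : Q) : Q ⧸ N) * (z : Q ⧸ N)⁻¹ =
          ((ψ (al x₀) : Q) : Q ⧸ N) ^ (s * r) := by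
        have e1 : ((ψ (be x₀) : Q) : Q ⧸ N) = (((ψ (be x₀) : Q) : Q ⧸ N) ^ t) ^ r := by
          rw [← zpow_mul]
          have := cong false hr
          rw [zpow_one] at this
          exact this.symm
        rw [e1, ← conj_zpow, zpow_mul]
        congr 1
        rw [hta, htb] at q4
        simp only [QuotientGroup.mk_mul, QuotientGroup.mk_inv, QuotientGroup.mk_zpow] at q4
        rw [hz]
        simp only [QuotientGroup.mk_mul, QuotientGroup.mk_inv]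
        have e2 : ((ψ (al x₀) : Q) : Q ⧸ N) ^ s = (((ψ (al p) : Q) : Q ⧸ N))⁻¹ *
            (((ψ (al p) : Q) : Q ⧸ N) * ((ψ (al x₀) : Q) : Q ⧸ N) ^ s *
            (((ψ (al p) : Q) : Q ⧸ N))⁻¹) * ((ψ (al p) : Q) : Q ⧸ N) := by group
        rw [e2, q4]
        group
      obtain ⟨n, hn, e, f, he, h4⟩ := K.conj_small false true h3
      have h5 : n * z * ψ (be (x₀ ^ e)) * (n * z)⁻¹ = ψ (al (x₀ ^ f)) := by
        rw [hut, huf]; exact h4
      have h6 := h.ss _ _ _ h5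
      have hf : f = 0 := by
        by_contra hf
        exact hx₀.zpow hf h6
      rw [hf, zpow_zero, conj_eq_one_iff] at h4
      exact inf_zpow_ne (K.inf false) he h4

end st

end Pool.Agent.Y44.FG
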