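import Pool.Agent.Y44.FG.State
import Pool.Agent.TH63.SC.Pre

set_option autoImplicit false
set_option linter.unusedSectionVars false

/-! The system of lines of two non-commensurable elements (adaptation of TH63.SC.LineEx). -/

namespace Pool.Agent.Y44.FG

open Pool.Agent.TH68 Pool.Agent.Helper97.Hyp Pool.Agent.TH82.FG

section lines

theorem lines_exist {Γ : Type} [Group Γ] {W : WNorm Γ} {δ : ℝ} (hδ : 1 ≤ δ)
    (hyp : GHyp (Pt W) δ) (og : OG Γ) (u : Bool → Γ)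
    (hu : ∀ b, ¬ IsOfFinOrder (u b))
    (hne : ∀ (h : Γ) (i j : ℤ), i ≠ 0 → h * u true ^ i * h⁻¹ ≠ u false ^ j) :
    ∃ (E : Bool → Subgroup Γ) (a : ℕ) (o : Bool → Pt W) (Y : Sys Γ W (Σ b : Bool, Γ ⧸ E b)),
      0 < a ∧ Y.δ = δ ∧ (∀ b g, g ∈ E b ↔ Commute g (u b)) ∧
      (∀ b (γ : Γ), Y.S ⟨b, (γ : Γ ⧸ E b)⟩ = {x | ∃ e ∈ E b, x = (γ * e) • o b}) ∧
      (∀ A B : (Σ b : Bool, Γ ⧸ E b), A ≠ B → ∀ γ : Γ, γ • A = A → γ • B = B → γ = 1) ∧
      (∀ b, Lox δ (o b) (u b ^ a)) := by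
  have hΓ : HypGroup Γ := ⟨W, δ, hyp⟩
  obtain ⟨J, hJ⟩ := lox_of_inf hyp hδ
  have hloxb : ∀ b, ∃ j : ℕ, 1 ≤ j ∧ ∃ x : Pt W, Lox δ x (u b ^ j) := by
    intro b
    obtain ⟨j, h1, _, x, hx⟩ := hJ (u b) (hu b)
    exact ⟨j, h1, x, hx⟩
  choose j hj o ho using hloxb
  set a : ℕ := j true * j false with hadef
  have ha : 0 < a := Nat.mul_pos (hj true) (hj false)
  have hL : ∀ b, Lox δ (o b) (u b ^ a) := by
    intro b
    cases b
    · rw [hadef, mul_comm, pow_mul]; exact (ho false).pow (hj true)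
    · rw [hadef, pow_mul]; exact (ho true).pow (hj false)
  have hzp : ∀ b (k : ℤ), (u b ^ a) ^ k = u b ^ ((a : ℤ) * k) := fun b k => by
    rw [← zpow_natCast, ← zpow_mul]
  have hprop : ∀ (b b' : Bool) (r : ℝ), {γ : Γ | dist (o b) (γ • o b') ≤ r}.Finite := by
    intro b b' r
    apply (proper (o b) (r + dist (o b) (o b'))).subset
    intro γ hγ
    have h1 : dist (o b) (γ • o b') ≤ r := hγ
    change dist (o b) (γ • o b) ≤ _
    have h2 := dist_triangle (o b) (γ • o b') (γ • o b)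
    rw [dist_smul, dist_comm (o b') (o b)] at h2
    linarith
  have hcom : ∀ (b b' : Bool), b ≠ b' → ∀ (γ : Γ) (m n : ℤ), m ≠ 0 → n ≠ 0 →
      γ * (u b' ^ a) ^ m * γ⁻¹ ≠ (u b ^ a) ^ n := by
    intro b b' hb γ m n hm hn h
    rw [hzp, hzp] at h
    have ham : (a : ℤ) * m ≠ 0 := mul_ne_zero (by omega) hm
    have han : (a : ℤ) * n ≠ 0 := mul_ne_zero (by omega) hn
    cases b
    · have : b' = true := by cases b' <;> simp_all
      subst this
      exact hne _ _ _ ham h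
    · have : b' = false := by cases b' <;> simp_all
      subst this
      refine hne γ⁻¹ ((a : ℤ) * n) ((a : ℤ) * m) han ?_
      rw [← h]; group
  let E : Bool → Subgroup Γ := fun b => Lox.E (u b ^ a)
  let S : (Σ b : Bool, Γ ⧸ E b) → Set (Pt W) := fun A => Lox.ax (o A.1) (u A.1 ^ a) A.2
  let θ : ℝ := δ + ∑ b : Bool, ∑ b' : Bool, (Lox.c2 (o b) (u b ^ a) δ + Lox.th1 (o b) (u b ^ a) δ +
    Lox.th1' (o b) (o b') (u b ^ a) (u b' ^ a) δ)
  have hpos : ∀ b b' : Bool, 0 ≤ Lox.c2 (o b) (u b ^ a) δ ∧ 0 ≤ Lox.th1 (o b) (u b ^ a) δ ∧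
      0 ≤ Lox.th1' (o b) (o b') (u b ^ a) (u b' ^ a) δ := fun b b' =>
    ⟨(hL b).c2_nonneg, (hL b).th1_nonneg, (hL b).th1'_nonneg⟩
  have hθ : ∀ b b' : Bool, δ + (Lox.c2 (o b) (u b ^ a) δ + Lox.th1 (o b) (u b ^ a) δ +
      Lox.th1' (o b) (o b') (u b ^ a) (u b' ^ a) δ) ≤ θ := by
    intro b b'
    change _ ≤ δ + _
    apply add_le_add le_rfl
    have h1 : ∀ x ∈ (Finset.univ : Finset Bool), 0 ≤ (∑ b' : Bool, (Lox.c2 (o x) (u x ^ a) δ +
        Lox.th1 (o x) (u x ^ a) δ + Lox.th1' (o x) (o b') (u x ^ a) (u b' ^ a) δ)) := by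
      intro x _
      apply Finset.sum_nonneg
      intro y _
      have := hpos x y
      linarith [this.1, this.2.1, this.2.2]
    refine le_trans ?_ (Finset.single_le_sum h1 (Finset.mem_univ b))
    refine Finset.single_le_sum (f := fun b' => (Lox.c2 (o b) (u b ^ a) δ +
        Lox.th1 (o b) (u b ^ a) δ + Lox.th1' (o b) (o b') (u b ^ a) (u b' ^ a) δ)) ?_
        (Finset.mem_univ b')
    intro y _
    have := hpos b y
    change 0 ≤ _
    linarith [this.1, this.2.1, this.2.2]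
  have hmem : ∀ (b : Bool) (γ : Γ) (x : Pt W), x ∈ S ⟨b, (γ : Γ ⧸ E b)⟩ ↔
      ∃ e ∈ E b, x = (γ * e) • o b := by
    intro b γ x
    constructor
    · rintro ⟨β, hβ, rfl⟩
      refine ⟨γ⁻¹ * β, ?_, by rw [mul_inv_cancel_left]⟩
      exact QuotientGroup.eq.1 hβ.symm
    · rintro ⟨e, he, rfl⟩
      refine ⟨γ * e, ?_, rfl⟩
      apply QuotientGroup.eq.2
      rw [mul_inv_rev, inv_mul_cancel_right]
      exact inv_mem he
  let Y : Sys Γ W (Σ b : Bool, Γ ⧸ E b) :=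
    { δ := δ
      θ := θ
      hyp := hyp
      hδ := hδ
      hθ := by
        have h1 := hθ true true
        have h2 := hpos true true
        linarith [h2.1, h2.2.1, h2.2.2]
      S := S
      Sne := fun A => Lox.ax_ne A.2
      smul_mem := by
        rintro γ ⟨b, A⟩ x hx
        change γ • x ∈ Lox.ax (o b) (u b ^ a) (γ • A)
        rw [Lox.ax_smul, inv_smul_smul]
        exact hx
      proj := by
        rintro ⟨b, A⟩ x
        obtain ⟨q, hq⟩ := ((hL b).qline_ax A).proj x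
        have h1 := hθ b b
        have h2 := hpos b b
        exact ⟨q, hq.1, fun s hs => (hq.2 s hs).trans (by linarith [h2.1, h2.2.1, h2.2.2])⟩
      small := by
        rintro ⟨b, A⟩ ⟨b', B⟩ hAB p hp q hq
        have h1 := hθ b b'
        have h2 := hpos b b'
        by_cases hbb : b = b'
        · subst hbb
          have hAB' : A ≠ B := fun h => hAB (by rw [h])
          have := (hL b).proj_bound (proper (o b)) hAB' hp hq
          refine le_trans this ?_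
          linarith [h2.1, h2.2.1, h2.2.2]
        · obtain ⟨α, rfl⟩ := QuotientGroup.mk_surjective A
          obtain ⟨β, rfl⟩ := QuotientGroup.mk_surjective B
          have := (hL b).proj_pair' (hL b') (hprop b b') (α := α) (β := β)
            (fun m n hm hn => hcom b b' hbb _ m n hm hn) hp hq
          refine le_trans this ?_
          linarith [h2.1, h2.2.1, h2.2.2] }
  have hE : ∀ b g, g ∈ E b ↔ Commute g (u b) := fun b g => og.mem_E_iff hΓ (hu b) ha (hL b) g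
  refine ⟨E, a, o, Y, ha, rfl, hE, ?_, ?_, hL⟩
  · intro b γ
    ext x
    exact hmem b γ x
  · rintro ⟨b, A⟩ ⟨b', B⟩ hAB γ hA hB
    by_contra hγ
    obtain ⟨g, rfl⟩ := QuotientGroup.mk_surjective A
    obtain ⟨g', rfl⟩ := QuotientGroup.mk_surjective B
    have hγi : ¬ IsOfFinOrder γ := by
      intro hf
      apply hγ
      have h1 : ((γ * g : Γ) : Γ ⧸ E b) = (g : Γ ⧸ E b) := by
        have h2 : (⟨b, ((γ * g : Γ) : Γ ⧸ E b)⟩ : Σ b : Bool, Γ ⧸ E b) =
          ⟨b, (g : Γ ⧸ E b)⟩ := hA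
        exact eq_of_heq (Sigma.mk.inj h2).2
      have h3 : g⁻¹ * (γ * g) ∈ E b := QuotientGroup.eq.1 h1.symm
      have h4 : Commute (g⁻¹ * (γ * g)) (u b) := (hE b _).1 h3
      have h5 : g⁻¹ * (γ * g) = 1 := by
        apply og.free (hu b) one_ne_zero _ (by rw [zpow_one]; exact h4)
        rw [isOfFinOrder_iff_pow_eq_one] at hf ⊢
        obtain ⟨n, hn, h6⟩ := hf
        refine ⟨n, hn, ?_⟩
        have e1 : g⁻¹ * (γ * g) = g⁻¹ * γ * g⁻¹⁻¹ := by group
        rw [e1, conj_pow, h6]; group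
      have e1 : γ = g * (g⁻¹ * (γ * g)) * g⁻¹ := by group
      rw [e1, h5]; group
    obtain ⟨z, hz, hγz⟩ := og.root hΓ hγi
    have key : ∀ (b : Bool) (g : Γ), γ • (⟨b, (g : Γ ⧸ E b)⟩ : Σ b : Bool, Γ ⧸ E b) =
        ⟨b, (g : Γ ⧸ E b)⟩ → ∃ s : ℤ, s ≠ 0 ∧ g * u b * g⁻¹ = z ^ s := by
      intro b g h
      have h1 : ((γ * g : Γ) : Γ ⧸ E b) = (g : Γ ⧸ E b) := by
        have h2 : (⟨b, ((γ * g : Γ) : Γ ⧸ E b)⟩ : Σ b : Bool, Γ ⧸ E b) =
          ⟨b, (g : Γ ⧸ E b)⟩ := h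
        exact eq_of_heq (Sigma.mk.inj h2).2
      have h3 : g⁻¹ * (γ * g) ∈ E b := QuotientGroup.eq.1 h1.symm
      have h4 : Commute (g⁻¹ * (γ * g)) (u b) := (hE b _).1 h3
      have h5 : Commute (g * u b * g⁻¹) γ := by
        have h6 := (h4.conj g).symm
        have h7 : g * (g⁻¹ * (γ * g)) * g⁻¹ = γ := by group
        rwa [h7] at h6
      obtain ⟨c, hc⟩ := Subgroup.mem_zpowers_iff.1 hγz
      have hc0 : c ≠ 0 := by
        rintro rfl
        exact hγ (by rw [← hc, zpow_zero])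
      rw [← hc] at h5
      obtain ⟨s, hs⟩ := Subgroup.mem_zpowers_iff.1 (hz.cent _ c hc0 h5)
      refine ⟨s, ?_, hs.symm⟩
      rintro rfl
      rw [zpow_zero] at hs
      exact hu b (by
        have : u b = 1 := by
          have : u b = g⁻¹ * (g * u b * g⁻¹) * g := by group
          rw [this, ← hs]; group
        rw [this]; exact IsOfFinOrder.one)
    obtain ⟨s, hs0, hs⟩ := key b g hA
    obtain ⟨t, ht0, ht⟩ := key b' g' hB
    have h1 : g * u b ^ t * g⁻¹ = g' * u b' ^ s * g'⁻¹ := by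
      rw [← conj_zpow, ← conj_zpow, hs, ht, ← zpow_mul, ← zpow_mul, mul_comm]
    by_cases hbb : b = b'
    · subst hbb
      apply hAB
      congr 1
      apply QuotientGroup.eq.2
      refine ⟨s, t, hs0, ht0, ?_⟩
      have h2 : (g⁻¹ * g') * u b ^ s * (g⁻¹ * g')⁻¹ = u b ^ t := by
        calc (g⁻¹ * g') * u b ^ s * (g⁻¹ * g')⁻¹ = g⁻¹ * (g' * u b ^ s * g'⁻¹) * g := by group
          _ = u b ^ t := by rw [← h1]; group
      rw [hzp, hzp, mul_comm (a : ℤ), mul_comm (a : ℤ), zpow_mul, zpow_mul, ← h2, conj_zpow]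
    · apply hcom b b' hbb (g⁻¹ * g') s t hs0 ht0
      have h2 : (g⁻¹ * g') * u b' ^ s * (g⁻¹ * g')⁻¹ = u b ^ t := by
        calc (g⁻¹ * g') * u b' ^ s * (g⁻¹ * g')⁻¹ = g⁻¹ * (g' * u b' ^ s * g'⁻¹) * g := by group
          _ = u b ^ t := by rw [← h1]; group
      rw [hzp, hzp, mul_comm (a : ℤ), mul_comm (a : ℤ), zpow_mul, zpow_mul, ← h2, conj_zpow]

end lines

end Pool.Agent.Y44.FG
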