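import Pool.Agent.Y44.FG.Tor
import Pool.Agent.TH63.SC.RawSpq
import Pool.Agent.TH68.Rotm

set_option autoImplicit false
set_option linter.unusedSectionVars false

/-! Spinning families of powers of two roots (helper44). -/

namespace Pool.Agent.Y44.FG

open Pool.Agent.TH68 Pool.Agent.Helper97.Hyp Pool.Agent.TH82.FG

/-- weak spinning families from rotation groups with large displacement -/
theorem raw_spw {Γ : Type*} [Group Γ] {W : WNorm Γ} {𝒜 : Type*} [MulAction Γ 𝒜] (F : Raw Γ W 𝒜)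
    (G : 𝒜 → Subgroup Γ) (M : ℝ) (hM : 200 * F.θ ≤ M)
    (hconj : ∀ (γ : Γ) A g, g ∈ G A → γ * g * γ⁻¹ ∈ G (γ • A))
    (fix : ∀ A, ∀ r ∈ G A, r • A = A)
    (spin : ∀ A, ∀ r ∈ G A, r ≠ 1 → ∀ q ∈ F.S A, M ≤ dist q (r • q))
    (cob : ∃ R : ℝ, ∀ A, ∀ p ∈ F.S A, ∀ q ∈ F.S A, ∃ r ∈ G A, dist p (r • q) ≤ R) :
    ∃ R : Spw F.toSys, R.M = M ∧ R.G = G ∧ R.N = ⨆ A, G A := by
  have hδ := F.hδ
  have hc := F.hc
  have hs := F.hs
  have hθ : F.c ≤ F.θ := by unfold Raw.θ; linarith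
  have hθ1 : 1 ≤ F.θ := by unfold Raw.θ; linarith
  have hnorm : (⨆ A, G A).Normal := by
    constructor
    intro n hn γ
    have h1 : (⨆ A, G A) ≤ (⨆ A, G A).comap (MulAut.conj γ).toMonoidHom := by
      apply iSup_le
      intro A x hx
      rw [Subgroup.mem_comap]
      exact (le_iSup G (γ • A)) (hconj γ A x hx)
    exact h1 hn
  let sp : Spin F.ps :=
    { G := G
      M := M - F.c
      hM := by
        change 100 * F.θ ≤ _
        linarith
      Gconj := hconj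
      Gfix := fun A n hn => fix A n hn
      spin := by
        intro A n p hn hn1
        obtain ⟨p', hp'⟩ := F.proj A p
        have h0 : n • A = A := fix A n hn
        have h1 : IsProj F.c (F.S A) (n • p) (n • p') := by
          apply hp'.smul (γ := n)
          intro x
          have := F.mem_smul n A x
          rwa [h0] at this
        have h2 := le_pd_of_proj hp' h1
        have h3 := spin A n hn hn1 p' hp'.1
        change M - F.c ≤ pd _ _ _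
        linarith }
  refine ⟨{ M := M, N := ⨆ A, G A, normal := hnorm, G := G, G_le := le_iSup G, fix := fix,
            spin := spin, wind := ?_, cob := cob }, rfl, rfl, rfl⟩
  intro n hn hn1 x
  obtain ⟨A, r, hr, hr1, h⟩ := sp.swind x hn hn1
  refine ⟨A, r, hr, hr1, ?_⟩
  have h1 : pd (F.S A) (r • x) (n • x) ≤ 42 * F.θ := h
  change pd (F.S A) (r • x) (n • x) ≤ 50 * F.θ
  linarith

/-- the lines of two roots -/
structure Two (Γ : Type) [Group Γ] (W : WNorm Γ) where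
  δ : ℝ
  hδ : 1 ≤ δ
  u : Bool → Γ
  root : ∀ b, Root (u b)
  a : ℕ
  ha : 0 < a
  o : Bool → Pt W
  lox : ∀ b, Lox δ (o b) (u b ^ a)
  E : Bool → Subgroup Γ
  hE : ∀ b g, g ∈ E b ↔ g ∈ Subgroup.zpowers (u b)
  Y : Sys Γ W (Σ b : Bool, Γ ⧸ E b)
  hS : ∀ b (γ : Γ), Y.S ⟨b, (γ : Γ ⧸ E b)⟩ = {x | ∃ e ∈ E b, x = (γ * e) • o b}
  K : ℝ

namespace Two

variable {Γ : Type} [Group Γ] {W : WNorm Γ} (T : Two Γ W)

/-- the axes -/
abbrev Ax : Type := Σ b : Bool, Γ ⧸ T.E b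

/-- the data of one root -/
def D (b : Bool) : RD Γ W := ⟨T.δ, T.hδ, T.o b, T.u b, T.a, T.ha, T.lox b, T.root b⟩

/-- displacement of the roots -/
noncomputable def L : ℝ := max (dist (T.o true) (T.u true • T.o true))
  (dist (T.o false) (T.u false • T.o false))

lemma L_nonneg : 0 ≤ T.L := le_max_of_le_left dist_nonneg

lemma le_L (b : Bool) : dist (T.o b) (T.u b • T.o b) ≤ T.L := by
  cases b
  · exact le_max_right _ _
  · exact le_max_left _ _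

lemma disp_le (b : Bool) (t : ℤ) : dist (T.o b) (T.u b ^ t • T.o b) ≤ t.natAbs * T.L := by
  have h1 := (T.D b).dist_zpow_le t
  have h2 : (t.natAbs : ℝ) * dist (T.o b) (T.u b • T.o b) ≤ t.natAbs * T.L :=
    mul_le_mul_of_nonneg_left (T.le_L b) (Nat.cast_nonneg _)
  exact h1.trans h2

/-- lower bound for the displacement -/
noncomputable def low (m : ℕ) : ℝ := (m : ℝ) / T.a - 1 - T.a * T.L

lemma low_le (b : Bool) {m : ℕ} {t : ℤ} (ht : m ≤ t.natAbs) :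
    T.low m ≤ dist (T.o b) (T.u b ^ t • T.o b) := by
  have h1 := (T.D b).low_le ht
  have h2 : (T.a : ℝ) * dist (T.o b) (T.u b • T.o b) ≤ T.a * T.L :=
    mul_le_mul_of_nonneg_left (T.le_L b) (Nat.cast_nonneg _)
  have h3 : (T.D b).low m = (m : ℝ) / T.a - 1 - T.a * dist (T.o b) (T.u b • T.o b) := rfl
  change (T.D b).low m ≤ dist (T.o b) (T.u b ^ t • T.o b) at h1
  rw [h3] at h1
  unfold low
  linarith

lemma zpow_mem (b : Bool) (t : ℤ) : T.u b ^ t ∈ T.E b :=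
  (T.hE b _).2 (Subgroup.zpow_mem _ (Subgroup.mem_zpowers _) t)

lemma smul_mk (g : Γ) (b : Bool) (γ : Γ) :
    g • (⟨b, (γ : Γ ⧸ T.E b)⟩ : T.Ax) = ⟨b, ((g * γ : Γ) : Γ ⧸ T.E b)⟩ := rfl

lemma mk_eq_iff (b : Bool) (γ γ' : Γ) :
    (⟨b, (γ : Γ ⧸ T.E b)⟩ : T.Ax) = ⟨b, (γ' : Γ ⧸ T.E b)⟩ ↔ ∃ t : ℤ, γ' = γ * T.u b ^ t := by
  constructor
  · intro h
    have h2 : (γ : Γ ⧸ T.E b) = (γ' : Γ ⧸ T.E b) := eq_of_heq (Sigma.mk.inj h).2
    have h3 : γ⁻¹ * γ' ∈ T.E b := QuotientGroup.eq.1 h2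
    rw [T.hE] at h3
    obtain ⟨t, ht⟩ := h3
    have ht' : T.u b ^ t = γ⁻¹ * γ' := ht
    exact ⟨t, by rw [ht', mul_inv_cancel_left]⟩
  · rintro ⟨t, rfl⟩
    congr 1
    apply QuotientGroup.eq.2
    rw [inv_mul_cancel_left]
    exact T.zpow_mem b t

lemma stab_iff (g : Γ) (b : Bool) (γ : Γ) :
    g • (⟨b, (γ : Γ ⧸ T.E b)⟩ : T.Ax) = ⟨b, (γ : Γ ⧸ T.E b)⟩ ↔
      ∃ t : ℤ, g = γ * T.u b ^ t * γ⁻¹ := by
  rw [smul_mk, eq_comm, mk_eq_iff]
  constructor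
  · rintro ⟨t, ht⟩
    exact ⟨t, by rw [← ht, mul_inv_cancel_right]⟩
  · rintro ⟨t, ht⟩
    exact ⟨t, by rw [ht, inv_mul_cancel_right]⟩

lemma exists_rep (A : T.Ax) : ∃ (b : Bool) (γ : Γ), A = ⟨b, (γ : Γ ⧸ T.E b)⟩ := by
  obtain ⟨b, A⟩ := A
  obtain ⟨γ, rfl⟩ := QuotientGroup.mk_surjective A
  exact ⟨b, γ, rfl⟩

lemma mem_S (b : Bool) (γ : Γ) (x : Pt W) :
    x ∈ T.Y.S ⟨b, (γ : Γ ⧸ T.E b)⟩ ↔ ∃ s : ℤ, x = (γ * T.u b ^ s) • T.o b := by
  rw [T.hS]
  constructor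
  · rintro ⟨e, he, rfl⟩
    rw [T.hE] at he
    obtain ⟨s, hs⟩ := he
    have hs' : T.u b ^ s = e := hs
    exact ⟨s, by rw [hs']⟩
  · rintro ⟨s, rfl⟩
    exact ⟨_, T.zpow_mem b s, rfl⟩

/-- displacements are constant on the axes -/
lemma disp_ax {b : Bool} {γ : Γ} {q : Pt W} (hq : q ∈ T.Y.S ⟨b, (γ : Γ ⧸ T.E b)⟩) (t : ℤ) :
    dist q ((γ * T.u b ^ t * γ⁻¹) • q) = dist (T.o b) (T.u b ^ t • T.o b) := by
  rw [mem_S] at hq
  obtain ⟨s, rfl⟩ := hq
  rw [smul_smul]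
  have e : γ * T.u b ^ t * γ⁻¹ * (γ * T.u b ^ s) = (γ * T.u b ^ s) * T.u b ^ t := by
    rw [mul_assoc (γ * _), inv_mul_cancel_left, mul_assoc γ, mul_assoc γ, ← zpow_add, ← zpow_add,
      add_comm]
  rw [e, mul_smul (γ * T.u b ^ s), dist_smul]

/-- rotation groups -/
noncomputable def G (m : ℕ) (A : T.Ax) : Subgroup Γ :=
  Subgroup.zpowers (A.2.out * T.u A.1 ^ m * A.2.out⁻¹)

lemma G_mk (m : ℕ) (b : Bool) (γ : Γ) :
    T.G m ⟨b, (γ : Γ ⧸ T.E b)⟩ = Subgroup.zpowers (γ * T.u b ^ m * γ⁻¹) := by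
  have h1 : (⟨b, (γ : Γ ⧸ T.E b)⟩ : T.Ax) =
      ⟨b, (((γ : Γ ⧸ T.E b).out : Γ) : Γ ⧸ T.E b)⟩ := by
    congr 1
    exact (QuotientGroup.out_eq' _).symm
  rw [mk_eq_iff] at h1
  obtain ⟨t, ht⟩ := h1
  unfold G
  change Subgroup.zpowers (((γ : Γ ⧸ T.E b).out : Γ) * T.u b ^ m * ((γ : Γ ⧸ T.E b).out)⁻¹) = _
  rw [ht]
  congr 1
  have h2 : Commute (T.u b ^ t) (T.u b ^ m) := ((Commute.refl _).zpow_left t).pow_right m
  rw [mul_assoc γ, h2.eq]
  group

lemma mem_G (m : ℕ) (b : Bool) (γ : Γ) (r : Γ) :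
    r ∈ T.G m ⟨b, (γ : Γ ⧸ T.E b)⟩ ↔ ∃ t : ℤ, r = γ * T.u b ^ ((m : ℤ) * t) * γ⁻¹ := by
  rw [G_mk]
  constructor
  · rintro ⟨t, ht⟩
    have ht' : (γ * T.u b ^ m * γ⁻¹) ^ t = r := ht
    refine ⟨t, ?_⟩
    rw [← ht', conj_zpow, zpow_mul, zpow_natCast]
  · rintro ⟨t, rfl⟩
    refine ⟨t, ?_⟩
    change (γ * T.u b ^ m * γ⁻¹) ^ t = _
    rw [conj_zpow, zpow_mul, zpow_natCast]

/-- the raw system -/
noncomputable def raw : Raw Γ W T.Ax where
  δ := T.Y.δ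
  c := T.Y.θ
  s := max T.Y.θ T.K
  hyp := T.Y.hyp
  hδ := T.Y.hδ
  hc := by have := T.Y.hδ; have := T.Y.hθ; linarith
  hs := by
    have := T.Y.hδ
    have := T.Y.hθ
    have := le_max_left T.Y.θ T.K
    linarith
  S := T.Y.S
  Sne := T.Y.Sne
  smul_mem := T.Y.smul_mem
  proj := T.Y.proj
  small A B h p hp q hq := (T.Y.small A B h p hp q hq).trans (le_max_left _ _)
  fin x r := by
    have h1 : ∀ b : Bool, {g : Γ | dist x (g • T.o b) ≤ r}.Finite := by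
      intro b
      apply (proper (T.o b) (r + dist (T.o b) x)).subset
      intro g hg
      have h2 : dist x (g • T.o b) ≤ r := hg
      have h3 := dist_triangle (T.o b) x (g • T.o b)
      change dist (T.o b) (g • T.o b) ≤ _
      linarith
    have h2 : (⋃ b : Bool, (fun g : Γ => (⟨b, (g : Γ ⧸ T.E b)⟩ : T.Ax)) ''
        {g : Γ | dist x (g • T.o b) ≤ r}).Finite :=
      Set.finite_iUnion fun b => (h1 b).image _
    apply h2.subset
    rintro A ⟨p, hp, hd⟩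
    obtain ⟨b, γ, rfl⟩ := T.exists_rep A
    rw [mem_S] at hp
    obtain ⟨s, rfl⟩ := hp
    rw [Set.mem_iUnion]
    refine ⟨b, γ * T.u b ^ s, hd, ?_⟩
    exact ((T.mk_eq_iff b γ (γ * T.u b ^ s)).2 ⟨s, rfl⟩).symm

/-- the final system -/
noncomputable abbrev Z : Sys Γ W T.Ax := T.raw.toSys

lemma Z_S : T.Z.S = T.Y.S := rfl

lemma K_le : T.K ≤ T.Z.θ := by
  have h1 := T.Y.hδ
  have h2 := T.Y.hθ
  have h3 : T.Z.θ = max T.Y.θ T.K + 3 * T.Y.θ + 2 * T.Y.δ + 1 := rfl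
  have h4 := le_max_right T.Y.θ T.K
  rw [h3]
  linarith

/-- the spinning family of the powers -/
theorem spw {m : ℕ} (hm : 0 < m) (hM : 200 * T.Z.θ ≤ T.low m) :
    ∃ R : Spw T.Z, R.M = T.low m ∧
      R.N = Subgroup.normalClosure {T.u true ^ m, T.u false ^ m} := by
  obtain ⟨R, h1, h2, h3⟩ := raw_spw T.raw (T.G m) (T.low m) hM
    (by
      intro γ A g hg
      obtain ⟨b, α, rfl⟩ := T.exists_rep A
      rw [mem_G] at hg
      obtain ⟨t, rfl⟩ := hg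
      rw [smul_mk, mem_G]
      refine ⟨t, ?_⟩
      group)
    (by
      intro A r hr
      obtain ⟨b, α, rfl⟩ := T.exists_rep A
      rw [mem_G] at hr
      obtain ⟨t, rfl⟩ := hr
      rw [stab_iff]
      exact ⟨_, rfl⟩)
    (by
      intro A r hr hr1 q hq
      obtain ⟨b, α, rfl⟩ := T.exists_rep A
      rw [mem_G] at hr
      obtain ⟨t, rfl⟩ := hr
      have ht : t ≠ 0 := by
        rintro rfl
        apply hr1
        rw [mul_zero, zpow_zero, mul_one, mul_inv_cancel]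
      rw [T.disp_ax hq]
      apply T.low_le
      rw [Int.natAbs_mul, Int.natAbs_natCast]
      have : 1 ≤ t.natAbs := by omega
      nlinarith)
    (by
      refine ⟨m * T.L, ?_⟩
      intro A p hp q hq
      obtain ⟨b, α, rfl⟩ := T.exists_rep A
      have hp' := (T.mem_S b α p).1 hp
      have hq' := (T.mem_S b α q).1 hq
      obtain ⟨s, rfl⟩ := hp'
      obtain ⟨s', rfl⟩ := hq'
      obtain ⟨d, hd⟩ : ∃ d, d = s - s' := ⟨_, rfl⟩
      refine ⟨α * T.u b ^ ((m : ℤ) * (d / m)) * α⁻¹, (T.mem_G m b α _).2 ⟨_, rfl⟩, ?_⟩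
      rw [smul_smul]
      have e1 : α * T.u b ^ ((m : ℤ) * (d / m)) * α⁻¹ * (α * T.u b ^ s') =
          (α * T.u b ^ s) * T.u b ^ (-(d % (m : ℤ))) := by
        rw [mul_assoc (α * _), inv_mul_cancel_left, mul_assoc α, mul_assoc α, ← zpow_add,
          ← zpow_add]
        congr 2
        have := Int.mul_ediv_add_emod d m
        linarith
      rw [e1, mul_smul (α * T.u b ^ s), dist_smul]
      refine (T.disp_le b _).trans ?_
      apply mul_le_mul_of_nonneg_right _ T.L_nonneg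
      rw [Int.natAbs_neg]
      have h2 : 0 ≤ d % (m : ℤ) := Int.emod_nonneg _ (by omega)
      have h3 : d % (m : ℤ) < m := Int.emod_lt_of_pos _ (by omega)
      have : (d % (m : ℤ)).natAbs ≤ m := by omega
      exact_mod_cast this)
  refine ⟨R, h1, ?_⟩
  rw [h3]
  apply le_antisymm
  · apply iSup_le
    intro A
    obtain ⟨b, α, rfl⟩ := T.exists_rep A
    rw [G_mk, Subgroup.zpowers_le]
    apply Subgroup.normalClosure_normal.conj_mem
    apply Subgroup.subset_normalClosure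
    cases b
    · exact Or.inr rfl
    · exact Or.inl rfl
  · have hN : (⨆ A, T.G m A).Normal := h3 ▸ R.normal
    apply Subgroup.normalClosure_le_normal
    have key : ∀ b, T.u b ^ m ∈ ⨆ A, T.G m A := by
      intro b
      apply (le_iSup (T.G m) ⟨b, ((1 : Γ) : Γ ⧸ T.E b)⟩)
      rw [mem_G]
      exact ⟨1, by simp⟩
    rintro x (rfl | hx)
    · exact key true
    · rw [Set.mem_singleton_iff] at hx
      rw [hx]; exact key false

end Two

end Pool.Agent.Y44.FG
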