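import Pool.Agent.Y44.FG.Ss2
import Pool.Agent.TH98.FG.SI

set_option autoImplicit false
set_option linter.unusedSectionVars false

/-! Conjugacy separation survives the factorising relator (adaptation of TH98.FG.SI). -/

namespace Pool.Agent.Y44.FG

open Pool.Agent.TH68 Pool.Agent.Helper97.Hyp Pool.Agent.TH82.FG

section final

/-- conjugacy separation survives the factorising relator; `hsh` is `short_h Y R _ hA hB gA gB htf ss`
and `hov` is `overlap Y.hyp hA hB ss` -/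
theorem ssi_i_of {Γ : Type*} [Group Γ] {W : WNorm Γ} {𝒜 : Type*} [MulAction Γ 𝒜] (Y : Sys Γ W 𝒜)
    (R : Spq Y) (hM : 10000 * Y.θ ≤ R.M) {A B : Subgroup Γ}
    (hA : Geo W A) (hB : Geo W B) (gA : NGeo W R.N A) (gB : NGeo W R.N B)
    (ss : SSm (⊥ : Subgroup Γ) A B)
    (hsh : ∀ {h x z : Γ}, x ∈ A → z ∈ B → (∀ k : ℕ, 0 < k → x ^ k ∉ R.N) → x⁻¹ * (h * z * h⁻¹) ∈ R.N →
      (∀ a ∈ A, ∀ n ∈ R.N, ∀ b ∈ B, W.ℓ h ≤ W.ℓ (a * n * h * b)) →
      (W.ℓ h : ℝ) ≤ 87 * Y.θ)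
    (hov : ∀ J : ℝ, ∃ D : ℝ, ∀ (y : Γ), ∀ a ∈ A, ∀ a' ∈ A,
      ∀ b ∈ B, ∀ b' ∈ B, dist (pt W a) (pt W (y * b)) ≤ J → dist (pt W a') (pt W (y * b')) ≤ J →
        dist (pt W a) (pt W a') ≤ D)
    {w g₀ r : Γ} (hw : w ∈ A) (hr : w⁻¹ * r * g₀ ∈ B)
    (hg₀ : ∀ a ∈ A, ∀ b ∈ B, a * b ≠ g₀) {c : ℝ} (hc : 1000 * Y.θ ≤ c)
    (hwc : 100 * c ≤ W.ℓ w) (hcell : Cells Y R A B w g₀ r c) :
    SSi R.N A B := by
  classical
  have hδ := Y.hδ
  have hθ := Y.hθ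
  have hN := R.normal
  by_contra hcon
  -- a minimal counterexample
  have hex : ∃ m : ℕ, ∃ a ∈ A, ∃ b ∈ B, ∃ h : Γ, a⁻¹ * (h * b * h⁻¹) ∈ R.N ∧
      (∀ k : ℕ, 0 < k → a ^ k ∉ R.N) ∧
      W.ℓ h = m := by
    unfold SSi at hcon
    push Not at hcon
    obtain ⟨a, ha, b, hb, h, h1, h2⟩ := hcon
    exact ⟨_, a, ha, b, hb, h, h1, h2, rfl⟩
  obtain ⟨a, ha, b, hb, h, h1, h2, h3⟩ := Nat.find_spec hex
  have hmin : ∀ a' ∈ A, ∀ n ∈ R.N, ∀ b' ∈ B, W.ℓ h ≤ W.ℓ (a' * n * h * b') := by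
    intro a' ha' n hn b' hb'
    rw [h3]
    apply Nat.find_min' hex
    refine ⟨a' * a * a'⁻¹, A.mul_mem (A.mul_mem ha' ha) (A.inv_mem ha'), b'⁻¹ * b * b',
      B.mul_mem (B.mul_mem (B.inv_mem hb') hb) hb', a' * n * h * b', ?_, ?_, rfl⟩
    · have e : (a' * a * a'⁻¹)⁻¹ * (a' * n * h * b' * (b'⁻¹ * b * b') * (a' * n * h * b')⁻¹) =
          a' * ((a⁻¹ * n * a) * (a⁻¹ * (h * b * h⁻¹)) * n⁻¹) * a'⁻¹ := by group
      rw [e]
      apply hN.conj_mem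
      apply R.N.mul_mem (R.N.mul_mem _ h1) (R.N.inv_mem hn)
      simpa using hN.conj_mem n hn a⁻¹
    · intro k hk h4
      apply h2 k hk
      have := hN.conj_mem _ h4 a'⁻¹
      rw [conj_pow] at this
      have e : a'⁻¹ * (a' * a ^ k * a'⁻¹) * a'⁻¹⁻¹ = a ^ k := by group
      rwa [e] at this
  have hh := hsh ha hb h2 h1 hmin
  obtain ⟨D, hD⟩ := hov (5 * c)
  -- the powers
  choose! x hx using gA
  choose! z hz using gB
  have key : ∀ k : ℕ, (W.ℓ (x (a ^ (k + 1))) : ℝ) ≤ 2 * D + W.ℓ w + 4 * c := by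
    intro k
    have hak := A.pow_mem ha (k + 1)
    have hbk := B.pow_mem hb (k + 1)
    obtain ⟨x1, x2, x3⟩ := hx _ hak
    obtain ⟨z1, z2, z3⟩ := hz _ hbk
    have hakN : a ^ (k + 1) ∉ R.N := h2 (k + 1) (by omega)
    -- work in the quotient
    have q1 : ((x (a ^ (k + 1)) : Γ) : Γ ⧸ R.N) = (a : Γ ⧸ R.N) ^ (k + 1) := by
      rw [← QuotientGroup.mk_pow]
      exact (QuotientGroup.eq.mpr x2).symm
    have q2 : ((z (b ^ (k + 1)) : Γ) : Γ ⧸ R.N) = (b : Γ ⧸ R.N) ^ (k + 1) := by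
      rw [← QuotientGroup.mk_pow]
      exact (QuotientGroup.eq.mpr z2).symm
    have q3 : (a : Γ ⧸ R.N) = h * b * (h : Γ ⧸ R.N)⁻¹ := by
      rw [← QuotientGroup.mk_mul, ← QuotientGroup.mk_inv, ← QuotientGroup.mk_mul]
      exact QuotientGroup.eq.mpr h1
    have hn : x (a ^ (k + 1)) * h * (z (b ^ (k + 1)))⁻¹ * h⁻¹ ∈ R.N := by
      rw [← QuotientGroup.eq_one_iff]
      rw [QuotientGroup.mk_mul, QuotientGroup.mk_mul, QuotientGroup.mk_mul, QuotientGroup.mk_inv,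
        QuotientGroup.mk_inv, q1, q2, q3, conj_pow]
      group
    refine SI.claim Y R hM hA hB ss hw hr hg₀ hc hwc hcell hD x1 z1 hh x3 z3 hn ?_
    intro h4
    apply hakN
    have h5 : (x (a ^ (k + 1)))⁻¹ * (h * z (b ^ (k + 1)) * h⁻¹) ∈ (⊥ : Subgroup Γ) := by
      rw [Subgroup.mem_bot]
      have : x (a ^ (k + 1)) = h * z (b ^ (k + 1)) * h⁻¹ := by
        calc x (a ^ (k + 1)) = (x (a ^ (k + 1)) * h * (z (b ^ (k + 1)))⁻¹ * h⁻¹) *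
              (h * z (b ^ (k + 1)) * h⁻¹) := by group
          _ = _ := by rw [h4, one_mul]
      rw [this]; group
    have h6 := ss _ x1 _ z1 h h5
    rw [Subgroup.mem_bot] at h6
    rw [h6, mul_one] at x2
    exact (R.N.inv_mem_iff).mp x2
  -- pigeonhole
  have hfin := W.fin ⌊2 * D + W.ℓ w + 4 * c⌋₊
  obtain ⟨i, -, j, -, hij, hxij⟩ := Set.infinite_univ.exists_ne_map_eq_of_mapsTo
    (f := fun k : ℕ => x (a ^ (k + 1))) (fun k _ => by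
      exact Nat.le_floor (key k)) hfin
  wlog hlt : i < j generalizing i j
  · exact this j i hij.symm hxij.symm (lt_of_le_of_ne (not_lt.mp hlt) hij.symm)
  have x2 := (hx _ (A.pow_mem ha (i + 1))).2.1
  have x2' := (hx _ (A.pow_mem ha (j + 1))).2.1
  have hxij' : x (a ^ (i + 1)) = x (a ^ (j + 1)) := hxij
  rw [hxij'] at x2
  have h4 := R.N.mul_mem x2 (R.N.inv_mem x2')
  have e : (a ^ (i + 1))⁻¹ * x (a ^ (j + 1)) * ((a ^ (j + 1))⁻¹ * x (a ^ (j + 1)))⁻¹ =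
      a ^ (j - i) := by
    have : j + 1 = (i + 1) + (j - i) := by omega
    rw [mul_inv_rev, inv_inv, ← mul_assoc, mul_inv_cancel_right, this, pow_add]
    group
  rw [e] at h4
  exact h2 (j - i) (by omega) h4

end final

end Pool.Agent.Y44.FG
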