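import Pool.Agent.Y44.FG.Ss2
import Pool.Agent.TH82.FG.Sh

set_option autoImplicit false
set_option linter.unusedSectionVars false

/-! Shortest conjugators modulo the killed subgroup are short (adaptation of TH82.FG.Sh). -/

namespace Pool.Agent.Y44.FG

open Pool.Agent.TH68 Pool.Agent.Helper97.Hyp Pool.Agent.TH82.FG
open scoped Pointwise

section sh

variable {Γ : Type*} [Group Γ] {W : WNorm Γ} {𝒜 : Type*} [MulAction Γ 𝒜]

/-- the possible crossings of the quadrilateral -/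
lemma quad (Y : Sys Γ W 𝒜) (R : Spw Y) (hM : 4000 * Y.θ ≤ R.M) {A B : Subgroup Γ}
    (hA : Geo W A) (hB : Geo W B) {h x z : Γ} (hx : x ∈ A) (hz : z ∈ B)
    (hxs : ∀ n ∈ R.N, W.ℓ x ≤ W.ℓ (x * n)) (hzs : ∀ n ∈ R.N, W.ℓ z ≤ W.ℓ (z * n))
    (hmin : ∀ a ∈ A, ∀ n ∈ R.N, ∀ b ∈ B, W.ℓ h ≤ W.ℓ (a * n * h * b))
    (hl : 87 * Y.θ < W.ℓ h) (hnN : x * h * z⁻¹ * h⁻¹ ∈ R.N) (hn1 : x * h * z⁻¹ * h⁻¹ ≠ 1) :
    (∃ S, x * h * z⁻¹ * h⁻¹ ∈ R.G S ∧ ∃ q ∈ Y.S S, dist (pt W 1) q ≤ 192 * Y.θ) ∨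
    ∃ h₁ h₃ e : Γ, W.ℓ h₁ ≤ W.ℓ h ∧ W.ℓ h₃ ≤ W.ℓ h ∧ (W.ℓ e : ℝ) ≤ 87 * Y.θ ∧
      x⁻¹ * (h₃ * e⁻¹ * h₁⁻¹) ∈ R.N := by
  have hδ := Y.hδ
  have hθ := Y.hθ
  have hN := R.normal
  obtain ⟨n, hnd⟩ : ∃ n, n = x * h * z⁻¹ * h⁻¹ := ⟨_, rfl⟩
  rw [← hnd] at hnN hn1 ⊢
  have hnh : n * h = x * h * z⁻¹ := by rw [hnd]; group
  -- minimality
  have hD : ∀ n' ∈ R.N, ∀ a ∈ A, ∀ b ∈ B,
      (W.ℓ h : ℝ) ≤ dist (pt W a) (n' • pt W (x * h * b)) := by
    intro n' hn' a ha b hb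
    rw [smul_pt, dist_def, out_pt, out_pt]
    have e : a⁻¹ * (n' * (x * h * b)) = (a⁻¹ * x) * (x⁻¹ * n' * x) * h * b := by group
    rw [e]
    have h1 : x⁻¹ * n' * x ∈ R.N := by
      have := hN.conj_mem n' hn' x⁻¹
      rwa [inv_inv] at this
    exact_mod_cast hmin _ (A.mul_mem (A.inv_mem ha) hx) _ h1 b hb
  have r0 : Red R.N (pt W 1) (pt W x) := by
    have := red_of_short hxs 1
    rwa [one_mul] at this
  have r2 : Red R.N (pt W (x * h)) (pt W (x * h * z⁻¹)) := red_of_short (short_inv hzs) (x * h)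
  have d1 : dist (pt W x) (pt W (x * h)) = W.ℓ h := by
    rw [dist_def, out_pt, out_pt, inv_mul_cancel_left]
  have d3 : dist (pt W (x * h * z⁻¹)) (n • pt W 1) = W.ℓ h := by
    rw [smul_base, dist_def, out_pt, out_pt, hnd]
    have : (x * h * z⁻¹)⁻¹ * (x * h * z⁻¹ * h⁻¹) = h⁻¹ := by group
    rw [this, W.inv']
  have r1 : Red R.N (pt W x) (pt W (x * h)) := by
    intro n' hn'
    rw [d1]
    have := hD n' hn' x hx 1 B.one_mem
    rwa [mul_one] at this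
  have r3 : Red R.N (pt W (x * h * z⁻¹)) (n • pt W 1) := by
    intro n' hn'
    rw [d3, smul_smul]
    have := hD (n' * n)⁻¹ (R.N.inv_mem (R.N.mul_mem hn' hnN)) 1 A.one_mem z⁻¹ (B.inv_mem hz)
    rw [← dist_smul (n' * n), smul_inv_smul, dist_comm] at this
    exact this
  let v : ℕ → Pt W := fun i => match i with
    | 0 => pt W 1
    | 1 => pt W x
    | 2 => pt W (x * h)
    | 3 => pt W (x * h * z⁻¹)
    | _ => n • pt W 1
  obtain ⟨S, ρ, hρ, hρ1, q₁, hq₁, q₂, hq₂, hd, hfar, a, b, hab, hb, h₁, h₂⟩ :=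
    poly Y R (by linarith) hnN hn1 v 4 (by norm_num) (by norm_num) rfl
  have hρN : ρ ∈ R.N := R.G_le S hρ
  have excl : ∀ p q : Pt W, Red R.N p q → exc p q q₁ ≤ 210 * Y.θ → exc p q q₂ ≤ 210 * Y.θ →
      False := by
    intro p q hpq h1 h2
    have := hpq.bound Y.hyp hρN h1 h2 hd
    linarith
  -- points on the sides
  have g0 : ∀ {q : Pt W}, exc (pt W 1) (pt W x) q ≤ 16 * Y.θ → ∃ a ∈ A,
      exc (pt W 1) (pt W x) (pt W a) = 0 ∧ dist q (pt W a) ≤ 18 * Y.θ := by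
    intro q hq
    have hq' : exc (pt W 1) (pt W (1 * x)) q ≤ 16 * Y.θ := by rwa [one_mul]
    obtain ⟨a, ha, h3, h4⟩ := geo_near Y.hyp (by linarith) hA hx 1 hq'
    rw [one_mul, one_mul] at h3
    rw [one_mul] at h4
    exact ⟨a, ha, h3, by linarith⟩
  have g2 : ∀ {q : Pt W}, exc (pt W (x * h)) (pt W (x * h * z⁻¹)) q ≤ 16 * Y.θ → ∃ b ∈ B,
      dist q (pt W (x * h * b)) ≤ 18 * Y.θ := by
    intro q hq
    obtain ⟨b, hb, -, h4⟩ := geo_near Y.hyp (by linarith) hB (B.inv_mem hz) (x * h) hq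
    exact ⟨b, hb, by linarith⟩
  have gg : ∀ {s t q : Pt W}, exc s t q ≤ 16 * Y.θ → ∃ u : Pt W, dist s u + dist u t = dist s t ∧
      dist q u ≤ 18 * Y.θ := by
    intro s t q hq
    obtain ⟨u, hu, hu'⟩ := near_geod Y.hyp hq
    exact ⟨u, by unfold exc at hu; linarith, by linarith⟩
  have d87 : ∀ {s t : Pt W}, dist q₁ s ≤ 18 * Y.θ → dist q₂ t ≤ 18 * Y.θ →
      dist (ρ • s) t ≤ 87 * Y.θ := by
    intro s t hs ht
    have h3 := dist_triangle4 (ρ • s) (ρ • q₁) q₂ t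
    rw [dist_smul, dist_comm s q₁] at h3
    linarith
  have hinv : ∀ s t : Pt W, dist s (ρ⁻¹ • t) = dist (ρ • s) t := by
    intro s t
    rw [← dist_smul ρ s, smul_inv_smul]
  interval_cases b
  · interval_cases a
    exact (excl _ _ r0 (h₁.trans (by linarith)) (h₂.trans (by linarith))).elim
  · -- the second point on the first short side
    have h₂' : exc (pt W x) (pt W (x * h)) q₂ ≤ 16 * Y.θ := h₂
    interval_cases a
    · exfalso
      have h₁' : exc (pt W 1) (pt W x) q₁ ≤ 16 * Y.θ := h₁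
      obtain ⟨α, hα, -, hα'⟩ := g0 h₁'
      obtain ⟨t, ht, ht'⟩ := gg h₂'
      have h3 := d87 hα' ht'
      have h4 := hD ρ⁻¹ (R.N.inv_mem hρN) α hα 1 B.one_mem
      rw [mul_one, hinv] at h4
      have h5 := dist_triangle (ρ • pt W α) t (pt W (x * h))
      have h6 := dist_triangle (pt W x) t q₂
      rw [dist_comm t q₂] at h6
      have h7 := exc_le_two' (pt W 1) (pt W x) q₂
      rw [dist_comm q₂ (pt W x)] at h7
      exact excl _ _ r0 (h₁'.trans (by linarith)) (by linarith)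
    · exact (excl _ _ r1 ((show exc (pt W x) (pt W (x * h)) q₁ ≤ 16 * Y.θ from h₁).trans
        (by linarith)) (h₂'.trans (by linarith))).elim
  · -- the second point on the third side
    have h₂' : exc (pt W (x * h)) (pt W (x * h * z⁻¹)) q₂ ≤ 16 * Y.θ := h₂
    obtain ⟨β, hβ, hβ'⟩ := g2 h₂'
    exfalso
    interval_cases a
    · have h₁' : exc (pt W 1) (pt W x) q₁ ≤ 16 * Y.θ := h₁
      obtain ⟨α, hα, -, hα'⟩ := g0 h₁'
      have h3 := d87 hα' hβ'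
      have h4 := hD ρ⁻¹ (R.N.inv_mem hρN) α hα β hβ
      rw [hinv] at h4
      linarith
    · have h₁' : exc (pt W x) (pt W (x * h)) q₁ ≤ 16 * Y.θ := h₁
      obtain ⟨t, ht, ht'⟩ := gg h₁'
      have h3 := d87 ht' hβ'
      have h4 := hD ρ⁻¹ (R.N.inv_mem hρN) x hx β hβ
      have h5 := dist_triangle (pt W x) t (ρ⁻¹ • pt W (x * h * β))
      rw [hinv t] at h5
      have h6 := dist_triangle q₁ t (pt W (x * h))
      have h7 := exc_le_two (pt W (x * h)) (pt W (x * h * z⁻¹)) q₁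
      rw [dist_comm (pt W (x * h)) q₁] at h7
      exact excl _ _ r2 (by linarith) (h₂'.trans (by linarith))
    · exact excl _ _ r2 ((show exc (pt W (x * h)) (pt W (x * h * z⁻¹)) q₁ ≤ 16 * Y.θ from h₁).trans
        (by linarith)) (h₂'.trans (by linarith))
  · -- the second point on the last side
    have h₂' : exc (pt W (x * h * z⁻¹)) (n • pt W 1) q₂ ≤ 16 * Y.θ := h₂
    obtain ⟨t', ht, ht'⟩ := gg h₂'
    interval_cases a
    · left
      have h₁' : exc (pt W 1) (pt W x) q₁ ≤ 16 * Y.θ := h₁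
      obtain ⟨α, hα, hα0, hα'⟩ := g0 h₁'
      have h3 := d87 hα' ht'
      have h4 := hD ρ⁻¹ (R.N.inv_mem hρN) α hα z⁻¹ (B.inv_mem hz)
      rw [hinv] at h4
      have h5 := dist_triangle (ρ • pt W α) t' (pt W (x * h * z⁻¹))
      rw [dist_comm t' (pt W (x * h * z⁻¹))] at h5
      have h6 := dist_triangle (ρ • pt W α) t' (n • pt W 1)
      have h7 := (r0.left hα0) (n⁻¹ * ρ) (R.N.mul_mem (R.N.inv_mem hnN) hρN)
      have h8 : dist (pt W 1) ((n⁻¹ * ρ) • pt W α) = dist (ρ • pt W α) (n • pt W 1) := by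
        rw [mul_smul, ← dist_smul n, smul_inv_smul, dist_comm]
      rw [h8] at h7
      have h9 := dist_triangle (pt W 1) ((n⁻¹ * ρ) • pt W α) ((n⁻¹ * ρ) • pt W 1)
      rw [dist_smul, h8, dist_comm (pt W α) (pt W 1)] at h9
      have hnρ : n = ρ := by
        by_contra hne
        have h10 := far_of_mem Y R (R.N.mul_mem (R.N.inv_mem hnN) hρN)
          (fun hc => hne (inv_mul_eq_one.mp hc)) (pt W 1)
        linarith
      refine ⟨S, by rw [hnρ]; exact hρ, q₁, hq₁, ?_⟩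
      have h11 := dist_triangle (pt W 1) (pt W α) q₁
      rw [dist_comm (pt W α) q₁] at h11
      linarith
    · right
      have h₁' : exc (pt W x) (pt W (x * h)) q₁ ≤ 16 * Y.θ := h₁
      obtain ⟨t, hs, hs'⟩ := gg h₁'
      have h3 := d87 hs' ht'
      refine ⟨x⁻¹ * t.out, n⁻¹ * t'.out, (ρ * t.out)⁻¹ * t'.out, ?_, ?_, ?_, ?_⟩
      · have e1 : dist (pt W x) t = W.ℓ (x⁻¹ * t.out) := by rw [dist_def, out_pt]
        have e2 := dist_nonneg (x := t) (y := pt W (x * h))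
        rw [e1, d1] at hs
        have : (W.ℓ (x⁻¹ * t.out) : ℝ) ≤ W.ℓ h := by linarith
        exact_mod_cast this
      · have e1 : dist t' (n • pt W 1) = W.ℓ (n⁻¹ * t'.out) := by
          rw [dist_comm, smul_base, dist_def, out_pt]
        have e2 := dist_nonneg (x := pt W (x * h * z⁻¹)) (y := t')
        rw [e1, d3] at ht
        have : (W.ℓ (n⁻¹ * t'.out) : ℝ) ≤ W.ℓ h := by linarith
        exact_mod_cast this
      · have e1 : dist (ρ • t) t' = W.ℓ ((ρ * t.out)⁻¹ * t'.out) := by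
          rw [dist_def, smul_out]
        rw [← e1]; exact h3
      · have e1 : x⁻¹ * (n⁻¹ * t'.out * ((ρ * t.out)⁻¹ * t'.out)⁻¹ * (x⁻¹ * t.out)⁻¹) =
            x⁻¹ * (n⁻¹ * ρ) * x := by group
        rw [e1]
        have := hN.conj_mem (n⁻¹ * ρ) (R.N.mul_mem (R.N.inv_mem hnN) hρN) x⁻¹
        rwa [inv_inv] at this
    · exfalso
      have h₁' : exc (pt W (x * h)) (pt W (x * h * z⁻¹)) q₁ ≤ 16 * Y.θ := h₁
      obtain ⟨β, hβ, hβ'⟩ := g2 h₁'
      have h3 := d87 hβ' ht'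
      have h4 := hD (n⁻¹ * ρ) (R.N.mul_mem (R.N.inv_mem hnN) hρN) 1 A.one_mem β hβ
      rw [mul_smul, ← dist_smul n, smul_inv_smul] at h4
      have h5 := dist_triangle (n • pt W 1) t' (ρ • pt W (x * h * β))
      rw [dist_comm (n • pt W 1) t', dist_comm t' (ρ • pt W (x * h * β))] at h5
      have h6 := dist_triangle q₂ t' (pt W (x * h * z⁻¹))
      rw [dist_comm t' (pt W (x * h * z⁻¹))] at h6
      have h7 := exc_le_two' (pt W (x * h)) (pt W (x * h * z⁻¹)) q₂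
      exact excl _ _ r2 (h₁'.trans (by linarith)) (by linarith)
    · exact (excl _ _ r3 ((show exc (pt W (x * h * z⁻¹)) (n • pt W 1) q₁ ≤ 16 * Y.θ from h₁).trans
        (by linarith)) (h₂'.trans (by linarith))).elim

/-- shortest conjugators modulo the killed subgroup are short -/
theorem short_h (Y : Sys Γ W 𝒜) (R : Spw Y) (hM : 4000 * Y.θ ≤ R.M) {A B : Subgroup Γ}
    (hA : Geo W A) (hB : Geo W B) (gA : NGeo W R.N A) (gB : NGeo W R.N B)
    (ss : SSm (⊥ : Subgroup Γ) A B)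
    {h x z : Γ} (hx : x ∈ A) (hz : z ∈ B) (hxi : ∀ k : ℕ, 0 < k → x ^ k ∉ R.N) (hxz : x⁻¹ * (h * z * h⁻¹) ∈ R.N)
    (hmin : ∀ a ∈ A, ∀ n ∈ R.N, ∀ b ∈ B, W.ℓ h ≤ W.ℓ (a * n * h * b)) :
    (W.ℓ h : ℝ) ≤ 87 * Y.θ := by
  classical
  have hδ := Y.hδ
  have hθ := Y.hθ
  have hN := R.normal
  by_contra hl
  push Not at hl
  obtain ⟨R₀, hR₀⟩ := R.cob
  -- the finite sets
  have hF₁ : {g : Γ | W.ℓ g ≤ W.ℓ h}.Finite := W.fin _
  have hF₂ : {g : Γ | W.ℓ g ≤ ⌊87 * Y.θ⌋₊}.Finite := W.fin _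
  have hF₃ : {g : Γ | W.ℓ g ≤ ⌊384 * Y.θ + R₀⌋₊}.Finite := W.fin _
  obtain ⟨F, hFd⟩ : ∃ F : Set Γ, F = ({g : Γ | W.ℓ g ≤ W.ℓ h} * {g : Γ | W.ℓ g ≤ ⌊87 * Y.θ⌋₊}) *
    {g : Γ | W.ℓ g ≤ W.ℓ h} := ⟨_, rfl⟩
  have hF : F.Finite := by rw [hFd]; exact (hF₁.mul hF₂).mul hF₁
  obtain ⟨V, hVd⟩ : ∃ V : Set (Γ ⧸ R.N), V = (fun g : Γ => (g : Γ ⧸ R.N)) '' F ∪
    (fun g : Γ => (g : Γ ⧸ R.N)⁻¹) '' F ∪
    (fun g : Γ => (g : Γ ⧸ R.N)) '' {g : Γ | W.ℓ g ≤ ⌊384 * Y.θ + R₀⌋₊} := ⟨_, rfl⟩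
  have hV : V.Finite := by
    rw [hVd]
    exact ((hF.image _).union (hF.image _)).union (hF₃.image _)
  -- one direction
  have hxz' : (x : Γ ⧸ R.N) = h * z * (h : Γ ⧸ R.N)⁻¹ := by
    rw [← QuotientGroup.eq_one_iff, QuotientGroup.mk_mul, QuotientGroup.mk_inv] at hxz
    exact inv_mul_eq_one.mp hxz
  have hone : ∀ x' ∈ A, ∀ z' ∈ B, (∀ n ∈ R.N, W.ℓ x' ≤ W.ℓ (x' * n)) →
      (∀ n ∈ R.N, W.ℓ z' ≤ W.ℓ (z' * n)) → x' ∉ R.N →
      (x' : Γ ⧸ R.N) = h * z' * (h : Γ ⧸ R.N)⁻¹ →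
      (∃ S, x' * h * z'⁻¹ * h⁻¹ ∈ R.G S ∧ ∃ q ∈ Y.S S, dist (pt W 1) q ≤ 192 * Y.θ) ∨
      ∃ g ∈ F, (x' : Γ ⧸ R.N) = (g : Γ ⧸ R.N) := by
    intro x' hx' z' hz' hxs hzs hx'N hxz'
    have hnN : x' * h * z'⁻¹ * h⁻¹ ∈ R.N := by
      rw [← QuotientGroup.eq_one_iff]
      simp only [QuotientGroup.mk_mul, QuotientGroup.mk_inv, hxz']
      group
    have hn1 : x' * h * z'⁻¹ * h⁻¹ ≠ 1 := by
      intro hc
      apply hx'N
      have h3 := ss x' hx' z' hz' h (by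
        rw [Subgroup.mem_bot]
        have : x' = h * z' * h⁻¹ := by
          have e : x' * h * z'⁻¹ * h⁻¹ = x' * (h * z' * h⁻¹)⁻¹ := by group
          rw [e] at hc
          exact mul_inv_eq_one.mp hc
        rw [← this, inv_mul_cancel])
      rw [Subgroup.mem_bot] at h3
      rw [h3]; exact R.N.one_mem
    rcases quad Y R hM hA hB hx' hz' hxs hzs hmin hl hnN hn1 with h1 | ⟨h₁, h₃, e, e1, e2, e3, e4⟩
    · exact Or.inl h1
    · right
      refine ⟨h₃ * e⁻¹ * h₁⁻¹, ?_, ?_⟩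
      · rw [hFd]
        refine Set.mul_mem_mul (Set.mul_mem_mul e2 ?_) ?_
        · change W.ℓ e⁻¹ ≤ _
          rw [W.inv']
          exact Nat.le_floor e3
        · change W.ℓ h₁⁻¹ ≤ _
          rw [W.inv']; exact e1
      · rw [← QuotientGroup.eq_one_iff, QuotientGroup.mk_mul, QuotientGroup.mk_inv] at e4
        exact inv_mul_eq_one.mp e4
  -- all powers are in a finite set
  have hall : ∀ k : ℕ, 0 < k → (x : Γ ⧸ R.N) ^ k ∈ V := by
    intro k hk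
    have hxkN : x ^ k ∉ R.N := hxi k hk
    obtain ⟨x', hx', hxa, hxs⟩ := gA (x ^ k) (A.pow_mem hx k)
    obtain ⟨z', hz', hzb, hzs⟩ := gB (z ^ k) (B.pow_mem hz k)
    have e1 : (x' : Γ ⧸ R.N) = (x : Γ ⧸ R.N) ^ k := by
      rw [← QuotientGroup.eq_one_iff, QuotientGroup.mk_mul, QuotientGroup.mk_inv] at hxa
      rw [← QuotientGroup.mk_pow]
      exact (inv_mul_eq_one.mp hxa).symm
    have e2 : (z' : Γ ⧸ R.N) = (z : Γ ⧸ R.N) ^ k := by
      rw [← QuotientGroup.eq_one_iff, QuotientGroup.mk_mul, QuotientGroup.mk_inv] at hzb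
      rw [← QuotientGroup.mk_pow]
      exact (inv_mul_eq_one.mp hzb).symm
    have e3 : (x' : Γ ⧸ R.N) = h * z' * (h : Γ ⧸ R.N)⁻¹ := by
      rw [e1, e2, hxz', conj_pow]
    have hx'N : x' ∉ R.N := by
      intro hc
      apply hxkN
      rw [← QuotientGroup.eq_one_iff, QuotientGroup.mk_pow, ← e1, QuotientGroup.eq_one_iff]
      exact hc
    have hx'N' : x'⁻¹ ∉ R.N := fun hc => hx'N (by simpa using R.N.inv_mem hc)
    have e3' : ((x'⁻¹ : Γ) : Γ ⧸ R.N) = h * ((z'⁻¹ : Γ) : Γ ⧸ R.N) * (h : Γ ⧸ R.N)⁻¹ := by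
      rw [QuotientGroup.mk_inv, QuotientGroup.mk_inv, e3]; group
    rw [← e1, hVd]
    rcases hone x' hx' z' hz' hxs hzs hx'N e3 with ⟨S, hS, q, hq, hq1⟩ | ⟨g, hg, hg1⟩
    swap
    · exact Or.inl (Or.inl ⟨g, hg, hg1.symm⟩)
    rcases hone x'⁻¹ (A.inv_mem hx') z'⁻¹ (B.inv_mem hz') (short_inv hxs) (short_inv hzs) hx'N' e3'
      with ⟨S', hS', q', hq', hq1'⟩ | ⟨g, hg, hg1⟩
    swap
    · refine Or.inl (Or.inr ⟨g, hg, ?_⟩)
      change (g : Γ ⧸ R.N)⁻¹ = _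
      rw [← hg1, QuotientGroup.mk_inv, inv_inv]
    right
    -- the same axis at the two ends
    obtain ⟨n, hnd⟩ : ∃ n, n = x' * h * z'⁻¹ * h⁻¹ := ⟨_, rfl⟩
    rw [← hnd] at hS
    have hn1 : n ≠ 1 := by
      intro hc
      apply hx'N
      rw [hnd] at hc
      have h3 := ss x' hx' z' hz' h (by
        rw [Subgroup.mem_bot]
        have : x' = h * z' * h⁻¹ := by
          have e : x' * h * z'⁻¹ * h⁻¹ = x' * (h * z' * h⁻¹)⁻¹ := by group
          rw [e] at hc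
          exact mul_inv_eq_one.mp hc
        rw [← this, inv_mul_cancel])
      rw [Subgroup.mem_bot] at h3
      rw [h3]; exact R.N.one_mem
    have hn' : x'⁻¹ * h * z'⁻¹⁻¹ * h⁻¹ = x'⁻¹ * n⁻¹ * x' := by rw [hnd]; group
    rw [hn'] at hS'
    have hfix' := R.fix S' _ hS'
    have hfix2 : n • (x' • S') = x' • S' := by
      have e4 : (x'⁻¹ * n⁻¹ * x')⁻¹ • S' = S' := by rw [inv_smul_eq_iff, hfix']
      calc n • x' • S' = x' • ((x'⁻¹ * n⁻¹ * x')⁻¹ • S') := by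
            rw [smul_smul, smul_smul]; congr 1; group
        _ = x' • S' := by rw [e4]
    have hfix1 := R.fix S _ hS
    have hq2 : x' • q' ∈ Y.S (x' • S') := Y.smul_mem _ _ _ hq'
    have hSS : S = x' • S' := by
      by_contra hne
      have h4 := Y.small S (x' • S') hne _ hq2 _ (by
        have := Y.smul_mem n _ _ hq2
        rwa [hfix2] at this)
      obtain ⟨π, hπ⟩ := Y.proj S (x' • q')
      have h5 := IsProj.fix Y hfix1 hπ
      have h6 := le_pd_of_proj hπ h5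
      have h7 := R.spin S n hS hn1 π hπ.1
      linarith
    rw [← hSS] at hq2
    obtain ⟨r', hr', hd⟩ := hR₀ S q hq _ hq2
    refine ⟨x', ?_, rfl⟩
    have hred : Red R.N (pt W 1) (pt W x') := by
      have := red_of_short hxs 1
      rwa [one_mul] at this
    have h4 := hred r' (R.G_le S hr')
    have h5 := dist_triangle4 (pt W 1) q (r' • x' • q') (r' • pt W x')
    rw [dist_smul] at h5
    have h6 : dist (x' • q') (pt W x') ≤ 192 * Y.θ := by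
      have e5 : pt W x' = x' • pt W 1 := by rw [smul_base]
      rw [e5, dist_smul, dist_comm]
      exact hq1'
    have h7 : dist (pt W 1) (pt W x') = W.ℓ x' := by
      rw [dist_def, out_pt, out_pt, inv_one, one_mul]
    rw [h7] at h4
    change W.ℓ x' ≤ ⌊384 * Y.θ + R₀⌋₊
    exact Nat.le_floor (by linarith)
  -- pigeonhole
  have hinj : Set.InjOn (fun k : ℕ => (x : Γ ⧸ R.N) ^ (k + 1)) Set.univ := by
    have key : ∀ i j : ℕ, i < j → (x : Γ ⧸ R.N) ^ (i + 1) ≠ (x : Γ ⧸ R.N) ^ (j + 1) := by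
      intro i j hij heq
      apply hxi (j - i) (by omega)
      rw [← QuotientGroup.eq_one_iff, QuotientGroup.mk_pow]
      have e : j + 1 = (i + 1) + (j - i) := by omega
      rw [e, pow_add _ (i + 1) (j - i)] at heq
      exact (mul_eq_left.mp heq.symm)
    intro i _ j _ hij
    by_contra hne
    rcases lt_or_gt_of_ne hne with h1 | h1
    · exact key i j h1 hij
    · exact key j i h1 hij.symm
  exact Set.infinite_univ (Set.Finite.of_finite_image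
    (hV.subset (by rintro _ ⟨k, -, rfl⟩; exact hall (k + 1) (by omega))) hinj)

end sh

end Pool.Agent.Y44.FG
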