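import Pool.Agent.TH82.FG.T1

set_option autoImplicit false
set_option linter.unusedSectionVars false

/-!
# Weak spinning families (helper44)

Spinning families in which nothing is assumed on the stabilizers of the axes.
-/

namespace Pool.Agent.Y44.FG

open Pool.Agent.TH68 Pool.Agent.Helper97.Hyp Pool.Agent.TH82.FG

/-- a spinning family on a system of axes -/
structure Spw {Γ : Type*} [Group Γ] {W : WNorm Γ} {𝒜 : Type*} [MulAction Γ 𝒜]
    (Y : Sys Γ W 𝒜) where
  M : ℝ
  N : Subgroup Γ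
  normal : N.Normal
  G : 𝒜 → Subgroup Γ
  G_le : ∀ A, G A ≤ N
  fix : ∀ A, ∀ r ∈ G A, r • A = A
  spin : ∀ A, ∀ r ∈ G A, r ≠ 1 → ∀ q ∈ Y.S A, M ≤ dist q (r • q)
  /-- the windmill property -/
  wind : ∀ n ∈ N, n ≠ 1 → ∀ x : Pt W,
    ∃ A, ∃ r ∈ G A, r ≠ 1 ∧ pd (Y.S A) (r • x) (n • x) ≤ 50 * Y.θ
  /-- rotations are cobounded on the axis -/
  cob : ∃ R : ℝ, ∀ A, ∀ p ∈ Y.S A, ∀ q ∈ Y.S A, ∃ r ∈ G A, dist p (r • q) ≤ R

attribute [instance] Spw.normal

section

variable {Γ : Type*} [Group Γ] {W : WNorm Γ} {𝒜 : Type*} [MulAction Γ 𝒜] {Y : Sys Γ W 𝒜}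

/-- forgetting the stabilizers -/
def ofSpq (R : Spq Y) : Spw Y where
  M := R.M
  N := R.N
  normal := R.normal
  G := R.G
  G_le := R.G_le
  fix := R.fix
  spin := R.spin
  wind := R.wind
  cob := R.cob

@[simp] lemma ofSpq_M (R : Spq Y) : (ofSpq R).M = R.M := rfl
@[simp] lemma ofSpq_N (R : Spq Y) : (ofSpq R).N = R.N := rfl

end

section t1

variable {Γ : Type*} [Group Γ] {W : WNorm Γ} {𝒜 : Type*} [MulAction Γ 𝒜]

/-- elements of the killed subgroup rotate strongly about an axis -/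
lemma factW (Y : Sys Γ W 𝒜) (R : Spw Y) (hM : 53 * Y.θ < R.M) {n : Γ} (hn : n ∈ R.N)
    (hn1 : n ≠ 1) (x : Pt W) :
    ∃ A, ∃ r ∈ R.G A, ∃ q1 ∈ Y.S A, ∃ q2 ∈ Y.S A, dist (r • q1) q2 ≤ 51 * Y.θ ∧
      R.M - 51 * Y.θ ≤ dist q1 q2 ∧
      dist x q1 + dist q1 q2 + dist q2 (n • x) ≤ dist x (n • x) + 4 * Y.θ := by
  have hδ := Y.hδ
  have hθ := Y.hθ
  obtain ⟨A, r, hr, hr1, hpd⟩ := R.wind n hn hn1 x
  obtain ⟨q1, hq1⟩ := Y.proj A x
  obtain ⟨q2, hq2⟩ := Y.proj A (n • x)
  have h1 : IsProj Y.θ (Y.S A) (r • x) (r • q1) := hq1.smul (Y.mem_iff (R.fix A r hr))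
  have h2 := le_pd_of_proj h1 hq2
  have h3 := R.spin A r hr hr1 q1 hq1.1
  have h4 := dist_triangle q1 q2 (r • q1)
  rw [dist_comm q2 (r • q1)] at h4
  refine ⟨A, r, hr, q1, hq1.1, q2, hq2.1, by linarith, by linarith, ?_⟩
  have h5 := far_of_proj Y.hyp hq1 hq2 (by linarith)
  rw [dist_comm (n • x) q2] at h5
  linarith

/-- elements of the killed subgroup have large displacement -/
theorem far_of_mem (Y : Sys Γ W 𝒜) (R : Spw Y) {n : Γ} (hn : n ∈ R.N)
    (hn1 : n ≠ 1) (x : Pt W) : R.M - 60 * Y.θ ≤ dist x (n • x) := by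
  have hδ := Y.hδ
  have hθ := Y.hθ
  obtain ⟨A, r, hr, hr1, hpd⟩ := R.wind n hn hn1 x
  obtain ⟨q1, hq1⟩ := Y.proj A x
  have h1 : IsProj Y.θ (Y.S A) (r • x) (r • q1) := hq1.smul (Y.mem_iff (R.fix A r hr))
  have h2 := le_pd_of_proj hq1 h1
  have h3 := R.spin A r hr hr1 q1 hq1.1
  have h4 := pd_tri (Y.Sne A) x (n • x) (r • x)
  have h5 := pd_le_dist (Y.Sne A) x (n • x)
  rw [pd_symm (Y.Sne A)] at hpd
  linarith

/-- the case of a small displacement -/
lemma short_case (Y : Sys Γ W 𝒜) (R : Spw Y) (hM : 2000 * Y.θ ≤ R.M) {v : Γ}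
    (hfin : ¬ IsOfFinOrder v) {x : Pt W} (hl : dist x (v • x) ≤ 100 * Y.θ) (k : ℕ) (hk : 0 < k)
    (hvN : v ^ k ∈ R.N) : ∃ A : 𝒜, v • A = A := by
  have hδ := Y.hδ
  have hθ := Y.hθ
  have hvk : v ^ k ≠ 1 := by
    intro h1
    exact hfin (isOfFinOrder_iff_pow_eq_one.2 ⟨k, hk, h1⟩)
  obtain ⟨A, r, hr, q1, hq1, q2, hq2, w1, w2, w3⟩ := factW Y R (by linarith) hvN hvk x
  refine ⟨A, ?_⟩
  obtain ⟨xk, hxk⟩ : ∃ xk, xk = v ^ k • x := ⟨_, rfl⟩
  rw [← hxk] at w3
  have hvx : dist xk (v • xk) ≤ 100 * Y.θ := by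
    have : v • xk = v ^ k • v • x := by
      rw [hxk, smul_smul, smul_smul, ← pow_succ, ← pow_succ']
    rw [this, hxk, dist_smul]; exact hl
  have e1 : exc x xk q1 ≤ 4 * Y.θ := by
    have := dist_triangle q1 q2 xk
    unfold exc; linarith
  have e2 : exc x xk q2 ≤ 4 * Y.θ := by
    have := dist_triangle x q1 q2
    unfold exc; linarith
  have key : ∀ q : Pt W, exc x xk q ≤ 4 * Y.θ → dist (v • q) q ≤ 510 * Y.θ := by
    intro q hq
    have h1 : exc (v • x) (v • xk) (v • q) ≤ 4 * Y.θ := by rw [exc_smul]; exact hq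
    have h2 := exc_move_left (v • x) x (v • xk) (v • q)
    have h3 := exc_move_right x (v • xk) xk (v • q)
    rw [dist_comm (v • x) x] at h2
    rw [dist_comm (v • xk) xk] at h3
    have h4 : exc x xk (v • q) ≤ 404 * Y.θ := by linarith
    have h5 := order_close Y.hyp h4 (hq.trans (by linarith : 4 * Y.θ ≤ 404 * Y.θ))
    have h6 : |dist x (v • q) - dist x q| ≤ 100 * Y.θ := by
      have h7 : dist (v • x) (v • q) = dist x q := dist_smul _ _ _
      have h8 := dist_triangle x (v • x) (v • q)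
      have h9 := dist_triangle (v • x) x (v • q)
      rw [dist_comm (v • x) x] at h9
      rw [abs_le]
      constructor <;> linarith
    linarith
  by_contra hne
  have h7 := Y.small A (v • A) (fun h => hne h.symm) (v • q1) (Y.smul_mem v A q1 hq1) (v • q2)
    (Y.smul_mem v A q2 hq2)
  have hself : ∀ q ∈ Y.S A, IsProj Y.θ (Y.S A) q q := by
    intro q hq
    refine ⟨hq, fun s _ => ?_⟩
    rw [dist_self]; linarith
  have h8 := le_pd_of_proj (hself q1 hq1) (hself q2 hq2)
  have h9 := pd_tri (Y.Sne A) q1 (v • q1) q2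
  have h10 := pd_tri (Y.Sne A) (v • q1) (v • q2) q2
  have h11 := pd_le_dist (Y.Sne A) q1 (v • q1)
  have h12 := pd_le_dist (Y.Sne A) (v • q2) q2
  have h13 := key q1 e1
  have h14 := key q2 e2
  rw [dist_comm] at h13
  linarith

/-- elements of finite order in the quotient lift to elements of finite order or to elements
preserving an axis -/
theorem t1w (Y : Sys Γ W 𝒜) (R : Spw Y) (hR2 : 2000 * Y.θ ≤ R.M) (u : Γ) (k : ℕ) (hk : 0 < k)
    (hN : u ^ k ∈ R.N) :
    ∃ n ∈ R.N, IsOfFinOrder (n * u) ∨ ∃ A : 𝒜, (n * u) • A = A := by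
  classical
  have hδ := Y.hδ
  have hθ := Y.hθ
  -- the lift of least displacement
  obtain ⟨⟨n, x⟩, hmin⟩ : ∃ t : R.N × Pt W, ∀ t' : R.N × Pt W,
      nd t.2 (((t.1 : Γ) * u) • t.2) ≤ nd t'.2 (((t'.1 : Γ) * u) • t'.2) := by
    have hne : (Set.univ : Set (R.N × Pt W)).Nonempty := ⟨(1, pt W 1), trivial⟩
    obtain ⟨t, ht⟩ := WellFounded.has_min
      (measure fun t : R.N × Pt W => nd t.2 (((t.1 : Γ) * u) • t.2)).wf Set.univ hne
    exact ⟨t, fun t' => not_lt.1 (ht.2 t' trivial)⟩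
  obtain ⟨v, hv⟩ : ∃ v, v = (n : Γ) * u := ⟨_, rfl⟩
  have hmin' : ∀ g ∈ R.N, ∀ y : Pt W, dist x (v • x) ≤ dist y ((g * v) • y) := by
    intro g hg y
    have := hmin (⟨g * n, R.N.mul_mem hg n.2⟩, y)
    rw [dist_eq_nd, dist_eq_nd, hv, ← mul_assoc]
    exact_mod_cast this
  have hvN : v ^ k ∈ R.N := by
    rw [← QuotientGroup.eq_one_iff] at hN ⊢
    rw [QuotientGroup.mk_pow] at hN ⊢
    rw [hv, QuotientGroup.mk_mul, (QuotientGroup.eq_one_iff (n : Γ)).2 n.2, one_mul]
    exact hN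
  refine ⟨n, n.2, ?_⟩
  rw [← hv]
  by_cases hfin : IsOfFinOrder v
  · exact Or.inl hfin
  right
  by_cases hl : dist x (v • x) ≤ 100 * Y.θ
  · exact short_case Y R hR2 hfin hl k hk hvN
  push Not at hl
  obtain ⟨l, hld⟩ : ∃ l, l = dist x (v • x) := ⟨_, rfl⟩
  rw [← hld] at hl hmin'
  -- the midpoint
  obtain ⟨L, hL⟩ : ∃ L : ℕ, l = L := ⟨nd x (v • x), by rw [hld, dist_eq_nd]⟩
  obtain ⟨h, hh⟩ : ∃ h : ℕ, h = L / 2 := ⟨_, rfl⟩
  have hh1 : (2 : ℝ) * h ≤ l := by
    rw [hL]
    have : 2 * h ≤ L := by omega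
    exact_mod_cast this
  have hh2 : l - 1 ≤ (2 : ℝ) * h := by
    rw [hL]
    have : L ≤ 2 * h + 1 := by omega
    have : (L : ℝ) ≤ 2 * h + 1 := by exact_mod_cast this
    linarith
  have hh0 : (0 : ℝ) ≤ h := Nat.cast_nonneg _
  obtain ⟨y, hy1, hy2⟩ := exists_between x (v • x) h (by rw [← hld]; linarith)
  rw [← hld] at hy2
  have hy3 : dist (v • x) (v • y) = h := by rw [dist_smul]; exact hy1
  have hy4 : l ≤ dist y (v • y) := by
    have := hmin' 1 R.N.one_mem y
    rwa [one_mul] at this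
  have hvv : dist (v • x) (v ^ 2 • x) = l := by
    rw [pow_two, mul_smul, dist_smul, ← hld]
  have e0 : exc y (v • y) (v • x) ≤ 0 := by
    unfold exc; linarith
  have e1 : exc x (v • y) (v • x) ≤ 2 * Y.δ := by
    rcases exc_split Y.hyp y (v • y) x (v • x) with h1 | h1
    · exfalso
      unfold exc at h1 e0
      rw [dist_comm (v • x) x, ← hld, dist_comm y x, hy1, hy2] at h1
      rw [hy2] at e0
      linarith
    · linarith
  have e2 : exc x (v ^ 2 • x) (v • x) ≤ 4 * Y.δ := by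
    rcases exc_split Y.hyp x (v • y) (v ^ 2 • x) (v • x) with h1 | h1
    · linarith
    · exfalso
      have h2 : dist (v ^ 2 • x) (v • y) = l - h := by
        rw [pow_two, mul_smul, dist_smul, dist_comm, hy2]
      have h3 : exc (v ^ 2 • x) (v • y) (v • x) = 2 * h := by
        unfold exc
        rw [h2, hy3, dist_comm (v ^ 2 • x) (v • x), hvv]; ring
      rw [h3] at h1
      linarith
  -- the broken geodesic
  have b1 : ∀ i : ℕ, exc (v ^ i • x) (v ^ (i + 2) • x) (v ^ (i + 1) • x) ≤ 4 * Y.δ := by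
    intro i
    have := exc_smul (v ^ i) x (v ^ 2 • x) (v • x)
    rw [smul_smul, smul_smul, ← pow_add, ← pow_succ] at this
    rw [this]; exact e2
  have b2 : ∀ i : ℕ, dist (v ^ i • x) (v ^ (i + 1) • x) = l := by
    intro i
    rw [pow_succ, mul_smul, dist_smul, ← hld]
  have b3 : ∀ {i j m : ℕ}, i ≤ j → j ≤ m →
      exc (v ^ i • x) (v ^ m • x) (v ^ j • x) ≤ 8 * Y.δ := by
    intro i j m hij hjm
    have := bg Y.hyp (x := fun i => v ^ i • x) (a := 4 * Y.δ) (by linarith) b1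
      (fun i => by
        change 4 * Y.δ + 3 * Y.δ < dist (v ^ i • x) (v ^ (i + 1) • x)
        rw [b2]; linarith) hij hjm
    change exc (v ^ i • x) (v ^ m • x) (v ^ j • x) ≤ 4 * Y.δ + 4 * Y.δ at this
    linarith
  have hvk : v ^ k ≠ 1 := by
    intro h1
    exact hfin (isOfFinOrder_iff_pow_eq_one.2 ⟨k, hk, h1⟩)
  obtain ⟨A, r, hr, q1, hq1, q2, hq2, w1, w2, w3⟩ := factW Y R (by linarith) hvN hvk x
  obtain ⟨w, hw⟩ : ∃ w, w = v ^ (k + 1) • x := ⟨_, rfl⟩
  obtain ⟨xk, hxk⟩ : ∃ xk, xk = v ^ k • x := ⟨_, rfl⟩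
  rw [← hxk] at w3
  have c1 : exc x w xk ≤ 8 * Y.δ := by
    have := b3 (i := 0) (j := k) (m := k + 1) (by omega) (by omega)
    rwa [pow_zero, one_smul, ← hw, ← hxk] at this
  have c2 : exc x w (v • x) ≤ 8 * Y.δ := by
    have := b3 (i := 0) (j := 1) (m := k + 1) (by omega) (by omega)
    rwa [pow_zero, one_smul, ← hw, pow_one] at this
  have hvxk : v • xk = w := by rw [hxk, hw, pow_succ', mul_smul]
  -- distances of `v q` in terms of the distances of `q`
  have t1' : dist (v • x) (v • q1) = dist x q1 := dist_smul _ _ _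
  have t2' : dist (v • x) (v • q2) = dist x q2 := dist_smul _ _ _
  have t3' : dist (v • q1) w = dist q1 xk := by rw [← hvxk, dist_smul]
  have t4' : dist (v • q2) w = dist q2 xk := by rw [← hvxk, dist_smul]
  have t5' : dist (v • x) w = dist x xk := by rw [← hvxk, dist_smul]
  have t6 := dist_triangle q1 q2 xk
  have t7 := dist_triangle x q1 q2
  have t8 := dist_triangle x (v • x) (v • q1)
  have t9 := dist_triangle x (v • x) (v • q2)
  rw [t1', ← hld] at t8
  rw [t2', ← hld] at t9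
  unfold exc at c1 c2
  rw [← hld, t5'] at c2
  have t10 := dist_triangle x (v • q1) w
  have t11 := dist_triangle x (v • q2) w
  have t12 := dist_triangle x q2 xk
  rw [t3'] at t10
  rw [t4'] at t11
  have d1 : exc x w q1 ≤ 12 * Y.θ := by
    have := dist_triangle q1 xk w
    unfold exc; linarith
  have d2 : exc x w q2 ≤ 12 * Y.θ := by
    have := dist_triangle q2 xk w
    unfold exc; linarith
  have d3 : exc x w (v • q1) ≤ 12 * Y.θ := by
    unfold exc
    rw [t3']
    linarith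
  have d4 : exc x w (v • q2) ≤ 12 * Y.θ := by
    unfold exc
    rw [t4']
    linarith
  by_cases hcase : dist x q2 - dist x q1 ≤ l + 21 * Y.θ
  · exfalso
    have f1 := order_close Y.hyp d3 d2
    have f2 := hmin' r⁻¹ (R.N.inv_mem (R.G_le A hr)) q1
    have f3 : dist q1 ((r⁻¹ * v) • q1) = dist (r • q1) (v • q1) := by
      rw [mul_smul, ← dist_smul r, smul_inv_smul]
    rw [f3] at f2
    have f4 := dist_triangle (r • q1) q2 (v • q1)
    rw [dist_comm q2 (v • q1)] at f4
    rcases abs_cases (dist x (v • q1) - dist x q2) with ⟨f5, -⟩ | ⟨f5, -⟩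
    · rw [f5] at f1
      linarith
    · rw [f5] at f1
      linarith
  · push Not at hcase
    refine ⟨A, ?_⟩
    by_contra hne
    have g0 := Y.small A (v • A) (fun h => hne h.symm) (v • q1) (Y.smul_mem v A q1 hq1) (v • q2)
      (Y.smul_mem v A q2 hq2)
    have g1 := le_pd (S := Y.S A) (p := v • q1) (q := v • q2) hq2 hq1
    have g2 := order_close Y.hyp d3 d1
    have g3 := order_close Y.hyp d4 d2
    have g4 := dist_triangle x (v • q1) q2
    have g5 := dist_triangle x q1 (v • q2)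
    rw [dist_comm q1 (v • q2)] at g5
    have g6 : |dist x (v • q1) - dist x q1| ≤ l := by
      rw [abs_le]
      constructor <;> linarith
    have g7 : |dist x (v • q2) - dist x q2| ≤ l := by
      rw [abs_le]
      constructor <;> linarith
    linarith

/-- congruent elements with small displacement -/
theorem congw (Y : Sys Γ W 𝒜) (R : Spw Y) (C : ℝ) (hM : 100 * C + 1000 * Y.θ ≤ R.M)
    (y y' : Γ) (p q : Pt W) (hN : y' * y⁻¹ ∈ R.N) (hne : y ≠ y')
    (hp : dist p (y • p) ≤ C) (hq : dist q (y' • q) ≤ C)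
    (hmin : ∀ n ∈ R.N, dist p q ≤ dist p (n • q)) :
    ∃ A : 𝒜, y' • A = A ∧ ∃ a ∈ Y.S A, ∃ b ∈ Y.S A, dist a (y' • a) ≠ dist b (y' • b) := by
  have hδ := Y.hδ
  have hθ := Y.hθ
  have hC : 0 ≤ C := dist_nonneg.trans hp
  set θ := Y.θ with hθdef
  set δ := Y.δ with hδdef
  have hθ1 : 1 ≤ θ := hδ.trans hθ
  -- the rotation
  have hn1 : y' * y⁻¹ ≠ 1 := by
    intro h
    exact hne (mul_inv_eq_one.mp h).symm
  obtain ⟨A, r, hrG, hr1, hrn⟩ := R.wind _ hN hn1 p
  have hrN : r ∈ R.N := R.G_le A hrG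
  have hrA : r • A = A := R.fix A r hrG
  have hSne := Y.Sne A
  obtain ⟨a, ha⟩ := Y.proj A p
  obtain ⟨b, hb⟩ := Y.proj A q
  obtain ⟨a', ha'⟩ := Y.proj A (y' • p)
  obtain ⟨b', hb'⟩ := Y.proj A (y' • q)
  -- the basic estimates
  have hra : IsProj θ (Y.S A) (r • p) (r • a) := ha.smul (t23_mem_iff Y hrA)
  have hra' : IsProj θ (Y.S A) (r⁻¹ • (y' • p)) (r⁻¹ • a') := by
    have hrA' : r⁻¹ • A = A := by rw [inv_smul_eq_iff]; exact hrA.symm
    exact ha'.smul (t23_mem_iff Y hrA')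
  have e1 : dist b b' ≤ C + θ := by
    have h1 := le_pd_of_proj hb hb'
    have h2 := pd_le_dist hSne q (y' • q)
    linarith
  have e2 : dist a' (r • a) ≤ C + 51 * θ := by
    have h1 := le_pd_of_proj ha' hra
    have h2 := pd_tri hSne (y' • p) ((y' * y⁻¹) • p) (r • p)
    have h3 := pd_le_dist hSne (y' • p) ((y' * y⁻¹) • p)
    have h4 : dist (y' • p) ((y' * y⁻¹) • p) = dist p (y • p) := by
      rw [mul_smul, dist_smul, ← dist_smul y, smul_inv_smul, dist_comm]
    rw [pd_symm hSne (r • p)] at hrn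
    linarith
  -- (1)
  have k1 : dist a b ≤ dist (r • a) b + 4 * θ := by
    by_cases hfar : θ + δ < dist a b
    · have h1 := far_of_proj Y.hyp ha hb hfar
      have h2 := hmin r⁻¹ (inv_mem hrN)
      have h3 : dist p (r⁻¹ • q) = dist (r • p) q := by
        rw [← dist_smul r, smul_inv_smul]
      have h4 := dist_triangle4 (r • p) (r • a) b q
      rw [dist_smul, dist_comm b q] at h4
      linarith
    · have := dist_nonneg (x := r • a) (y := b)
      linarith
  have k2 : dist a' b' ≤ dist (r⁻¹ • a') b' + 4 * θ := by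
    by_cases hfar : θ + δ < dist a' b'
    · have h1 := far_of_proj Y.hyp ha' hb' hfar
      have h2 := hmin (y'⁻¹ * r * y') (by
        have := R.normal.conj_mem r hrN y'⁻¹
        simpa using this)
      have h3 : dist p ((y'⁻¹ * r * y') • q) = dist (r⁻¹ • (y' • p)) (y' • q) := by
        rw [mul_assoc, mul_smul, mul_smul, ← dist_smul y', smul_inv_smul, ← dist_smul r⁻¹,
          inv_smul_smul]
      have h4 := dist_triangle4 (r⁻¹ • (y' • p)) (r⁻¹ • a') b' (y' • q)
      rw [dist_smul, dist_comm b' _] at h4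
      have h5 : dist (y' • p) (y' • q) = dist p q := dist_smul _ _ _
      linarith
    · have := dist_nonneg (x := r⁻¹ • a') (y := b')
      linarith
  have k3 : dist (r • a) b ≤ dist a' b' + (2 * C + 52 * θ) := by
    have h1 := dist_triangle4 (r • a) a' b' b
    rw [dist_comm (r • a) a', dist_comm b' b] at h1
    linarith
  have k3' : dist a' b' ≤ dist (r • a) b + (2 * C + 52 * θ) := by
    have h1 := dist_triangle4 a' (r • a) b b'
    linarith
  have k4 : dist (r⁻¹ • a') b' ≤ dist a b + (2 * C + 52 * θ) := by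
    have h1 := dist_triangle4 (r⁻¹ • a') a b b'
    have h2 : dist (r⁻¹ • a') a = dist a' (r • a) := by
      rw [← dist_smul r, smul_inv_smul]
    linarith
  have k5 : R.M ≤ dist a (r • a) := R.spin A r hrG hr1 a ha.1
  have k6 : dist a (r • a) ≤ dist a b + dist (r • a) b := by
    have := dist_triangle a b (r • a)
    rwa [dist_comm b (r • a)] at this
  have k7 : dist (r • a) b ≤ dist a b + (4 * C + 108 * θ) := by linarith
  have k8 : R.M / 2 - 2 * C - 54 * θ ≤ dist a b := by linarith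
  have k9 : R.M / 2 - 2 * C - 54 * θ ≤ dist a' b' := by linarith
  have f1 := far_of_proj Y.hyp ha hb (show θ + δ < dist a b by linarith)
  have f2 := far_of_proj Y.hyp ha' hb' (show θ + δ < dist a' b' by linarith)
  have f3 : dist (y' • p) (y' • q) = dist p q := dist_smul _ _ _
  -- excesses
  have g1 : exc q p a ≤ 4 * θ := by
    have h1 := dist_triangle q b a
    unfold exc
    rw [dist_comm b a] at h1
    rw [dist_comm a p, dist_comm q p]
    linarith
  have g2 : exc q p b ≤ 4 * θ := by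
    have h1 := dist_triangle b a p
    unfold exc
    rw [dist_comm b a, dist_comm a p] at h1
    rw [dist_comm q p]
    linarith
  have g3 : exc q p (y'⁻¹ • a') ≤ 4 * θ := by
    have h0 := exc_smul y' q p (y'⁻¹ • a')
    rw [smul_inv_smul] at h0
    rw [← h0]
    have h1 := dist_triangle (y' • q) b' a'
    unfold exc
    rw [dist_comm b' a'] at h1
    rw [dist_comm a' _, dist_comm (y' • q) (y' • p)]
    linarith
  have g4 : exc q p (y'⁻¹ • b') ≤ 4 * θ := by
    have h0 := exc_smul y' q p (y'⁻¹ • b')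
    rw [smul_inv_smul] at h0
    rw [← h0]
    have h1 := dist_triangle b' a' (y' • p)
    unfold exc
    rw [dist_comm b' a', dist_comm a' (y' • p)] at h1
    rw [dist_comm (y' • q) (y' • p)]
    linarith
  have m1 : dist q (y'⁻¹ • b') = dist (y' • q) b' := by
    rw [← dist_smul y', smul_inv_smul]
  have m2 : dist q (y'⁻¹ • a') = dist (y' • q) a' := by
    rw [← dist_smul y', smul_inv_smul]
  have n1 : |dist q b - dist q (y'⁻¹ • b')| ≤ 2 * C + θ := by
    rw [m1, abs_le]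
    have h1 := dist_triangle4 q (y' • q) b' b
    have h2 := dist_triangle4 (y' • q) q b b'
    rw [dist_comm b' b] at h1
    rw [dist_comm (y' • q) q] at h2
    constructor <;> linarith
  have n2 : |dist q a - dist q (y'⁻¹ • a')| ≤ 8 * C + 165 * θ := by
    rw [m1, abs_le] at n1
    rw [m2, abs_le]
    have h1 := dist_triangle q b a
    have h2 := dist_triangle (y' • q) b' a'
    have h3 := dist_triangle p a q
    have h4 := dist_triangle (y' • p) a' (y' • q)
    rw [dist_comm b a] at h1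
    rw [dist_comm b' a'] at h2
    rw [dist_comm a q] at h3
    rw [dist_comm a' (y' • q)] at h4
    constructor <;> linarith [n1.1, n1.2]
  have o1 : dist b (y'⁻¹ • b') ≤ 2 * C + 7 * θ := by
    have := order_close Y.hyp g2 g4
    linarith
  have o2 : dist a (y'⁻¹ • a') ≤ 8 * C + 171 * θ := by
    have := order_close Y.hyp g1 g3
    linarith
  -- the axis is preserved
  have hinv : y'⁻¹ • A = A := by
    by_contra hcon
    have h1 := Y.small A (y'⁻¹ • A) (fun h => hcon h.symm) (y'⁻¹ • a')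
      (Y.smul_mem _ _ _ ha'.1) (y'⁻¹ • b') (Y.smul_mem _ _ _ hb'.1)
    have h2 := le_pd_of_proj (t23_self (c := θ) (by linarith) ha.1)
      (t23_self (c := θ) (by linarith) hb.1)
    have h3 := pd_tri hSne a (y'⁻¹ • a') b
    have h4 := pd_tri hSne (y'⁻¹ • a') (y'⁻¹ • b') b
    have h5 := pd_le_dist hSne a (y'⁻¹ • a')
    have h6 := pd_le_dist hSne (y'⁻¹ • b') b
    rw [dist_comm _ b] at h6
    linarith
  have hA : y' • A = A := by
    rw [inv_smul_eq_iff] at hinv
    exact hinv.symm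
  refine ⟨A, hA, a, ha.1, b, hb.1, ?_⟩
  intro h1
  have h2 : dist b' (y' • b) = dist b (y'⁻¹ • b') := by
    rw [← dist_smul y' b, smul_inv_smul, dist_comm]
  have h3 : dist a' (y' • a) = dist a (y'⁻¹ • a') := by
    rw [← dist_smul y' a, smul_inv_smul, dist_comm]
  have h4 := dist_triangle b b' (y' • b)
  have h5 := dist_triangle4 a (y' • a) a' (r • a)
  rw [dist_comm (y' • a) a'] at h5
  linarith

end t1

end Pool.Agent.Y44.FG
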