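import Pool.Agent.Y44.FG.Cls
import Pool.Agent.TH82.FG.Alg

set_option autoImplicit false
set_option linter.unusedSectionVars false

/-!
# The state of the construction, with torsion (helper44)

Adaptation of TH82.FG.State and TH82.FG.Alg (helper82, helper230).
-/

namespace Pool.Agent.Y44.FG

open Pool.Agent.TH68 Pool.Agent.Helper97.Hyp Pool.Agent.TH82.FG

/-- the state: a quotient `Q` of the big free group with its word norm `W`, and the normal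
subgroup `P` of the small one -/
structure Tst {Q : Type} [Group Q] (ψ : FF →* Q) (P : Subgroup GG) (W : WNorm Q) (δ : ℝ) :
    Prop where
  surj : Function.Surjective ψ
  le : ∀ w : FF, W.ℓ (ψ w) ≤ w.norm
  ex : ∀ q : Q, ∃ w : FF, ψ w = q ∧ w.norm = W.ℓ q
  norm : P.Normal
  pa : ∀ x ∈ P, ψ (al x) = 1
  pb : ∀ x ∈ P, ψ (be x) = 1
  pp : ∀ w : FF, ψ w = 1 → ph w ∈ P
  /-- no conjugation between the two factors -/
  ss : ∀ (h : Q) (x y : GG), h * ψ (be y) * h⁻¹ = ψ (al x) → x ∈ P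
  /-- the third copy is isometrically embedded -/
  fi : ∀ x : GG, W.ℓ (ψ (io x)) = x.norm
  hδ : 1 ≤ δ
  hyp : GHyp (Pt W) δ
  og : OG Q
  nc : (FreeGroup.of 0 * FreeGroup.of 1 * (FreeGroup.of 0)⁻¹ * (FreeGroup.of 1)⁻¹ : GG) ∉ P

/-- elements of infinite order modulo `P` -/
def Inf (P : Subgroup GG) (x : GG) : Prop := ∀ k : ℕ, 0 < k → x ^ k ∉ P

lemma Inf.zpow {P : Subgroup GG} {x : GG} (h : Inf P x) {k : ℤ} (hk : k ≠ 0) : x ^ k ∉ P := by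
  intro h1
  rcases Int.natAbs_eq k with h2 | h2
  · rw [h2, zpow_natCast] at h1
    exact h _ (by omega) h1
  · rw [h2, zpow_neg, zpow_natCast] at h1
    exact h _ (by omega) (P.inv_mem_iff.1 h1)

lemma Inf.pow {P : Subgroup GG} {x : GG} (h : Inf P x) {a : ℕ} (ha : 0 < a) : Inf P (x ^ a) := by
  intro k hk
  rw [← pow_mul]
  exact h _ (Nat.mul_pos ha hk)

section algebra

variable {Q : Type} [Group Q] {ψ : FF →* Q} {P : Subgroup GG} {W : WNorm Q} {δ : ℝ}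

open AlJob

namespace Tst

theorem hg (h : Tst ψ P W δ) : HypGroup Q := ⟨W, δ, h.hyp⟩

theorem facA (h : Tst ψ P W δ) : Fac ψ P al := ⟨ph_al, norm_al, h.pa⟩

theorem facB (h : Tst ψ P W δ) : Fac ψ P be := ⟨ph_be, norm_be, h.pb⟩

/-- equal images have congruent retractions -/
theorem pp' (h : Tst ψ P W δ) {w w' : FF} (he : ψ w = ψ w') : ph w * (ph w')⁻¹ ∈ P := by
  have := h.pp (w * w'⁻¹) (by rw [map_mul, map_inv, he, mul_inv_cancel])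
  rwa [map_mul, map_inv] at this

theorem short (h : Tst ψ P W δ) {κ : GG →* FF} (hκ : Fac ψ P κ) (x : GG) :
    ∃ x' : GG, x⁻¹ * x' ∈ P ∧ x'.norm = W.ℓ (ψ (κ x)) ∧ ψ (κ x') = ψ (κ x) := by
  obtain ⟨w, hw, hn⟩ := h.ex (ψ (κ x))
  have h1 := h.pp' hw
  rw [hκ.ret] at h1
  have h2 : x⁻¹ * ph w ∈ P := by
    have := h.norm.conj_mem _ h1 x⁻¹
    rwa [show x⁻¹ * (ph w * x⁻¹) * x⁻¹⁻¹ = x⁻¹ * ph w by group] at this
  have h3 := pk_eq hκ h2
  refine ⟨ph w, h2, le_antisymm ?_ ?_, h3.symm⟩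
  · rw [← hn]
    exact norm_ph w
  · rw [h3]
    exact (h.le _).trans (hκ.nle _)

theorem geo_gen (h : Tst ψ P W δ) {κ : GG →* FF} (hnle : ∀ x, (κ x).norm ≤ x.norm)
    (hs : ∀ x, ∃ x' : GG, x'.norm = W.ℓ (ψ (κ x)) ∧ ψ (κ x') = ψ (κ x)) :
    Geo W (ψ.comp κ).range := by
  rintro _ ⟨x, rfl⟩ k hk
  rw [MonoidHom.comp_apply] at hk ⊢
  obtain ⟨x', h1, h2⟩ := hs x
  obtain ⟨u, v, huv, hu, hv⟩ := cut x' k (by rw [h1]; exact hk)
  have h3 : ψ (κ u) * ψ (κ v) = ψ (κ x) := by rw [← map_mul, ← map_mul, huv, h2]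
  have h4 := (h.le (κ u)).trans (hnle u)
  have h5 := (h.le (κ v)).trans (hnle v)
  have h6 := W.mul_le (ψ (κ u)) (ψ (κ v))
  rw [h3] at h6
  exact ⟨_, ⟨u, rfl⟩, _, ⟨v, rfl⟩, h3, by
    show W.ℓ (ψ (κ u)) = k
    omega, by
    show k + W.ℓ (ψ (κ v)) = _
    omega⟩

theorem ngeo_gen (h : Tst ψ P W δ) {κ : GG →* FF} (hκ : Fac ψ P κ) {P' : Subgroup GG}
    {N : Subgroup Q} [N.Normal] [P'.Normal] (h1 : ∀ x ∈ P', ψ (κ x) ∈ N)
    (h2 : ∀ w, ψ w ∈ N → ph w ∈ P') : NGeo W N (ψ.comp κ).range := by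
  classical
  rintro _ ⟨x, rfl⟩
  have hex : ∃ m : ℕ, ∃ z : GG, x⁻¹ * z ∈ P' ∧ z.norm = m :=
    ⟨_, x, by rw [inv_mul_cancel]; exact P'.one_mem, rfl⟩
  obtain ⟨x', hx', hm⟩ := Nat.find_spec hex
  have hmin : ∀ z : GG, x⁻¹ * z ∈ P' → x'.norm ≤ z.norm := by
    intro z hz
    rw [hm]
    exact Nat.find_min' hex ⟨z, hz, rfl⟩
  refine ⟨ψ (κ x'), ⟨x', rfl⟩, ?_, fun n hn => ?_⟩
  · rw [MonoidHom.comp_apply, ← map_inv, ← map_inv, ← map_mul, ← map_mul]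
    exact h1 _ hx'
  · obtain ⟨w, hw, hwn⟩ := h.ex (ψ (κ x') * n)
    have h3 : ψ ((κ x')⁻¹ * w) ∈ N := by
      rw [map_mul, map_inv, hw, inv_mul_cancel_left]
      exact hn
    have h4 := h2 _ h3
    rw [map_mul, map_inv, hκ.ret] at h4
    have h5 : x⁻¹ * ph w ∈ P' := by
      have := P'.mul_mem hx' h4
      rwa [show x⁻¹ * x' * (x'⁻¹ * ph w) = x⁻¹ * ph w by group] at this
    have h6 := hmin _ h5
    rw [← hwn]
    exact ((h.le _).trans (hκ.nle _)).trans (h6.trans (norm_ph w))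

theorem geoA (h : Tst ψ P W δ) : Geo W (ψ.comp al).range :=
  h.geo_gen norm_al fun x => by
    obtain ⟨x', -, h1, h2⟩ := h.short h.facA x
    exact ⟨x', h1, h2⟩

theorem geoB (h : Tst ψ P W δ) : Geo W (ψ.comp be).range :=
  h.geo_gen norm_be fun x => by
    obtain ⟨x', -, h1, h2⟩ := h.short h.facB x
    exact ⟨x', h1, h2⟩

theorem geoF (h : Tst ψ P W δ) : Geo W (ψ.comp io).range :=
  h.geo_gen norm_io fun x => ⟨x, (h.fi x).symm, rfl⟩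

theorem ngeoA (h : Tst ψ P W δ) {P' : Subgroup GG} {N : Subgroup Q} [N.Normal] [P'.Normal]
    (h1 : ∀ x ∈ P', ψ (al x) ∈ N) (h2 : ∀ w, ψ w ∈ N → ph w ∈ P') :
    NGeo W N (ψ.comp al).range := h.ngeo_gen h.facA h1 h2

theorem ngeoB (h : Tst ψ P W δ) {P' : Subgroup GG} {N : Subgroup Q} [N.Normal] [P'.Normal]
    (h1 : ∀ x ∈ P', ψ (be x) ∈ N) (h2 : ∀ w, ψ w ∈ N → ph w ∈ P') :
    NGeo W N (ψ.comp be).range := h.ngeo_gen h.facB h1 h2

theorem ssm (h : Tst ψ P W δ) : SSm ⊥ (ψ.comp al).range (ψ.comp be).range := by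
  rintro _ ⟨x, rfl⟩ _ ⟨y, rfl⟩ g hg
  rw [MonoidHom.comp_apply, MonoidHom.comp_apply, Subgroup.mem_bot] at hg
  have h1 := h.ss g x y (inv_mul_eq_one.1 hg).symm
  rw [MonoidHom.comp_apply, h.pa x h1]
  exact Subgroup.one_mem _

theorem len_eq (h : Tst ψ P W δ) (x : GG) : W.ℓ (ψ (al x)) = W.ℓ (ψ (be x)) := by
  obtain ⟨x1, a1, a2, -⟩ := h.short h.facA x
  obtain ⟨x2, b1, b2, -⟩ := h.short h.facB x
  have e1 := pk_eq h.facB a1
  have e2 := pk_eq h.facA b1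
  refine le_antisymm ?_ ?_
  · rw [e2, ← b2]
    exact (h.le _).trans (norm_al _)
  · rw [e1, ← a2]
    exact (h.le _).trans (norm_be _)

/-- elements of a factor are trivial exactly when they are in `P` -/
theorem one_iff (h : Tst ψ P W δ) {κ : GG →* FF} (hκ : Fac ψ P κ) (x : GG) :
    ψ (κ x) = 1 ↔ x ∈ P := by
  constructor
  · intro h1
    have := h.pp _ h1
    rwa [hκ.ret] at this
  · exact hκ.pk x

theorem inf_iff (h : Tst ψ P W δ) {κ : GG →* FF} (hκ : Fac ψ P κ) (x : GG) :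
    ¬ IsOfFinOrder (ψ (κ x)) ↔ Inf P x := by
  rw [isOfFinOrder_iff_pow_eq_one]
  push Not
  constructor
  · intro h1 k hk hx
    apply h1 k hk
    rw [← map_pow, ← map_pow]
    exact hκ.pk _ hx
  · intro h1 k hk hx
    apply h1 k hk
    rw [← map_pow, ← map_pow] at hx
    exact (h.one_iff hκ _).1 hx

/-- the retraction of a root is the root -/
theorem mal_gen (h : Tst ψ P W δ) {κ : GG →* FF} (hκ : Fac ψ P κ) {y a : Q}
    (ha : a ∈ (ψ.comp κ).range) (ha1 : ¬ IsOfFinOrder a) (hy : y * a * y⁻¹ ∈ (ψ.comp κ).range) :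
    y ∈ (ψ.comp κ).range := by
  obtain ⟨x, rfl⟩ := ha
  obtain ⟨x', hx'⟩ := hy
  obtain ⟨w, rfl⟩ := h.surj y
  rw [MonoidHom.comp_apply] at ha1 hx'
  rw [MonoidHom.comp_apply] at hx'
  set p := ph w with hp
  -- the conjugate in the factor
  have h1 : ψ (κ x') = ψ (κ (p * x * p⁻¹)) := by
    have h2 : ψ (w * κ x * w⁻¹) = ψ (κ x') := by rw [map_mul, map_mul, map_inv, hx']
    have h3 := h.pp' h2
    rw [map_mul, map_mul, map_inv, hκ.ret, hκ.ret] at h3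
    refine pk_eq hκ ?_
    have := h.norm.conj_mem _ h3 x'⁻¹
    rwa [show x'⁻¹ * (ph w * x * (ph w)⁻¹ * x'⁻¹) * x'⁻¹⁻¹ = x'⁻¹ * (p * x * p⁻¹) by
      rw [hp]; group] at this
  set a' := ψ (κ (p * x * p⁻¹)) with ha'
  have ha'' : a' = ψ (κ p) * ψ (κ x) * (ψ (κ p))⁻¹ := by
    rw [ha', map_mul, map_mul, map_mul, map_mul, map_inv, map_inv]
  have ha'1 : ¬ IsOfFinOrder a' := by
    intro h2
    apply ha1
    rw [ha''] at h2
    rw [isOfFinOrder_iff_pow_eq_one] at h2 ⊢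
    obtain ⟨n, hn, h3⟩ := h2
    refine ⟨n, hn, ?_⟩
    rw [conj_pow, conj_eq_one_iff] at h3
    exact h3
  have hcomm : Commute (ψ (w * (κ p)⁻¹)) a' := by
    have h2 : ψ w * ψ (κ x) * (ψ w)⁻¹ = a' := by rw [← hx', h1]
    show ψ (w * (κ p)⁻¹) * a' = a' * ψ (w * (κ p)⁻¹)
    rw [map_mul, map_inv]
    nth_rewrite 2 [← h2]
    rw [ha'']
    group
  obtain ⟨z, hz, i, hi⟩ := h.og.root h.hg ha'1
  have hi' : z ^ i = a' := hi
  have hi0 : i ≠ 0 := by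
    rintro rfl
    exact ha'1 (by rw [← hi', zpow_zero]; exact IsOfFinOrder.one)
  obtain ⟨j, hj⟩ := hz.cent _ i hi0 (hi'.symm ▸ hcomm)
  have hj' : z ^ j = ψ (w * (κ p)⁻¹) := hj
  -- compare the retractions
  have h2 : ψ ((w * (κ p)⁻¹) ^ i) = ψ ((κ (p * x * p⁻¹)) ^ j) := by
    rw [map_zpow, map_zpow, ← hj', ← ha', ← hi', ← zpow_mul, ← zpow_mul, mul_comm]
  have h3 := h.pp' h2
  rw [map_zpow, map_zpow, map_mul, map_inv, hκ.ret, hκ.ret, ← hp, mul_inv_cancel, one_zpow,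
    one_mul] at h3
  have h4 : ψ (κ ((p * x * p⁻¹) ^ j)) = 1 := hκ.pk _ ((inv_inv ((p * x * p⁻¹) ^ j)) ▸ P.inv_mem h3)
  rw [map_zpow, map_zpow, ← ha'] at h4
  have hj0 : j = 0 := by
    by_contra hj0
    exact inf_zpow_ne ha'1 hj0 h4
  rw [hj0, zpow_zero, map_mul, map_inv] at hj'
  exact ⟨p, (mul_inv_eq_one.1 hj'.symm).symm⟩

theorem malA (h : Tst ψ P W δ) {y a : Q} (ha : a ∈ (ψ.comp al).range) (ha1 : ¬ IsOfFinOrder a)
    (hy : y * a * y⁻¹ ∈ (ψ.comp al).range) : y ∈ (ψ.comp al).range :=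
  h.mal_gen h.facA ha ha1 hy

theorem malB (h : Tst ψ P W δ) {y a : Q} (ha : a ∈ (ψ.comp be).range) (ha1 : ¬ IsOfFinOrder a)
    (hy : y * a * y⁻¹ ∈ (ψ.comp be).range) : y ∈ (ψ.comp be).range :=
  h.mal_gen h.facB ha ha1 hy

theorem noF_gen (h : Tst ψ P W δ) {κ : GG →* FF} (hκ : Fac ψ P κ) {x : GG} (hx : Inf P x) (y : Q)
    {t : ℤ} (ht : t ≠ 0) : y * ψ (κ x) ^ t * y⁻¹ ∉ (ψ.comp io).range := by
  rintro ⟨v, hv⟩
  obtain ⟨w, rfl⟩ := h.surj y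
  have h1 : ψ (w * κ (x ^ t) * w⁻¹) = ψ (io v) := by
    rw [map_mul, map_mul, map_inv, map_zpow, map_zpow, ← hv, MonoidHom.comp_apply]
  have h2 := h.pp' h1
  rw [map_mul, map_mul, map_inv, hκ.ret, ph_io, inv_one, mul_one] at h2
  have h3 : x ^ t ∈ P := by
    have := h.norm.conj_mem _ h2 (ph w)⁻¹
    rwa [show (ph w)⁻¹ * (ph w * x ^ t * (ph w)⁻¹) * (ph w)⁻¹⁻¹ = x ^ t by group] at this
  exact hx.zpow ht h3

theorem noFA (h : Tst ψ P W δ) {x : GG} (hx : Inf P x) (y : Q) {t : ℤ} (ht : t ≠ 0) :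
    y * ψ (al x) ^ t * y⁻¹ ∉ (ψ.comp io).range := h.noF_gen h.facA hx y ht

theorem noFB (h : Tst ψ P W δ) {x : GG} (hx : Inf P x) (y : Q) {t : ℤ} (ht : t ≠ 0) :
    y * ψ (be x) ^ t * y⁻¹ ∉ (ψ.comp io).range := h.noF_gen h.facB hx y ht

end Tst

end algebra

/-- kernels of states -/
def GoodT (R : Subgroup FF) : Prop :=
  ∃ (Q : Type) (_ : Group Q) (ψ : FF →* Q) (P : Subgroup GG) (W : WNorm Q) (δ : ℝ),
    Tst ψ P W δ ∧ ψ.ker = R

end Pool.Agent.Y44.FG
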