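import Pool.Agent.Y44.FG.Sh
import Pool.Agent.Y44.FG.State

set_option autoImplicit false
set_option linter.unusedSectionVars false

/-! Torsion in the quotients by spinning families (helper44). -/

namespace Pool.Agent.Y44.FG

open Pool.Agent.TH68 Pool.Agent.Helper97.Hyp Pool.Agent.TH82.FG

section gen

variable {Γ : Type*} [Group Γ] {W : WNorm Γ} {𝒜 : Type*} [MulAction Γ 𝒜]

/-- closest translates -/
lemma exists_red (N : Subgroup Γ) (p q : Pt W) :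
    ∃ n ∈ N, ∀ n' ∈ N, dist p (n • q) ≤ dist p (n' • q) := by
  have h1 : ∃ k : ℕ, ∃ n ∈ N, nd p (n • q) = k := ⟨_, 1, one_mem _, rfl⟩
  classical
  obtain ⟨n, hn, hk⟩ := Nat.find_spec h1
  refine ⟨n, hn, fun n' hn' => ?_⟩
  rw [dist_eq_nd, dist_eq_nd, hk]
  exact_mod_cast Nat.find_min' h1 ⟨n', hn', rfl⟩

/-- lifting conjugations of elements with small displacement -/
theorem conj_lift (Y : Sys Γ W 𝒜) (R : Spw Y) (C : ℝ) (hM : 100 * C + 1000 * Y.θ ≤ R.M)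
    {y v z : Γ} (hy : ∃ p : Pt W, dist p (y • p) ≤ C) (hv : ∃ q : Pt W, dist q (v • q) ≤ C)
    (hN : z * v * z⁻¹ * y⁻¹ ∈ R.N) :
    ∃ n ∈ R.N, n * z * v * (n * z)⁻¹ = y ∨ ∃ A : 𝒜, (n * z * v * (n * z)⁻¹) • A = A ∧
      ∃ a ∈ Y.S A, ∃ b ∈ Y.S A, dist a ((n * z * v * (n * z)⁻¹) • a) ≠
        dist b ((n * z * v * (n * z)⁻¹) • b) := by
  have hN' := R.normal
  obtain ⟨p, hp⟩ := hy
  obtain ⟨q, hq⟩ := hv
  obtain ⟨n, hn, hmin⟩ := exists_red R.N p (z • q)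
  refine ⟨n, hn, ?_⟩
  by_cases hne : n * z * v * (n * z)⁻¹ = y
  · exact Or.inl hne
  right
  apply congw Y R C hM y _ p ((n * z) • q) _ (Ne.symm hne) hp
  · have e : (n * z * v * (n * z)⁻¹) • (n * z) • q = (n * z) • v • q := by
      rw [smul_smul, smul_smul]; congr 1; group
    rw [e, dist_smul]
    exact hq
  · intro n' hn'
    have := hmin (n' * n) (R.N.mul_mem hn' hn)
    rw [smul_smul, smul_smul] at this
    rw [smul_smul, ← mul_assoc]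
    exact this
  · have e : n * z * v * (n * z)⁻¹ * y⁻¹ = n * (z * v * z⁻¹ * y⁻¹) * (y * n⁻¹ * y⁻¹) := by group
    rw [e]
    exact R.N.mul_mem (R.N.mul_mem hn hN) (hN'.conj_mem _ (R.N.inv_mem hn) y)

/-- the same if the stabilizers are killed -/
theorem conj_lift_q (Y : Sys Γ W 𝒜) (R : Spq Y) (C : ℝ) (hM : 100 * C + 1000 * Y.θ ≤ R.M)
    {y v z : Γ} (hy : ∃ p : Pt W, dist p (y • p) ≤ C) (hv : ∃ q : Pt W, dist q (v • q) ≤ C)
    (hN : z * v * z⁻¹ * y⁻¹ ∈ R.N) (hvN : v ∉ R.N) :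
    ∃ n ∈ R.N, n * z * v * (n * z)⁻¹ = y := by
  have hN' := R.normal
  obtain ⟨n, hn, h1 | ⟨A, hA, -⟩⟩ := conj_lift Y (ofSpq R) C hM hy hv hN
  · exact ⟨n, hn, h1⟩
  · exfalso
    apply hvN
    have h1 := R.G_le A (R.stab A _ hA)
    have h2 := hN'.conj_mem _ h1 (n * z)⁻¹
    have e : (n * z)⁻¹ * (n * z * v * (n * z)⁻¹) * (n * z)⁻¹⁻¹ = v := by group
    rwa [e] at h2

lemma disp_fin {δ θ : ℝ} (hyp : GHyp (Pt W) δ) (hδ : 1 ≤ δ) (hθ : δ ≤ θ) {v : Γ}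
    (hv : IsOfFinOrder v) : ∃ p : Pt W, dist p (v • p) ≤ 100 * θ := by
  obtain ⟨p, hp⟩ := disp_of_fin hyp hδ v hv
  exact ⟨p, hp.trans (by linarith)⟩

/-- lifts of elements of finite order -/
theorem lift_q (Y : Sys Γ W 𝒜) (R : Spq Y) (hM : 2000 * Y.θ ≤ R.M) {u : Γ} {k : ℕ} (hk : 0 < k)
    (hu : u ^ k ∈ R.N) (huN : u ∉ R.N) : ∃ n ∈ R.N, IsOfFinOrder (n * u) := by
  obtain ⟨n, hn, h1 | ⟨A, hA⟩⟩ := t1w Y (ofSpq R) hM u k hk hu
  · exact ⟨n, hn, h1⟩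
  · exfalso
    apply huN
    have h1 := R.G_le A (R.stab A _ hA)
    have h2 := R.N.mul_mem (R.N.inv_mem hn) h1
    rwa [inv_mul_cancel_left] at h2

lemma ord_mk {N : Subgroup Γ} [N.Normal] {v : Γ} (hv : (orderOf v).Prime) (hvN : v ∉ N) :
    orderOf (v : Γ ⧸ N) = orderOf v := by
  have h1 : orderOf (v : Γ ⧸ N) ∣ orderOf v := orderOf_map_dvd (QuotientGroup.mk' N) v
  rcases (Nat.dvd_prime hv).mp h1 with h2 | h2
  · exfalso
    apply hvN
    rw [orderOf_eq_one_iff] at h2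
    exact (QuotientGroup.eq_one_iff v).1 h2
  · exact h2

lemma mk_lift {N : Subgroup Γ} [N.Normal] {n u : Γ} (hn : n ∈ N) :
    ((n * u : Γ) : Γ ⧸ N) = u := by
  rw [QuotientGroup.mk_mul, (QuotientGroup.eq_one_iff n).2 hn, one_mul]

/-- the quotient is in the class -/
theorem og_q (Y : Sys Γ W 𝒜) (R : Spq Y) (hM : 11000 * Y.θ ≤ R.M) (h : OG Γ) :
    OG (Γ ⧸ R.N) := by
  have hN' := R.normal
  have hδ := Y.hδ
  have hθ := Y.hθ
  have lift : ∀ x : Γ ⧸ R.N, IsOfFinOrder x → x ≠ 1 → ∃ v : Γ, (v : Γ ⧸ R.N) = x ∧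
      (orderOf v).Prime ∧ v ∉ R.N := by
    intro x hx hx1
    obtain ⟨u, rfl⟩ := QuotientGroup.mk_surjective x
    obtain ⟨k, hk, hk1⟩ := hx.exists_pow_eq_one
    rw [← QuotientGroup.mk_pow, QuotientGroup.eq_one_iff] at hk1
    have huN : u ∉ R.N := fun h1 => hx1 ((QuotientGroup.eq_one_iff u).2 h1)
    obtain ⟨n, hn, h1⟩ := lift_q Y R (by linarith) hk hk1 huN
    have h2 : n * u ∉ R.N := by
      intro h3
      apply huN
      have := R.N.mul_mem (R.N.inv_mem hn) h3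
      rwa [inv_mul_cancel_left] at this
    refine ⟨n * u, mk_lift hn, ?_, h2⟩
    rcases h.ord _ h1 with h3 | h3
    · exact absurd (h3 ▸ R.N.one_mem) h2
    · exact h3
  constructor
  · intro x hx
    by_cases hx1 : x = 1
    · exact Or.inl hx1
    obtain ⟨v, rfl, hv, hvN⟩ := lift x hx hx1
    right
    rw [ord_mk hv hvN]
    exact hv
  · intro x hx y k hxy
    have hx1 : x ≠ 1 := by
      rintro rfl
      rw [orderOf_one] at hx
      exact Nat.not_prime_one hx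
    obtain ⟨v, rfl, hv, hvN⟩ := lift x (OG.fin_of_prime hx) hx1
    obtain ⟨z, rfl⟩ := QuotientGroup.mk_surjective y
    have hvf := OG.fin_of_prime hv
    have h1 : z * v * z⁻¹ * (v ^ k)⁻¹ ∈ R.N := by
      rw [← QuotientGroup.eq_one_iff]
      simp only [QuotientGroup.mk_mul, QuotientGroup.mk_inv, QuotientGroup.mk_zpow]
      rw [hxy, mul_inv_cancel]
    obtain ⟨n, hn, h2⟩ := conj_lift_q Y R (100 * Y.θ) (by linarith)
      (disp_fin Y.hyp hδ hθ hvf.zpow) (disp_fin Y.hyp hδ hθ hvf) h1 hvN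
    obtain ⟨m, hm⟩ := h.nrm v hv _ k h2
    refine ⟨m, ?_⟩
    have hm' : v ^ m = n * z := hm
    change (v : Γ ⧸ R.N) ^ m = z
    rw [← QuotientGroup.mk_zpow, hm', mk_lift hn]
  · intro x hx
    have hx1 : x ≠ 1 := by
      rintro rfl
      rw [orderOf_one] at hx
      norm_num at hx
    have hxf : IsOfFinOrder x := by
      rw [← orderOf_pos_iff, hx]; norm_num
    obtain ⟨v, rfl, hv, hvN⟩ := lift x hxf hx1
    rw [ord_mk hv hvN] at hx
    exact h.no2 v hx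

end gen

section st

variable {Q : Type} [Group Q] {ψ : FF →* Q} {P : Subgroup GG} {W : WNorm Q} {δ : ℝ}

open AlJob

/-- lifts of elements of finite order in the factors -/
theorem Tst.fin_lift (h : Tst ψ P W δ) {κ : GG →* FF} (hκ : Fac ψ P κ) {x : GG} {n : Q}
    {N : Subgroup Q} (hn : n ∈ N) (hf : IsOfFinOrder (n * ψ (κ x))) {P' : Subgroup GG}
    (h2 : ∀ w, ψ w ∈ N → ph w ∈ P') : ∃ x' : GG, IsOfFinOrder (ψ (κ x')) ∧ x' * x⁻¹ ∈ P' := by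
  obtain ⟨w, hw⟩ := h.surj (n * ψ (κ x))
  refine ⟨ph w, ?_, ?_⟩
  · rw [← hw, isOfFinOrder_iff_pow_eq_one] at hf
    obtain ⟨k, hk, h3⟩ := hf
    rw [isOfFinOrder_iff_pow_eq_one]
    refine ⟨k, hk, ?_⟩
    rw [← map_pow] at h3
    have h4 := h.pp _ h3
    rw [map_pow] at h4
    rw [← map_pow, ← map_pow]
    exact hκ.pk _ h4
  · have h3 : ψ (w * (κ x)⁻¹) ∈ N := by
      rw [map_mul, map_inv, hw, mul_inv_cancel_right]
      exact hn
    have h4 := h2 _ h3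
    rwa [map_mul, map_inv, hκ.ret] at h4

/-- separation of elements of finite order -/
theorem sst_q (h : Tst ψ P W δ) {𝒜 : Type} [MulAction Q 𝒜] (Z : Sys Q W 𝒜) (R : Spq Z)
    (hM : 11000 * Z.θ ≤ R.M) {P' : Subgroup GG}
    (h1 : ∀ x ∈ P', ψ (al x) ∈ R.N ∧ ψ (be x) ∈ R.N) (h2 : ∀ w, ψ w ∈ R.N → ph w ∈ P')
    (hi : SSi R.N (ψ.comp al).range (ψ.comp be).range) :
    SSm R.N (ψ.comp al).range (ψ.comp be).range := by
  have hN' := R.normal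
  have hδ := Z.hδ
  have hθ := Z.hθ
  rintro _ ⟨x, rfl⟩ _ ⟨y, rfl⟩ g hg
  obtain ⟨k, hk, hk1⟩ := hi _ ⟨x, rfl⟩ _ ⟨y, rfl⟩ g hg
  rw [MonoidHom.comp_apply] at hg hk1 ⊢
  rw [MonoidHom.comp_apply] at hg
  by_contra hxN
  have q1 : ((ψ (al x) : Q) : Q ⧸ R.N) = (g : Q ⧸ R.N) * (ψ (be y) : Q) * (g : Q ⧸ R.N)⁻¹ := by
    rw [← QuotientGroup.mk_mul, ← QuotientGroup.mk_inv, ← QuotientGroup.mk_mul]
    exact QuotientGroup.eq.2 hg
  have hyN : ψ (be y) ∉ R.N := by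
    intro h3
    apply hxN
    rw [← QuotientGroup.eq_one_iff] at h3 ⊢
    rw [q1, h3, mul_one, mul_inv_cancel]
  have hk2 : ψ (be y) ^ k ∈ R.N := by
    rw [← QuotientGroup.eq_one_iff, QuotientGroup.mk_pow] at hk1 ⊢
    rw [q1, conj_pow, conj_eq_one_iff] at hk1
    exact hk1
  obtain ⟨n, hn, hnf⟩ := lift_q Z R (by linarith) hk hk1 hxN
  obtain ⟨n', hn', hnf'⟩ := lift_q Z R (by linarith) hk hk2 hyN
  obtain ⟨x', hx', hxx⟩ := h.fin_lift h.facA hn hnf h2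
  obtain ⟨y', hy', hyy⟩ := h.fin_lift h.facB hn' hnf' h2
  have q2 : ((ψ (al x') : Q) : Q ⧸ R.N) = (ψ (al x) : Q) := by
    have := (h1 _ hxx).1
    rw [map_mul, map_inv, map_mul, map_inv, ← QuotientGroup.eq_one_iff, QuotientGroup.mk_mul,
      QuotientGroup.mk_inv, mul_inv_eq_one] at this
    exact this
  have q3 : ((ψ (be y') : Q) : Q ⧸ R.N) = (ψ (be y) : Q) := by
    have := (h1 _ hyy).2
    rw [map_mul, map_inv, map_mul, map_inv, ← QuotientGroup.eq_one_iff, QuotientGroup.mk_mul,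
      QuotientGroup.mk_inv, mul_inv_eq_one] at this
    exact this
  have hyN' : ψ (be y') ∉ R.N := by
    rw [← QuotientGroup.eq_one_iff] at hyN ⊢
    rw [q3]; exact hyN
  have h3 : g * ψ (be y') * g⁻¹ * (ψ (al x'))⁻¹ ∈ R.N := by
    rw [← QuotientGroup.eq_one_iff]
    simp only [QuotientGroup.mk_mul, QuotientGroup.mk_inv]
    rw [q2, q3, q1, mul_inv_cancel]
  obtain ⟨n₀, hn₀, h4⟩ := conj_lift_q Z R (100 * Z.θ) (by linarith)
    (disp_fin Z.hyp hδ hθ hx') (disp_fin Z.hyp hδ hθ hy') h3 hyN'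
  have h5 := h.ss _ _ _ h4
  apply hxN
  rw [← QuotientGroup.eq_one_iff, ← q2, h.pa _ h5]
  rfl

end st

end Pool.Agent.Y44.FG
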