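import Pool.Agent.Y44.FG.Geom
import Pool.Agent.Y44.FG.Tor
import Pool.Agent.Y44.FG.SI
import Pool.Agent.TH82.FG.SepIPf

set_option autoImplicit false
set_option linter.unusedSectionVars false

/-! The quotient of a state, and the first two steps (adaptation of TH82.FG.Quot, TH82.FG.Step and
TH82.FG.Steps). -/

namespace Pool.Agent.Y44.FG

open Pool.Agent.TH68 Pool.Agent.Helper97.Hyp Pool.Agent.TH82.FG

theorem Tst.quot {Q : Type} [Group Q] {ψ : FF →* Q} {P : Subgroup GG} {W : WNorm Q} {δ : ℝ}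
    (h : Tst ψ P W δ) {P' : Subgroup GG} {N : Subgroup Q} [N.Normal] (hP' : P'.Normal)
    (h1 : ∀ x ∈ P', ψ (al x) ∈ N ∧ ψ (be x) ∈ N) (h2 : ∀ w, ψ w ∈ N → ph w ∈ P')
    (hog : OG (Q ⧸ N))
    (hss : SSm N (ψ.comp al).range (ψ.comp be).range)
    (hfi : ∀ x : GG, ∀ n ∈ N, W.ℓ (ψ (io x)) ≤ W.ℓ (ψ (io x) * n))
    (hnc : (FreeGroup.of 0 * FreeGroup.of 1 * (FreeGroup.of 0)⁻¹ * (FreeGroup.of 1)⁻¹ : GG) ∉ P')
    {W' : WNorm (Q ⧸ N)} (hle : ∀ g : Q, W'.ℓ (g : Q ⧸ N) ≤ W.ℓ g)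
    (hex : ∀ g : Q, ∃ n ∈ N, W.ℓ (g * n) = W'.ℓ (g : Q ⧸ N)) {δ' : ℝ} (hδ' : 1 ≤ δ')
    (hyp' : GHyp (Pt W') δ') :
    Tst ((QuotientGroup.mk' N).comp ψ) P' W' δ' where
  surj := (QuotientGroup.mk'_surjective N).comp h.surj
  le w := (hle (ψ w)).trans (h.le w)
  ex q := by
    obtain ⟨g, rfl⟩ := QuotientGroup.mk_surjective q
    obtain ⟨n, hn, hn2⟩ := hex g
    obtain ⟨w, hw, hw2⟩ := h.ex (g * n)
    refine ⟨w, ?_, hw2.trans hn2⟩
    show ((ψ w : Q) : Q ⧸ N) = g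
    rw [hw, QuotientGroup.mk_mul, (QuotientGroup.eq_one_iff n).2 hn, mul_one]
  norm := hP'
  pa x hx := (QuotientGroup.eq_one_iff _).2 (h1 x hx).1
  pb x hx := (QuotientGroup.eq_one_iff _).2 (h1 x hx).2
  pp w hw := h2 w ((QuotientGroup.eq_one_iff _).1 hw)
  ss g x y hg := by
    obtain ⟨g, rfl⟩ := QuotientGroup.mk_surjective g
    have e1 : ((g * ψ (be y) * g⁻¹ : Q) : Q ⧸ N) = ((ψ (al x) : Q) : Q ⧸ N) := by
      rw [QuotientGroup.mk_mul, QuotientGroup.mk_mul, QuotientGroup.mk_inv]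
      exact hg
    have e2 := QuotientGroup.eq.1 e1.symm
    have e3 := h2 _ (hss _ ⟨x, rfl⟩ _ ⟨y, rfl⟩ g e2)
    rwa [ph_al] at e3
  fi x := by
    refine le_antisymm ((hle (ψ (io x))).trans (h.fi x).le) ?_
    obtain ⟨n, hn, hn2⟩ := hex (ψ (io x))
    have e1 := hfi x n hn
    rw [h.fi x, hn2] at e1
    exact e1
  hδ := hδ'
  hyp := hyp'
  og := hog
  nc := hnc

/-- torsion free groups are in the class -/
lemma og_of_tf {G : Type*} [Group G] (h : ∀ g : G, IsOfFinOrder g → g = 1) : OG G := by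
  constructor
  · intro x hx
    exact Or.inl (h x hx)
  · intro x hx
    exfalso
    have h1 := h x (OG.fin_of_prime hx)
    rw [h1, orderOf_one] at hx
    exact Nat.not_prime_one hx
  · intro x hx
    have h1 := h x (by rw [← orderOf_pos_iff, hx]; norm_num)
    rw [h1, orderOf_one] at hx
    norm_num at hx

theorem base : GoodT ⊥ := by
  have h := QsJob.base_st
  refine ⟨FF, inferInstance, MonoidHom.id FF, ⊥, QsJob.WF, 1, ⟨h.surj, h.le, h.ex, h.norm, h.pa,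
    h.pb, h.pp, h.ss, h.fi, h.hδ, h.hyp, og_of_tf h.tf, h.nc⟩, ?_⟩
  ext x
  simp [MonoidHom.mem_ker]

section step

/-- images of normal closures under the retraction -/
lemma ph_of_closure {Q : Type} [Group Q] {ψ : FF →* Q} {P P' : Subgroup GG} {W : WNorm Q} {δ : ℝ}
    (h : Tst ψ P W δ) [hP' : P'.Normal] (hPP' : P ≤ P') {s : Set FF} (hs : ∀ w ∈ s, ph w ∈ P')
    {w : FF} (hw : ψ w ∈ Subgroup.normalClosure (ψ '' s)) : ph w ∈ P' := by
  rw [← Subgroup.map_normalClosure s ψ h.surj] at hw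
  obtain ⟨w', hw', he⟩ := hw
  have h1 : Subgroup.normalClosure s ≤ P'.comap ph := by
    have : (P'.comap ph).Normal := hP'.comap ph
    apply Subgroup.normalClosure_le_normal
    intro v hv
    exact hs v hv
  have h2 : ph w' ∈ P' := h1 hw'
  have h3 : ph (w * w'⁻¹) ∈ P := h.pp _ (by rw [map_mul, map_inv, he, mul_inv_cancel])
  have h4 := P'.mul_mem (hPP' h3) h2
  rwa [map_mul, map_inv, inv_mul_cancel_right] at h4

/-- the quotient by the relators of a step -/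
theorem step_core {Q : Type} [Group Q] {ψ : FF →* Q} {P : Subgroup GG} {W : WNorm Q} {δ : ℝ}
    (h : Tst ψ P W δ) {𝒜 : Type} [MulAction Q 𝒜] (Z : Sys Q W 𝒜) (R : Spw Z)
    (hM : 10000 * Z.θ ≤ R.M) (h4 : 4 ≤ Z.θ)
    {P' : Subgroup GG} (hP' : P'.Normal)
    (h1 : ∀ x ∈ P', ψ (al x) ∈ R.N ∧ ψ (be x) ∈ R.N) (h2 : ∀ w, ψ w ∈ R.N → ph w ∈ P')
    (hog : OG (Q ⧸ R.N))
    (hss : SSm R.N (ψ.comp al).range (ψ.comp be).range)
    (hF : ∀ (S : 𝒜) (y : Q) (f f' : GG),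
      pd (Z.S S) (pt W (y * ψ (io f))) (pt W (y * ψ (io f'))) ≤ Z.θ) :
    GoodT ((QuotientGroup.mk' R.N).comp ψ).ker := by
  have hδ := Z.hδ
  have hθ := Z.hθ
  have hN := R.normal
  -- short elements are not killed
  have hshort : ∀ g : Q, g ≠ 1 → (W.ℓ g : ℝ) ≤ Z.θ → g ∉ R.N := by
    intro g hg hl hgN
    have h3 := far_of_mem Z R hgN hg (pt W 1)
    rw [smul_base, dist_def, out_pt, out_pt, inv_one, one_mul] at h3
    linarith
  obtain ⟨W', hW1, hW2, δ', hδ'⟩ := quot Z R (by linarith)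
  refine ⟨Q ⧸ R.N, inferInstance, (QuotientGroup.mk' R.N).comp ψ, P', W', max δ' 1, ?_, rfl⟩
  refine h.quot hP' h1 h2 hog hss ?_ ?_ hW1 hW2 (le_max_right _ _)
    (GHyp.mono hδ' (le_max_left _ _))
  · intro x n hn
    have h3 : ∀ A, pd (Z.S A) (pt W 1) (pt W (ψ (io x))) ≤ R.M / 4 := by
      intro A
      have := hF A 1 1 x
      rw [map_one, map_one, one_mul, one_mul] at this
      linarith
    have h5 := short_of_pd Z R (by linarith) h3 (ψ (io x) * n * (ψ (io x))⁻¹)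
      (hN.conj_mem n hn _)
    rw [smul_pt, dist_def, dist_def, out_pt, out_pt, out_pt, inv_one, one_mul, one_mul,
      inv_mul_cancel_right] at h5
    exact_mod_cast h5
  · intro hc
    obtain ⟨c, hcd⟩ : ∃ c : GG, c = FreeGroup.of 0 * FreeGroup.of 1 * (FreeGroup.of 0)⁻¹ *
      (FreeGroup.of 1)⁻¹ := ⟨_, rfl⟩
    rw [← hcd] at hc
    have hcP : c ∉ P := by rw [hcd]; exact h.nc
    refine hshort (ψ (al c)) ?_ ?_ (h1 c hc).1
    · intro h3
      apply hcP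
      have := h.pp _ h3
      rwa [ph_al] at this
    · have h3 : W.ℓ (ψ (al c)) ≤ 4 := by
        refine (h.le _).trans ((AlJob.norm_al c).trans ?_)
        rw [hcd]
        refine (FreeGroup.norm_mul_le _ _).trans ?_
        rw [FreeGroup.norm_inv_eq, FreeGroup.norm_of]
        have e1 : (FreeGroup.of 0 * FreeGroup.of 1 * (FreeGroup.of 0)⁻¹ : GG).norm ≤ 3 := by
          refine (FreeGroup.norm_mul_le _ _).trans ?_
          rw [FreeGroup.norm_inv_eq, FreeGroup.norm_of]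
          have e2 : (FreeGroup.of 0 * FreeGroup.of 1 : GG).norm ≤ 2 := by
            refine (FreeGroup.norm_mul_le _ _).trans ?_
            rw [FreeGroup.norm_of, FreeGroup.norm_of]
          omega
        omega
      have : (W.ℓ (ψ (al c)) : ℝ) ≤ 4 := by exact_mod_cast h3
      linarith

end step

/-- the first step -/
def StepI' : Prop := ∀ R : Subgroup FF, GoodT R → ∀ g : FF,
  ∃ R' : Subgroup FF, GoodT R' ∧ R ≤ R' ∧ ∃ x y : GG, al x * be y * g⁻¹ ∈ R'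

/-- the second step -/
def StepII' : Prop := ∀ R : Subgroup FF, GoodT R → ∀ x y s : GG, al (x * y * x⁻¹ * y⁻¹) ∉ R →
  ∃ R' : Subgroup FF, GoodT R' ∧ R ≤ R' ∧
    ∃ v ∈ Subgroup.closure ({x, y} : Set GG), al (v * s⁻¹) ∈ R' ∧ be (v * s⁻¹) ∈ R'

/-- the third step -/
def StepIII' : Prop := ∀ R : Subgroup FF, GoodT R → ∀ x : GG,
  ∃ R' : Subgroup FF, GoodT R' ∧ R ≤ R' ∧ ∃ k : ℕ, 0 < k ∧ al (x ^ k) ∈ R' ∧ be (x ^ k) ∈ R'

theorem stepI : StepI' := by
  intro R₀ hR₀ g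
  obtain ⟨Q, hQ, ψ, P, W, δ, h, rfl⟩ := hR₀
  by_cases hg : ∃ x y : GG, ψ (al x * be y) = ψ g
  · obtain ⟨x, y, hxy⟩ := hg
    refine ⟨ψ.ker, ⟨Q, hQ, ψ, P, W, δ, h, rfl⟩, le_rfl, x, y, ?_⟩
    rw [MonoidHom.mem_ker, map_mul, map_inv, hxy, mul_inv_cancel]
  push Not at hg
  obtain ⟨𝒜, _, Z, R, x, c, e1, e2, e3, e4, e5, e6, e7⟩ := geomI h hg 4
  have hθ := Z.hθ
  have hδ := Z.hδ
  have hN := R.normal
  have hP := h.norm
  obtain ⟨r, hr⟩ : ∃ r : FF, r = al x * be (x⁻¹ * ph g) * g⁻¹ := ⟨_, rfl⟩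
  rw [← hr] at e3 e6
  have hphr : ph r = 1 := by
    rw [hr, map_mul, map_mul, ph_al, ph_be, map_inv]; group
  have hrN : ψ r ∈ R.N := by
    rw [e3]; exact Subgroup.subset_normalClosure (Set.mem_singleton _)
  have h1 : ∀ x ∈ P, ψ (al x) ∈ R.N ∧ ψ (be x) ∈ R.N := by
    intro x hx
    rw [h.pa x hx, h.pb x hx]
    exact ⟨R.N.one_mem, R.N.one_mem⟩
  have h2 : ∀ w, ψ w ∈ R.N → ph w ∈ P := by
    intro w hw
    rw [e3, ← Set.image_singleton] at hw
    refine ph_of_closure h le_rfl ?_ hw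
    rintro v rfl
    rw [hphr]; exact P.one_mem
  have gA := h.ngeoA (fun x hx => (h1 x hx).1) h2
  have gB := h.ngeoB (fun x hx => (h1 x hx).2) h2
  have hssi : SSi R.N (ψ.comp al).range (ψ.comp be).range := by
    refine ssi_i_of Z R (by linarith) h.geoA h.geoB gA gB h.ssm
      (fun hx hz hxi hxz hmin => short_h Z (ofSpq R) (by change 4000 * Z.θ ≤ R.M; linarith)
        h.geoA h.geoB gA gB h.ssm hx hz hxi hxz hmin) (overlap Z.hyp h.geoA h.geoB h.ssm)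
      ⟨x, rfl⟩ ?_ ?_ e4 e5 e6
    · refine ⟨x⁻¹ * ph g, ?_⟩
      change ψ (be (x⁻¹ * ph g)) = (ψ (al x))⁻¹ * ψ r * ψ g
      rw [hr, map_mul ψ, map_mul ψ (al x), map_inv ψ]
      group
    · rintro _ ⟨a, rfl⟩ _ ⟨b, rfl⟩ hc
      apply hg a b
      rw [map_mul]; exact hc
  have hss := sst_q h Z R (by linarith) h1 h2 hssi
  have hgood := step_core h Z (ofSpq R) (by change 10000 * Z.θ ≤ R.M; linarith) e1 h.norm h1 h2
    (og_q Z R (by linarith) h.og) hss e7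
  refine ⟨_, hgood, ?_, x, x⁻¹ * ph g, ?_⟩
  · intro w hw
    rw [MonoidHom.mem_ker] at hw ⊢
    rw [MonoidHom.comp_apply, hw, map_one]
  · rw [← hr, MonoidHom.mem_ker, MonoidHom.comp_apply, QuotientGroup.mk'_apply,
      QuotientGroup.eq_one_iff]
    exact hrN

/-- the subgroup generated by `P` and `r` -/
lemma new_P {Q : Type} [Group Q] {ψ : FF →* Q} {P : Subgroup GG} {W : WNorm Q} {δ : ℝ}
    (h : Tst ψ P W δ) {N : Subgroup Q} (hN : N.Normal) {r : GG}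
    (hNr : N = Subgroup.normalClosure {ψ (al r), ψ (be r)}) :
    ∃ P' : Subgroup GG, P'.Normal ∧ P ≤ P' ∧ r ∈ P' ∧
      (∀ x ∈ P', ψ (al x) ∈ N ∧ ψ (be x) ∈ N) ∧ ∀ w, ψ w ∈ N → ph w ∈ P' := by
  obtain ⟨P', hP'd⟩ : ∃ P' : Subgroup GG, P' = Subgroup.normalClosure ((P : Set GG) ∪ {r}) :=
    ⟨_, rfl⟩
  have hP' : P'.Normal := by rw [hP'd]; exact Subgroup.normalClosure_normal
  have hPP' : P ≤ P' := by
    intro x hx
    rw [hP'd]
    exact Subgroup.subset_normalClosure (Or.inl hx)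
  have hrP' : r ∈ P' := by
    rw [hP'd]
    exact Subgroup.subset_normalClosure (Or.inr rfl)
  have hra : ψ (al r) ∈ N := by
    rw [hNr]; exact Subgroup.subset_normalClosure (Or.inl rfl)
  have hrb : ψ (be r) ∈ N := by
    rw [hNr]; exact Subgroup.subset_normalClosure (Or.inr rfl)
  refine ⟨P', hP', hPP', hrP', ?_, ?_⟩
  · have k1 : P' ≤ (N.comap (ψ.comp al)) ⊓ (N.comap (ψ.comp be)) := by
      have n1 : (N.comap (ψ.comp al)).Normal := hN.comap _
      have n2 : (N.comap (ψ.comp be)).Normal := hN.comap _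
      rw [hP'd]
      apply Subgroup.normalClosure_le_normal
      rintro z (hz | hz)
      · refine ⟨?_, ?_⟩
        · change ψ (al z) ∈ N
          rw [h.pa z hz]; exact N.one_mem
        · change ψ (be z) ∈ N
          rw [h.pb z hz]; exact N.one_mem
      · rw [Set.mem_singleton_iff] at hz
        rw [hz]
        exact ⟨hra, hrb⟩
    intro z hz
    exact ⟨(k1 hz).1, (k1 hz).2⟩
  · intro w hw
    have e6 : ({ψ (al r), ψ (be r)} : Set Q) = ψ '' {al r, be r} := by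
      rw [Set.image_pair]
    rw [hNr, e6] at hw
    refine ph_of_closure h hPP' ?_ hw
    rintro z (hz | hz)
    · rw [hz, ph_al]; exact hrP'
    · rw [Set.mem_singleton_iff] at hz
      rw [hz, ph_be]; exact hrP'

theorem stepII : StepII' := by
  intro R₀ hR₀ x y s hxy
  obtain ⟨Q, hQ, ψ, P, W, δ, h, rfl⟩ := hR₀
  obtain ⟨𝒜, _, Z, R, v, hv, e1, e2, e3, e4, e5⟩ := geomII h (s := s) hxy 4
  have hθ := Z.hθ
  have hδ := Z.hδ
  have hN := R.normal
  obtain ⟨r, hr⟩ : ∃ r : GG, r = v * s⁻¹ := ⟨_, rfl⟩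
  rw [← hr] at e3
  obtain ⟨P', hP', hPP', hrP', h1, h2⟩ := new_P h hN e3
  have gA := h.ngeoA (fun x hx => (h1 x hx).1) h2
  have gB := h.ngeoB (fun x hx => (h1 x hx).2) h2
  have hssi : SSi R.N (ψ.comp al).range (ψ.comp be).range :=
    ssi_ii_of Z (ofSpq R) (by change 10000 * Z.θ ≤ R.M; linarith) gA gB h.ssm
      (fun hx hz hxi hxz hmin => short_h Z (ofSpq R) (by change 4000 * Z.θ ≤ R.M; linarith)
        h.geoA h.geoB gA gB h.ssm hx hz hxi hxz hmin) e4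
  have hss := sst_q h Z R (by linarith) h1 h2 hssi
  have hgood := step_core h Z (ofSpq R) (by change 10000 * Z.θ ≤ R.M; linarith) e1 hP' h1 h2
    (og_q Z R (by linarith) h.og) hss e5
  refine ⟨_, hgood, ?_, v, hv, ?_, ?_⟩
  · intro w hw
    rw [MonoidHom.mem_ker] at hw ⊢
    rw [MonoidHom.comp_apply, hw, map_one]
  · rw [← hr, MonoidHom.mem_ker, MonoidHom.comp_apply, QuotientGroup.mk'_apply,
      QuotientGroup.eq_one_iff]
    exact (h1 r hrP').1
  · rw [← hr, MonoidHom.mem_ker, MonoidHom.comp_apply, QuotientGroup.mk'_apply,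
      QuotientGroup.eq_one_iff]
    exact (h1 r hrP').2

end Pool.Agent.Y44.FG
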