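import Pool.Agent.Y44.FG.Kil
import Pool.Agent.Y44.FG.Step

set_option autoImplicit false
set_option linter.unusedSectionVars false

/-! The third step: killing a large prime power of a root (helper44). -/

namespace Pool.Agent.Y44.FG

open Pool.Agent.TH68 Pool.Agent.Helper97.Hyp Pool.Agent.TH82.FG

section kill

variable {Γ : Type} [Group Γ] {W : WNorm Γ}

theorem Two.kill (T : Two Γ W) (og : OG Γ) : ∃ m₀ : ℕ, ∀ m : ℕ, m₀ ≤ m → m.Prime →
    ∃ (R : Spw T.Z) (Sm : Γ → Prop), 10000 * T.Z.θ ≤ R.M ∧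
      R.N = Subgroup.normalClosure {T.u true ^ m, T.u false ^ m} ∧ Kill T.u m R.N Sm := by
  have hδ := T.Z.hδ
  have hθ := T.Z.hθ
  have hL := T.L_nonneg
  obtain ⟨θ, hθd⟩ : ∃ θ, θ = T.Z.θ := ⟨_, rfl⟩
  have hθ1 : 1 ≤ θ := by rw [hθd]; linarith
  have ha : (1 : ℝ) ≤ T.a := by exact_mod_cast T.ha
  obtain ⟨K', hK'⟩ : ∃ K' : ℝ, K' = 1 + T.a * T.L + 11000 * θ := ⟨_, rfl⟩
  have haL : 0 ≤ (T.a : ℝ) * T.L := mul_nonneg (by linarith) hL
  have hK'0 : 0 ≤ K' := by rw [hK']; linarith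
  refine ⟨⌈((T.a : ℝ) * (100 * T.L + K')) ^ 2⌉₊ + 3, ?_⟩
  intro m hm hmp
  obtain ⟨s, hs⟩ : ∃ s : ℝ, s = Real.sqrt m := ⟨_, rfl⟩
  have hs0 : 0 ≤ s := by rw [hs]; exact Real.sqrt_nonneg _
  have hss : s * s = m := by rw [hs]; exact Real.mul_self_sqrt (Nat.cast_nonneg m)
  have hm1 : ((T.a : ℝ) * (100 * T.L + K')) ^ 2 ≤ m := by
    have h1 : ⌈((T.a : ℝ) * (100 * T.L + K')) ^ 2⌉₊ ≤ m := by omega
    exact Nat.le_of_ceil_le h1
  have hs1 : (T.a : ℝ) * (100 * T.L + K') ≤ s := by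
    rw [hs]; exact Real.le_sqrt_of_sq_le hm1
  have hs2 : 1 ≤ s := by
    have h1 : (1 : ℝ) * 1 ≤ (T.a : ℝ) * (100 * T.L + K') := by
      apply mul_le_mul ha _ (by norm_num) (by linarith)
      rw [hK']; linarith
    linarith
  have hlow : 100 * s * T.L + 11000 * θ ≤ T.low m := by
    have h1 : s * (100 * T.L + K') ≤ (m : ℝ) / T.a := by
      rw [le_div_iff₀ (by linarith), ← hss]
      have := mul_le_mul_of_nonneg_left hs1 hs0
      linarith
    have h2 : K' ≤ s * K' := by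
      have := mul_le_mul_of_nonneg_right hs2 hK'0
      linarith
    unfold Two.low
    have h3 : s * (100 * T.L + K') = 100 * s * T.L + s * K' := by ring
    rw [h3] at h1
    rw [hK'] at h2 h1
    rw [hK'] at h3
    linarith
  obtain ⟨C, hC⟩ : ∃ C, C = max (s * T.L) (100 * θ) := ⟨_, rfl⟩
  have hCM : 100 * C + 1000 * θ ≤ T.low m := by
    have hsL : 0 ≤ s * T.L := mul_nonneg hs0 hL
    have h1 : C ≤ s * T.L + 100 * θ := by
      rw [hC]; apply max_le <;> linarith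
    have h2 : 100 * s * T.L = 100 * (s * T.L) := by ring
    linarith
  have hM1 : 11000 * θ ≤ T.low m := by
    have hsL : 0 ≤ s * T.L := mul_nonneg hs0 hL
    have h2 : 100 * s * T.L = 100 * (s * T.L) := by ring
    linarith
  obtain ⟨R, hRM, hRN⟩ := T.spw hmp.pos (by rw [← hθd]; linarith)
  refine ⟨R, fun y => ∃ p : Pt W, dist p (y • p) ≤ C, by rw [← hθd, hRM]; linarith, hRN, ?_⟩
  exact
  { prime := hmp
    odd := by omega
    normal := R.normal
    mem := by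
      intro b
      rw [hRN]
      apply Subgroup.subset_normalClosure
      cases b
      · exact Or.inr rfl
      · exact Or.inl rfl
    t1 := by
      intro v k hk hv
      obtain ⟨n, hn, h1 | ⟨A, hA⟩⟩ := t1w T.Z R (by rw [← hθd, hRM]; linarith) v k hk hv
      · exact ⟨n, hn, Or.inl h1⟩
      · obtain ⟨b, γ, rfl⟩ := T.exists_rep A
        obtain ⟨t, ht⟩ := (T.stab_iff _ b γ).1 hA
        exact ⟨n, hn, Or.inr ⟨b, γ, t, ht⟩⟩
    cl := by
      intro y v z hy hv hN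
      obtain ⟨n, hn, h1 | ⟨A, hA, x, hx, x', hx', hne⟩⟩ :=
        conj_lift T.Z R C (by rw [← hθd, hRM]; linarith) hy hv hN
      · exact ⟨n, hn, h1⟩
      · exfalso
        obtain ⟨b, γ, rfl⟩ := T.exists_rep A
        obtain ⟨t, ht⟩ := (T.stab_iff _ b γ).1 hA
        apply hne
        rw [ht]
        change x ∈ T.Y.S _ at hx
        change x' ∈ T.Y.S _ at hx'
        rw [T.disp_ax hx, T.disp_ax hx']
    sm := by
      intro b t ht
      refine ⟨T.o b, (T.disp_le b t).trans (le_trans ?_ (hC ▸ le_max_left _ _))⟩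
      apply mul_le_mul_of_nonneg_right _ hL
      have h1 : ((t.natAbs : ℝ)) ^ 2 ≤ m := by
        rw [pow_two]; exact_mod_cast ht
      rw [hs]
      exact Real.le_sqrt_of_sq_le h1
    fn := by
      intro v hv
      obtain ⟨p, hp⟩ := disp_fin T.Z.hyp hδ hθ hv
      exact ⟨p, hp.trans (by rw [← hθd, hC]; exact le_max_right _ _)⟩
    inf := fun b => (T.root b).inf
    rig := by
      intro b z e f he h1
      have hg := (T.root b).inf
      have hΓ : HypGroup Γ := ⟨W, _, T.Y.hyp⟩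
      have h2 : z * (T.u b ^ T.a) ^ e * z⁻¹ = (T.u b ^ T.a) ^ f := by
        rw [← zpow_natCast, ← zpow_mul, ← zpow_mul, mul_comm, zpow_mul, ← conj_zpow, h1,
          ← zpow_mul, mul_comm]
      have h3 := (T.lox b).natAbs_eq_of_conj h2
      have h4 : Commute z (T.u b) := by
        apply og.comm_of_conj hΓ hg he
        rcases Int.natAbs_eq_natAbs_iff.1 h3 with h5 | h5
        · left; rw [h1, h5]
        · right; rw [h1, h5]
      exact (T.root b).cent z 1 one_ne_zero (by rw [zpow_one]; exact h4) }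

end kill

section st

variable {Q : Type} [Group Q] {ψ : FF →* Q} {P : Subgroup GG} {W : WNorm Q} {δ : ℝ}

open AlJob

lemma Tst.fac (h : Tst ψ P W δ) (b : Bool) : Fac ψ P (ka b) := by
  cases b
  · exact h.facB
  · exact h.facA

/-- congruent elements -/
lemma Tst.eq_iff (h : Tst ψ P W δ) {κ : GG →* FF} (hκ : Fac ψ P κ) (x y : GG) :
    ψ (κ x) = ψ (κ y) ↔ x * y⁻¹ ∈ P := by
  rw [← h.one_iff hκ, map_mul, map_mul, map_inv, map_inv, mul_inv_eq_one]

lemma Tst.eq_all (h : Tst ψ P W δ) (b b' : Bool) {x y : GG}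
    (hxy : ψ (ka b x) = ψ (ka b y)) : ψ (ka b' x) = ψ (ka b' y) := by
  rw [h.eq_iff (h.fac b)] at hxy
  rw [h.eq_iff (h.fac b')]
  exact hxy

/-- roots of the elements of the factors -/
lemma Tst.exists_root (h : Tst ψ P W δ) {x : GG} (hx : Inf P x) :
    ∃ x₀ : GG, Inf P x₀ ∧ (∀ b, Root (ψ (ka b x₀))) ∧
      ∃ j : ℤ, ∀ b, ψ (ka b x) = ψ (ka b (x₀ ^ j)) := by
  have hxi : ¬ IsOfFinOrder (ψ (ka true x)) := (h.inf_iff h.facA x).2 hx
  obtain ⟨z, hz, j, hj⟩ := h.og.root h.hg hxi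
  have hj' : z ^ j = ψ (ka true x) := hj
  have hzr : z ∈ (ψ.comp al).range := by
    apply h.malA (a := ψ (al x)) ⟨x, rfl⟩ hxi
    refine ⟨x, ?_⟩
    change ψ (ka true x) = z * ψ (ka true x) * z⁻¹
    rw [← hj']
    group
  obtain ⟨x₀, rfl⟩ := hzr
  have hx₀ : Inf P x₀ := (h.inf_iff h.facA x₀).1 hz.inf
  refine ⟨x₀, hx₀, ?_, j, ?_⟩
  · have hb : ∀ b, Root (ψ (ka b x₀)) := by
      intro b
      cases b
      swap
      · exact hz
      refine ⟨(h.inf_iff h.facB x₀).2 hx₀, ?_⟩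
      intro y a ha hy
      have h1 : ¬ IsOfFinOrder (ψ (be x₀) ^ a) := inf_zpow ((h.inf_iff h.facB x₀).2 hx₀) ha
      have hyr : y ∈ (ψ.comp be).range := by
        apply h.malB (a := ψ (be x₀) ^ a) ⟨x₀ ^ a, by
          rw [MonoidHom.comp_apply, map_zpow, map_zpow]⟩ h1
        refine ⟨x₀ ^ a, ?_⟩
        rw [MonoidHom.comp_apply, map_zpow, map_zpow]
        have h2 : y * ψ (be x₀) ^ a = ψ (be x₀) ^ a * y := hy
        rw [h2, mul_inv_cancel_right]
      obtain ⟨t, rfl⟩ := hyr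
      have h2 : ψ (ka false (t * x₀ ^ a)) = ψ (ka false (x₀ ^ a * t)) := by
        rw [map_mul, map_mul, map_mul, map_mul, map_zpow, map_zpow]
        exact hy
      have h3 := h.eq_all false true h2
      rw [map_mul, map_mul, map_mul, map_mul, map_zpow, map_zpow] at h3
      obtain ⟨s, hs⟩ := hz.cent (ψ (ka true t)) a ha h3
      have hs' : ψ (al x₀) ^ s = ψ (ka true t) := hs
      refine ⟨s, ?_⟩
      change ψ (be x₀) ^ s = ψ (be t)
      have h4 : ψ (ka true (x₀ ^ s)) = ψ (ka true t) := by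
        rw [map_zpow, map_zpow]; exact hs'
      have h5 := h.eq_all true false h4
      rw [map_zpow, map_zpow] at h5
      exact h5
    exact hb
  · intro b
    have h4 : ψ (ka true x) = ψ (ka true (x₀ ^ j)) := by
      rw [map_zpow, map_zpow, ← hj']; rfl
    exact h.eq_all true b h4

/-- the lines of a root -/
lemma Tst.exists_two (h : Tst ψ P W δ) {u : GG} (hu : Inf P u) (hr : ∀ b, Root (ψ (ka b u)))
    (K₀ : ℝ) : ∃ T : Two Q W, T.u = (fun b => ψ (ka b u)) ∧ K₀ ≤ T.K ∧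
      (∀ b b', b ≠ b' → ∀ (γ y : Q), ∀ x ∈ (ψ.comp (ka b')).range,
        ∀ x' ∈ (ψ.comp (ka b')).range,
        pd (T.Y.S ⟨b, (γ : Q ⧸ T.E b)⟩) (pt W (y * x)) (pt W (y * x')) ≤ T.K) ∧
      (∀ b (γ y : Q), ∀ x ∈ (ψ.comp io).range, ∀ x' ∈ (ψ.comp io).range,
        pd (T.Y.S ⟨b, (γ : Q ⧸ T.E b)⟩) (pt W (y * x)) (pt W (y * x')) ≤ T.K) := by
  have hne : ∀ (g : Q) (i j : ℤ), i ≠ 0 →
      g * ψ (ka true u) ^ i * g⁻¹ ≠ ψ (ka false u) ^ j := by
    intro g i j hi h1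
    have h2 := h.ss g⁻¹ (u ^ i) (u ^ j) (by
      rw [map_zpow, map_zpow, map_zpow, map_zpow]
      change g⁻¹ * ψ (ka false u) ^ j * g⁻¹⁻¹ = ψ (ka true u) ^ i
      rw [← h1]; group)
    have h3 := h.pa _ h2
    rw [map_zpow, map_zpow] at h3
    exact h.zpow_ne hu true hi h3
  obtain ⟨E, a, o, Y, ha, hδ, hE, hS, htriv, hL⟩ := lines_exist h.hδ h.hyp h.og
    (fun b => ψ (ka b u)) (fun b => h.inf_ka hu b) hne
  have hpow : ∀ b (t : ℤ), (ψ (ka b u) ^ a) ^ t = ψ (ka b (u ^ ((a : ℤ) * t))) := by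
    intro b t
    rw [map_zpow, map_zpow, zpow_mul, zpow_natCast]
  have hEc : ∀ b, ∀ e ∈ E b, Commute e (ψ (ka b u) ^ a) := fun b e he =>
    ((hE b e).1 he).pow_right a
  have hC : ∀ C : Subgroup Q, Geo W C → ∃ D : ℝ, ∀ b (γ y : Q), ∀ c ∈ C, ∀ c' ∈ C,
      D ≤ pd (Y.S ⟨b, (γ : Q ⧸ E b)⟩) (pt W (y * c)) (pt W (y * c')) →
        ∃ t : ℤ, t ≠ 0 ∧ (y⁻¹ * γ) * ψ (ka b (u ^ ((a : ℤ) * t))) * (y⁻¹ * γ)⁻¹ ∈ C := by
    intro C hC
    obtain ⟨D, hD⟩ := coset_cross (hL true) (hEc true) hC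
    obtain ⟨D', hD'⟩ := coset_cross (hL false) (hEc false) hC
    refine ⟨max D D', ?_⟩
    intro b γ y c hc c' hc' hd
    rw [hS] at hd
    cases b
    · obtain ⟨t, ht, h1⟩ := hD' γ y c hc c' hc' ((le_max_right _ _).trans hd)
      rw [hpow] at h1
      exact ⟨t, ht, h1⟩
    · obtain ⟨t, ht, h1⟩ := hD γ y c hc c' hc' ((le_max_left _ _).trans hd)
      rw [hpow] at h1
      exact ⟨t, ht, h1⟩
  obtain ⟨D₁, hD₁⟩ := hC _ (h.geo true)
  obtain ⟨D₂, hD₂⟩ := hC _ (h.geo false)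
  obtain ⟨D₃, hD₃⟩ := hC _ h.geoF
  obtain ⟨K, hK⟩ : ∃ K, K = max (max (max D₁ D₂) D₃) K₀ := ⟨_, rfl⟩
  have k1 : D₁ ≤ K := by
    rw [hK]; exact ((le_max_left _ _).trans (le_max_left _ _)).trans (le_max_left _ _)
  have k2 : D₂ ≤ K := by
    rw [hK]; exact ((le_max_right _ _).trans (le_max_left _ _)).trans (le_max_left _ _)
  have k3 : D₃ ≤ K := by
    rw [hK]; exact (le_max_right _ _).trans (le_max_left _ _)
  have k4 : K₀ ≤ K := by rw [hK]; exact le_max_right _ _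
  have hD : ∀ b', ∀ b (γ y : Q), ∀ c ∈ (ψ.comp (ka b')).range, ∀ c' ∈ (ψ.comp (ka b')).range,
      K ≤ pd (Y.S ⟨b, (γ : Q ⧸ E b)⟩) (pt W (y * c)) (pt W (y * c')) →
        ∃ t : ℤ, t ≠ 0 ∧
          (y⁻¹ * γ) * ψ (ka b (u ^ ((a : ℤ) * t))) * (y⁻¹ * γ)⁻¹ ∈ (ψ.comp (ka b')).range := by
    intro b' b γ y c hc c' hc' hd
    cases b'
    · exact hD₂ b γ y c hc c' hc' (k2.trans hd)
    · exact hD₁ b γ y c hc c' hc' (k1.trans hd)
  have hat : ∀ {t : ℤ}, t ≠ 0 → (a : ℤ) * t ≠ 0 := fun ht => mul_ne_zero (by omega) ht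
  have hone : ∀ b (t : ℤ), t ≠ 0 → ψ (ka b (u ^ ((a : ℤ) * t))) ≠ 1 := by
    intro b t ht h1
    rw [map_zpow, map_zpow] at h1
    exact h.zpow_ne hu b (hat ht) h1
  have hEz : ∀ b g, g ∈ E b ↔ g ∈ Subgroup.zpowers (ψ (ka b u)) := by
    intro b g
    rw [hE]
    constructor
    · intro hc
      exact (hr b).cent g 1 one_ne_zero (by rw [zpow_one]; exact hc)
    · rintro ⟨t, ht⟩
      have ht' : ψ (ka b u) ^ t = g := ht
      rw [← ht']
      exact (Commute.refl _).zpow_left t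
  refine ⟨⟨δ, h.hδ, fun b => ψ (ka b u), hr, a, ha, o, hL, E, hEz, Y, hS, K⟩, rfl, k4, ?_, ?_⟩
  · intro b b' hb γ y x hx x' hx'
    change pd (Y.S ⟨b, (γ : Q ⧸ E b)⟩) (pt W (y * x)) (pt W (y * x')) ≤ K
    by_contra hcon
    push Not at hcon
    obtain ⟨t, ht, v, h1⟩ := hD b' b γ y x hx x' hx' hcon.le
    obtain ⟨z, hz⟩ : ∃ z, z = y⁻¹ * γ := ⟨_, rfl⟩
    rw [← hz] at h1
    cases b
    · have : b' = true := by
        cases b' with
        | true => rfl
        | false => exact absurd rfl hb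
      subst this
      -- the axis of the second factor and a coset of the first
      have h2 := h.ss z v (u ^ ((a : ℤ) * t)) h1.symm
      have h3 := h.pa _ h2
      have h4 : z * ψ (ka false (u ^ ((a : ℤ) * t))) * z⁻¹ = 1 := h1.symm.trans h3
      rw [conj_eq_one_iff] at h4
      exact hone false t ht h4
    · have : b' = false := by
        cases b' with
        | false => rfl
        | true => exact absurd rfl hb
      subst this
      have h2 := h.ss z⁻¹ (u ^ ((a : ℤ) * t)) v (by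
        have h5 : ψ (be v) = z * ψ (ka true (u ^ ((a : ℤ) * t))) * z⁻¹ := h1
        rw [h5, inv_inv]
        change z⁻¹ * (z * ψ (ka true (u ^ ((a : ℤ) * t))) * z⁻¹) * z =
          ψ (ka true (u ^ ((a : ℤ) * t)))
        group)
      exact hone true t ht (h.pa _ h2)
  · intro b γ y x hx x' hx'
    change pd (Y.S ⟨b, (γ : Q ⧸ E b)⟩) (pt W (y * x)) (pt W (y * x')) ≤ K
    by_contra hcon
    push Not at hcon
    obtain ⟨t, ht, h1⟩ := hD₃ b γ y x hx x' hx' (k3.trans hcon.le)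
    rw [map_zpow, map_zpow] at h1
    cases b
    · exact h.noFB hu _ (hat ht) h1
    · exact h.noFA hu _ (hat ht) h1

end st

theorem stepIII : StepIII' := by
  intro R₀ hR₀ x
  obtain ⟨Q, hQ, ψ, P, W, δ, h, rfl⟩ := hR₀
  by_cases hx : Inf P x
  swap
  · unfold Inf at hx
    push Not at hx
    obtain ⟨k, hk, hxk⟩ := hx
    exact ⟨ψ.ker, ⟨Q, hQ, ψ, P, W, δ, h, rfl⟩, le_rfl, k, hk, h.pa _ hxk, h.pb _ hxk⟩
  obtain ⟨x₀, hx₀, hr, j, hj⟩ := h.exists_root hx
  obtain ⟨T, hTu, hTK, hT1, hT2⟩ := h.exists_two hx₀ hr 4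
  obtain ⟨m₀, hm₀⟩ := T.kill h.og
  obtain ⟨m, hm, hmp⟩ := Nat.exists_infinite_primes m₀
  obtain ⟨R, Sm, hM, hRN, K⟩ := hm₀ m hm hmp
  rw [hTu] at K hRN
  have hN := R.normal
  have hKθ := T.K_le
  have hRN' : R.N = Subgroup.normalClosure {ψ (al (x₀ ^ m)), ψ (be (x₀ ^ m))} := by
    rw [hRN, map_pow, map_pow, map_pow, map_pow]; rfl
  obtain ⟨P', hP', hPP', hrP', h1, h2⟩ := new_P h hN hRN'
  have gA := h.ngeoA (fun x hx => (h1 x hx).1) h2
  have gB := h.ngeoB (fun x hx => (h1 x hx).2) h2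
  have hθ := T.Z.hθ
  have hδ := T.Z.hδ
  have hssi : SSi R.N (ψ.comp al).range (ψ.comp be).range := by
    refine ssi_ii_of T.Z R hM gA gB h.ssm
      (fun hx hz hxi hxz hmin => short_h T.Z R (by linarith)
        h.geoA h.geoB gA gB h.ssm hx hz hxi hxz hmin) ?_
    intro S
    obtain ⟨b, γ, rfl⟩ := T.exists_rep S
    cases b
    · left
      intro y a ha a' ha'
      exact (hT1 false true (by decide) γ y a ha a' ha').trans hKθ
    · right
      intro y a ha a' ha'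
      exact (hT1 true false (by decide) γ y a ha a' ha').trans hKθ
  have hss := sst_k h hx₀ K h1 h2 hssi
  have hgood := step_core h T.Z R hM (hTK.trans hKθ) hP' h1 h2 (K.og h.og) hss (by
    intro S y f f'
    obtain ⟨b, γ, rfl⟩ := T.exists_rep S
    exact (hT2 b γ y _ ⟨f, rfl⟩ _ ⟨f', rfl⟩).trans hKθ)
  refine ⟨_, hgood, ?_, m, hmp.pos, ?_, ?_⟩
  · intro w hw
    rw [MonoidHom.mem_ker] at hw ⊢
    rw [MonoidHom.comp_apply, hw, map_one]
  · rw [MonoidHom.mem_ker, MonoidHom.comp_apply, QuotientGroup.mk'_apply,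
      QuotientGroup.eq_one_iff]
    have h3 : ψ (al (x ^ m)) = ψ (ka true x₀) ^ ((m : ℤ) * j) := by
      have h4 := hj true
      rw [map_zpow, map_zpow] at h4
      rw [map_pow, map_pow, mul_comm, zpow_mul, ← h4, zpow_natCast]; rfl
    rw [h3]
    exact K.zmem true ⟨j, rfl⟩
  · rw [MonoidHom.mem_ker, MonoidHom.comp_apply, QuotientGroup.mk'_apply,
      QuotientGroup.eq_one_iff]
    have h3 : ψ (be (x ^ m)) = ψ (ka false x₀) ^ ((m : ℤ) * j) := by
      have h4 := hj false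
      rw [map_zpow, map_zpow] at h4
      rw [map_pow, map_pow, mul_comm, zpow_mul, ← h4, zpow_natCast]; rfl
    rw [h3]
    exact K.zmem false ⟨j, rfl⟩

end Pool.Agent.Y44.FG
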